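import Pool.Agent.Run7.h816.Prim

/-! The averaging lemma: an equivariant map between line bundles can be made a diffeomorphism on
every line. -/

set_option autoImplicit false

open Set Filter Topology Metric
open scoped ContDiff

namespace Pool.Agent.Run7.h816

/-- a convex combination commutes with an affine map -/
theorem affine_finsum {G : Type*} {w : G → ℝ} (hw : (Function.support w).Finite)
    (h1 : ∑ᶠ g, w g = 1) (c b : ℝ) (y : G → ℝ) :
    c * (∑ᶠ g, w g • y g) + b = ∑ᶠ g, w g • (c * y g + b) := by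
  have hs : ∀ z : G → ℝ, ∑ᶠ g, w g • z g = ∑ g ∈ hw.toFinset, w g • z g := by
    intro z
    apply finsum_eq_sum_of_support_subset
    intro g hg
    rw [Function.mem_support] at hg
    rw [Set.Finite.coe_toFinset, Function.mem_support]
    intro h; apply hg; rw [h, zero_smul]
  have h1' : ∑ g ∈ hw.toFinset, w g = 1 := by
    rw [← h1]; symm
    apply finsum_eq_sum_of_support_subset
    rw [Set.Finite.coe_toFinset]
  rw [hs, hs, Finset.mul_sum]
  have h2 : b = ∑ g ∈ hw.toFinset, w g * b := by rw [← Finset.sum_mul, h1', one_mul]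
  conv_lhs => rw [h2]
  rw [← Finset.sum_add_distrib]
  refine Finset.sum_congr rfl fun g _ => ?_
  simp only [smul_eq_mul]; ring

/-- a nonvanishing continuous function on a preconnected set has constant sign -/
theorem sign_const {P : Type*} [TopologicalSpace P] {s : Set P} (hs : IsPreconnected s) {f : P → ℝ}
    (hf : ContinuousOn f s) (h0 : ∀ p ∈ s, f p ≠ 0) : (∀ p ∈ s, 0 < f p) ∨ ∀ p ∈ s, f p < 0 := by
  by_contra hcon
  push Not at hcon
  obtain ⟨⟨p, hp, hp1⟩, q, hq, hq1⟩ := hcon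
  have := hs.intermediate_value hp hq hf
  obtain ⟨r, hr, hr0⟩ := this ⟨hp1, hq1⟩
  exact h0 r hr hr0

section avg

variable {G F F' : Type} [Group G] [NormedAddCommGroup F] [NormedSpace ℝ F] [FiniteDimensional ℝ F]
  [NormedAddCommGroup F'] [NormedSpace ℝ F'] [FiniteDimensional ℝ F']

/-- The averaging theorem. Two actions on `F × ℝ` and `F' × ℝ` over actions on `F`, `F'`; on the
source the lines are moved by isometries, on the target by affine maps. -/
theorem avg {a : G → F × ℝ → F × ℝ} {a' : G → F' × ℝ → F' × ℝ} (hact : IsAct a) (hact' : IsAct a')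
    (hs : ∀ g, ContDiff ℝ ∞ (a g)) (hs' : ∀ g, ContDiff ℝ ∞ (a' g)) (hPD : PD a) (hCC : CC a)
    (hPD' : PD a') {b : G → F → F} {ε : G → ℝ} {β : G → F → ℝ} (hε : ∀ g, ε g = 1 ∨ ε g = -1)
    (hnf : ∀ g q s, a g (q, s) = (b g q, ε g * s + β g q))
    {b' : G → F' → F'} {c' β' : G → F' → ℝ}
    (hfa : ∀ g q s, a' g (q, s) = (b' g q, c' g q * s + β' g q))
    {ψ : F → F'} (hψ : ContDiff ℝ ∞ ψ) (hψe : ∀ g q, ψ (b g q) = b' g (ψ q)) :
    ∃ (f : F × ℝ → F' × ℝ) (D : F × ℝ → ℝ), ContDiff ℝ ∞ f ∧ (∀ x, (f x).1 = ψ x.1) ∧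
      (∀ g x, f (a g x) = a' g (f x)) ∧ (∀ q s, HasDerivAt (fun s => (f (q, s)).2) (D (q, s)) s) ∧
      ∀ x, D x ≠ 0 := by
  classical
  obtain ⟨χ, hχs, hχ, hχ0, hχ1⟩ := exists_weight hact hs hPD hCC
  -- base facts
  have hb1 : ∀ g x, (a g x).1 = b g x.1 := by
    intro g x; rw [← Prod.mk.eta (p := x), hnf]
  have hb1' : ∀ g x, (a' g x).1 = b' g x.1 := by
    intro g x; rw [← Prod.mk.eta (p := x), hfa]
  have hbmul : ∀ g h q, b (g * h) q = b g (b h q) := by
    intro g h q
    have := congrArg Prod.fst (hact.mul g h (q, 0))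
    rw [hb1, hb1, hb1] at this; exact this
  have hb'mul : ∀ g h q, b' (g * h) q = b' g (b' h q) := by
    intro g h q
    have := congrArg Prod.fst (hact'.mul g h (q, 0))
    rw [hb1', hb1', hb1'] at this; exact this
  have hb'one : ∀ q, b' 1 q = q := by
    intro q
    have := congrArg Prod.fst (hact'.one (q, 0))
    rw [hb1'] at this; exact this
  have hbs : ∀ g, ContDiff ℝ ∞ (b g) := by
    intro g
    have h1 : b g = fun q => (a g (q, 0)).1 := by funext q; rw [hb1]
    rw [h1]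
    exact contDiff_fst.comp ((hs g).comp (contDiff_id.prodMk contDiff_const))
  -- the first map
  set c : G → F × ℝ → ℝ := fun g x => (a' g⁻¹ (ψ (b g x.1), 0)).2 with hc
  have hcs : ∀ g, ContDiff ℝ ∞ (c g) := by
    intro g
    exact contDiff_snd.comp ((hs' g⁻¹).comp
      ((hψ.comp ((hbs g).comp contDiff_fst)).prodMk contDiff_const))
  set g₀ : F × ℝ → ℝ := fun x => ∑ᶠ g, χ (a g x) • c g x with hg₀
  have hg₀s : ContDiff ℝ ∞ g₀ := contDiff_sum hs hPD hχs hχ c hcs
  have hg₀e : ∀ h x, g₀ (a h x) = c' h (ψ x.1) * g₀ x + β' h (ψ x.1) := by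
    intro h x
    simp only [hg₀]
    rw [affine_finsum (finite_support hPD hχ x) (hχ1 x)]
    rw [← finsum_comp_equiv (Equiv.mulRight h)
      (f := fun g => χ (a g x) • (c' h (ψ x.1) * c g x + β' h (ψ x.1)))]
    congr 1
    funext g
    simp only [Equiv.coe_mulRight]
    rw [← hact.mul]
    congr 1
    simp only [hc]
    rw [hb1, ← hbmul]
    have h2 : a' g⁻¹ (ψ (b (g * h) x.1), 0)
        = a' h (a' (g * h)⁻¹ (ψ (b (g * h) x.1), 0)) := by
      rw [← hact'.mul]; congr 1; group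
    rw [h2]
    have h3 : (a' (g * h)⁻¹ (ψ (b (g * h) x.1), 0)).1 = ψ x.1 := by
      rw [hb1', hψe]
      show b' (g * h)⁻¹ (b' (g * h) (ψ x.1)) = _
      rw [← hb'mul, inv_mul_cancel, hb'one]
    conv_lhs => rw [← Prod.mk.eta (p := a' (g * h)⁻¹ (ψ (b (g * h) x.1), 0)), hfa, h3]
  set f₀ : F × ℝ → F' × ℝ := fun x => (ψ x.1, g₀ x) with hf₀
  have hf₀c : Continuous f₀ := (hψ.continuous.comp continuous_fst).prodMk hg₀s.continuous
  have hf₀e : ∀ h x, f₀ (a h x) = a' h (f₀ x) := by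
    intro h x
    simp only [hf₀]
    rw [hfa, hb1, hψe, hg₀e]
  -- separation at large distance
  obtain ⟨R, hR, hRne⟩ : ∃ R : ℝ, 0 < R ∧ ∀ (x : F × ℝ) (r : ℝ), R ≤ |r| →
      g₀ (x.1, x.2 + r) ≠ g₀ x := by
    obtain ⟨K, hK, hKc⟩ := hCC
    have hfin := hPD' _ (hK.image hf₀c)
    have hB : IsCompact (K ∪ ⋃ g ∈ {g | ∃ x ∈ f₀ '' K, a' g x ∈ f₀ '' K}, a g⁻¹ '' K) :=
      hK.union (hfin.isCompact_biUnion fun g _ => hK.image (hs _).continuous)
    obtain ⟨M, hM⟩ := hB.isBounded.exists_norm_le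
    refine ⟨max (2 * M + 1) 1, by positivity, fun x r hr heq => ?_⟩
    have hr2 : 2 * M + 1 ≤ |r| := (le_max_left _ _).trans hr
    obtain ⟨g, hg⟩ := hKc x
    have e1 : f₀ (x.1, x.2 + r) = f₀ x := by simp only [hf₀]; rw [heq]
    have e2 : a g (x.1, x.2 + r) = ((a g x).1, (a g x).2 + ε g * r) := by
      conv_rhs => rw [← Prod.mk.eta (p := x)]
      rw [hnf, hnf]; ext
      · rfl
      · simp only []; ring
    have e3 : f₀ (a g (x.1, x.2 + r)) = f₀ (a g x) := by rw [hf₀e, e1, ← hf₀e]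
    obtain ⟨h, hh⟩ := hKc (a g (x.1, x.2 + r))
    have e4 : a g (x.1, x.2 + r) ∈ K ∪ ⋃ g ∈ {g | ∃ x ∈ f₀ '' K, a' g x ∈ f₀ '' K}, a g⁻¹ '' K := by
      refine Or.inr (mem_biUnion (x := h) ⟨f₀ (a g x), mem_image_of_mem _ hg, ?_⟩
        ⟨_, hh, hact.inv_left h _⟩)
      rw [← e3, ← hf₀e]
      exact mem_image_of_mem _ hh
    have n1 := hM _ e4
    have n2 := hM _ (Or.inl hg : a g x ∈ _)
    have n3 : |(a g (x.1, x.2 + r)).2| ≤ M := (norm_snd_le _).trans n1
    have n4 : |(a g x).2| ≤ M := (norm_snd_le _).trans n2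
    rw [e2] at n3
    simp only [] at n3
    have n5 : |ε g * r| = |r| := by
      rw [abs_mul]
      rcases hε g with h | h <;> simp [h]
    have n6 : |ε g * r| ≤ |(a g x).2 + ε g * r| + |(a g x).2| := by
      have : ε g * r = ((a g x).2 + ε g * r) - (a g x).2 := by ring
      calc |ε g * r| = |((a g x).2 + ε g * r) - (a g x).2| := by rw [← this]
        _ ≤ _ := abs_sub _ _
    linarith
  -- the sign
  have hsign : (∀ (x : F × ℝ) (r : ℝ), R ≤ r → 0 < g₀ (x.1, x.2 + r) - g₀ x) ∨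
      (∀ (x : F × ℝ) (r : ℝ), R ≤ r → g₀ (x.1, x.2 + r) - g₀ x < 0) := by
    have hconv : Convex ℝ {p : (F × ℝ) × ℝ | R ≤ p.2} :=
      convex_halfSpace_ge (f := fun p : (F × ℝ) × ℝ => p.2) ⟨fun _ _ => rfl, fun _ _ => rfl⟩ R
    have hcont : Continuous (fun p : (F × ℝ) × ℝ => g₀ (p.1.1, p.1.2 + p.2) - g₀ p.1) := by
      have := hg₀s.continuous
      fun_prop
    rcases sign_const hconv.isPreconnected hcont.continuousOn (by
      intro p hp
      have hp' : R ≤ |p.2| := le_trans hp (le_abs_self _)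
      exact sub_ne_zero.2 (hRne p.1 p.2 hp')) with h | h
    · exact Or.inl fun x r hr => h (x, r) hr
    · exact Or.inr fun x r hr => h (x, r) hr
  -- the averaged map
  set g₁ : F × ℝ → ℝ := fun x => (prim g₀ (x.1, x.2 + R) - prim g₀ (x.1, x.2 - R)) / (2 * R) with hg₁
  have hps := contDiff_prim hg₀s
  have hg₁s : ContDiff ℝ ∞ g₁ := by
    refine ContDiff.div_const (ContDiff.sub ?_ ?_) _
    · exact hps.comp (contDiff_fst.prodMk (contDiff_snd.add contDiff_const))
    · exact hps.comp (contDiff_fst.prodMk (contDiff_snd.sub contDiff_const))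
  have hg₁i : ∀ x, g₁ x = (∫ r in (x.2 - R)..(x.2 + R), g₀ (x.1, r)) / (2 * R) := by
    intro x
    simp only [hg₁]
    rw [prim_sub hg₀s.continuous]
  have hg₁e : ∀ h x, g₁ (a h x) = c' h (ψ x.1) * g₁ x + β' h (ψ x.1) := by
    intro h x
    have hcq : ∀ q : F, Continuous (fun r => g₀ (q, r)) := by
      intro q; have := hg₀s.continuous; fun_prop
    rw [hg₁i, hg₁i]
    have e1 : (a h x).1 = b h x.1 := hb1 h x
    have e2 : (a h x).2 = ε h * x.2 + β h x.1 := by
      rw [← Prod.mk.eta (p := x), hnf]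
    have e3 : ∀ r, g₀ (b h x.1, ε h * r + β h x.1) = c' h (ψ x.1) * g₀ (x.1, r) + β' h (ψ x.1) := by
      intro r
      have := hg₀e h (x.1, r)
      rw [hnf] at this; exact this
    have e4 : ∫ r in (x.2 - R)..(x.2 + R), g₀ (b h x.1, ε h * r + β h x.1)
        = c' h (ψ x.1) * (∫ r in (x.2 - R)..(x.2 + R), g₀ (x.1, r)) + 2 * R * β' h (ψ x.1) := by
      simp only [e3]
      rw [intervalIntegral.integral_add, intervalIntegral.integral_const_mul,
        intervalIntegral.integral_const]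
      · simp only [smul_eq_mul]; ring
      · exact ((hcq _).const_mul _ |>.intervalIntegrable _ _)
      · exact intervalIntegrable_const
    have e5 : (∫ r in ((a h x).2 - R)..((a h x).2 + R), g₀ ((a h x).1, r))
        = ∫ r in (x.2 - R)..(x.2 + R), g₀ (b h x.1, ε h * r + β h x.1) := by
      rw [e1, e2]
      rcases hε h with h1 | h1
      · rw [h1, intervalIntegral.integral_comp_mul_add (fun r => g₀ (b h x.1, r)) one_ne_zero]
        simp only [one_mul, inv_one, one_smul]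
        congr 1 <;> ring
      · rw [h1, intervalIntegral.integral_comp_mul_add (fun r => g₀ (b h x.1, r))
          (by norm_num : (-1 : ℝ) ≠ 0)]
        rw [intervalIntegral.integral_symm (-1 * (x.2 + R) + β h x.1) (-1 * (x.2 - R) + β h x.1)]
        have e6 : ((-1 : ℝ)⁻¹) = -1 := by norm_num
        rw [e6, neg_one_smul, neg_neg]
        congr 1 <;> ring
    rw [e5, e4]
    field_simp
  refine ⟨fun x => (ψ x.1, g₁ x),
    fun x => (g₀ (x.1, x.2 + R) - g₀ (x.1, x.2 - R)) / (2 * R), ?_, fun x => rfl, ?_, ?_, ?_⟩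
  · exact (hψ.comp contDiff_fst).prodMk hg₁s
  · intro h x
    show (ψ (a h x).1, g₁ (a h x)) = a' h (ψ x.1, g₁ x)
    rw [hfa, hb1, hψe, hg₁e]
  · intro q s
    show HasDerivAt (fun s => (prim g₀ (q, s + R) - prim g₀ (q, s - R)) / (2 * R)) _ s
    have h1 := (hasDerivAt_prim hg₀s.continuous q (s + R)).comp_add_const s R
    have h2 := (hasDerivAt_prim hg₀s.continuous q (s - R)).comp_sub_const s R
    exact (h1.sub h2).div_const _
  · intro x
    have h1 : g₀ (x.1, x.2 + R) - g₀ (x.1, x.2 - R)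
        = g₀ ((x.1, x.2 - R).1, (x.1, x.2 - R).2 + 2 * R) - g₀ (x.1, x.2 - R) := by
      simp only []; congr 2
      · ext
        · rfl
        · simp only []; ring
    refine div_ne_zero ?_ (by positivity)
    rw [h1]
    rcases hsign with h | h
    · exact (h (x.1, x.2 - R) (2 * R) (by linarith)).ne'
    · exact (h (x.1, x.2 - R) (2 * R) (by linarith)).ne

end avg

end Pool.Agent.Run7.h816
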