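import Mathlib

/-! Properly discontinuous cocompact smooth actions of a group on a finite dimensional vector space:
locally finite sums over the group, continuous and smooth equivariant maps. -/

set_option autoImplicit false

open Set Filter Topology Metric
open scoped ContDiff

namespace Pool.Agent.Run7.h816

/-- A group action given by a family of maps. -/
structure IsAct {G X : Type*} [Group G] (a : G → X → X) : Prop where
  one : ∀ x, a 1 x = x
  mul : ∀ g h x, a (g * h) x = a g (a h x)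

/-- Proper discontinuity. -/
def PD {G X : Type*} [TopologicalSpace X] (a : G → X → X) : Prop :=
  ∀ K : Set X, IsCompact K → {g | ∃ x ∈ K, a g x ∈ K}.Finite

/-- Cocompactness. -/
def CC {G X : Type*} [TopologicalSpace X] (a : G → X → X) : Prop :=
  ∃ K : Set X, IsCompact K ∧ ∀ x, ∃ g, a g x ∈ K

section act
variable {G X : Type*} [Group G] {a : G → X → X}

theorem IsAct.inv_left (h : IsAct a) (g : G) (x : X) : a g⁻¹ (a g x) = x := by
  rw [← h.mul, inv_mul_cancel, h.one]

theorem IsAct.inv_right (h : IsAct a) (g : G) (x : X) : a g (a g⁻¹ x) = x := by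
  rw [← h.mul, mul_inv_cancel, h.one]

theorem IsAct.injective (h : IsAct a) (g : G) : Function.Injective (a g) :=
  Function.LeftInverse.injective (h.inv_left g)

end act

section normed

variable {G X Y : Type*} [Group G] [NormedAddCommGroup X] [NormedSpace ℝ X]
  [FiniteDimensional ℝ X] [NormedAddCommGroup Y] [NormedSpace ℝ Y]

theorem exists_bump (K : Set X) (hK : IsCompact K) :
    ∃ χ : X → ℝ, ContDiff ℝ ∞ χ ∧ HasCompactSupport χ ∧ (∀ x, 0 ≤ χ x) ∧ ∀ x ∈ K, 0 < χ x := by
  obtain ⟨R, hR⟩ := hK.isBounded.subset_closedBall (0 : X)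
  let f : ContDiffBump (0 : X) := ⟨max R 1, max R 1 + 1, by positivity, by linarith⟩
  refine ⟨f, f.contDiff, f.hasCompactSupport, fun x => f.nonneg, fun x hx => ?_⟩
  have h1 : x ∈ closedBall (0 : X) (max R 1) := closedBall_subset_closedBall (le_max_left _ _) (hR hx)
  have := f.one_of_mem_closedBall h1
  rw [this]; exact one_pos

/-- local finiteness -/
theorem locfin {a : G → X → X} (hPD : PD a) {χ : X → ℝ} (hχ : HasCompactSupport χ) (x₀ : X) :
    ∃ S : Finset G, ∀ x ∈ closedBall x₀ 1, ∀ g, χ (a g x) ≠ 0 → g ∈ S := by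
  have hK : IsCompact (closedBall x₀ 1 ∪ tsupport χ) := (isCompact_closedBall _ _).union hχ
  refine ⟨(hPD _ hK).toFinset, fun x hx g hg => ?_⟩
  rw [Set.Finite.mem_toFinset]
  exact ⟨x, Or.inl hx, Or.inr (subset_tsupport _ hg)⟩

theorem sum_eq {a : G → X → X} {χ : X → ℝ} (c : G → X → Y) {x : X} {S : Finset G}
    (hS : ∀ g, χ (a g x) ≠ 0 → g ∈ S) :
    ∑ᶠ g, χ (a g x) • c g x = ∑ g ∈ S, χ (a g x) • c g x := by
  apply finsum_eq_sum_of_support_subset
  intro g hg
  rw [Function.mem_support] at hg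
  apply hS
  intro h; apply hg; rw [h, zero_smul]

theorem contDiff_sum {a : G → X → X} (hs : ∀ g, ContDiff ℝ ∞ (a g)) (hPD : PD a) {χ : X → ℝ}
    (hχs : ContDiff ℝ ∞ χ) (hχ : HasCompactSupport χ) (c : G → X → Y)
    (hc : ∀ g, ContDiff ℝ ∞ (c g)) : ContDiff ℝ ∞ (fun x => ∑ᶠ g, χ (a g x) • c g x) := by
  rw [contDiff_iff_contDiffAt]
  intro x₀
  obtain ⟨S, hS⟩ := locfin hPD hχ x₀
  have h1 : ContDiffAt ℝ ∞ (fun x => ∑ g ∈ S, χ (a g x) • c g x) x₀ := by
    apply ContDiff.contDiffAt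
    apply ContDiff.sum
    intro g _
    exact (hχs.comp (hs g)).smul (hc g)
  refine h1.congr_of_eventuallyEq ?_
  filter_upwards [closedBall_mem_nhds x₀ one_pos] with x hx
  exact sum_eq c (hS x hx)

theorem continuous_sum {a : G → X → X} (hs : ∀ g, Continuous (a g)) (hPD : PD a) {χ : X → ℝ}
    (hχs : Continuous χ) (hχ : HasCompactSupport χ) (c : G → X → Y)
    (hc : ∀ g, Continuous (c g)) : Continuous (fun x => ∑ᶠ g, χ (a g x) • c g x) := by
  rw [continuous_iff_continuousAt]
  intro x₀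
  obtain ⟨S, hS⟩ := locfin hPD hχ x₀
  have h1 : ContinuousAt (fun x => ∑ g ∈ S, χ (a g x) • c g x) x₀ := by
    apply Continuous.continuousAt
    refine continuous_finsetSum _ fun g _ => ?_
    exact (hχs.comp (hs g)).smul (hc g)
  refine h1.congr ?_
  filter_upwards [closedBall_mem_nhds x₀ one_pos] with x hx
  exact (sum_eq c (hS x hx)).symm

theorem finite_support {a : G → X → X} (hPD : PD a) {χ : X → ℝ} (hχ : HasCompactSupport χ)
    (x : X) : (Function.support (fun g => χ (a g x))).Finite := by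
  obtain ⟨S, hS⟩ := locfin hPD hχ x
  exact S.finite_toSet.subset fun g hg => hS x (mem_closedBall_self zero_le_one) g hg

/-- a bump function whose translates sum up to one -/
theorem exists_weight {a : G → X → X} (hact : IsAct a) (hs : ∀ g, ContDiff ℝ ∞ (a g)) (hPD : PD a)
    (hCC : CC a) :
    ∃ χ : X → ℝ, ContDiff ℝ ∞ χ ∧ HasCompactSupport χ ∧ (∀ x, 0 ≤ χ x) ∧
      (∀ x, ∑ᶠ g, χ (a g x) = 1) := by
  obtain ⟨K, hK, hKc⟩ := hCC
  obtain ⟨χ, hχs, hχ, hχ0, hχ1⟩ := exists_bump K hK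
  set T : X → ℝ := fun x => ∑ᶠ g, χ (a g x) • (1 : ℝ) with hT
  have hTs : ContDiff ℝ ∞ T := contDiff_sum hs hPD hχs hχ (fun _ _ => (1 : ℝ)) fun g => contDiff_const
  have hTpos : ∀ x, 0 < T x := by
    intro x
    obtain ⟨S, hS⟩ := locfin hPD hχ x
    have h1 : T x = ∑ g ∈ S, χ (a g x) • (1 : ℝ) :=
      sum_eq (fun _ _ => (1 : ℝ)) (hS x (mem_closedBall_self zero_le_one))
    rw [h1]
    obtain ⟨g, hg⟩ := hKc x
    have hg' : 0 < χ (a g x) := hχ1 _ hg
    apply Finset.sum_pos'
    · intro i _; simpa using hχ0 _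
    · exact ⟨g, hS x (mem_closedBall_self zero_le_one) g hg'.ne', by simpa using hg'⟩
  have hTinv : ∀ h x, T (a h x) = T x := by
    intro h x
    simp only [hT]
    rw [← finsum_comp_equiv (Equiv.mulRight h) (f := fun g => χ (a g x) • (1 : ℝ))]
    congr 1
    funext g
    simp [hact.mul]
  refine ⟨fun x => χ x / T x, hχs.div hTs fun x => (hTpos x).ne', ?_,
    fun x => div_nonneg (hχ0 x) (hTpos x).le, fun x => ?_⟩
  · refine hχ.mono ?_
    intro x hx
    rw [Function.mem_support] at hx ⊢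
    intro h; apply hx; simp [h]
  · have h1 : ∀ g, χ (a g x) / T (a g x) = (T x)⁻¹ • (χ (a g x) • (1 : ℝ)) := by
      intro g
      rw [hTinv]; simp [div_eq_inv_mul]
    simp only [h1]
    rw [← smul_finsum]
    show (T x)⁻¹ • T x = 1
    rw [smul_eq_mul, inv_mul_cancel₀ (hTpos x).ne']

end normed

end Pool.Agent.Run7.h816
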