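import Pool.Agent.Run7.h816.Basic

/-! An equivariant local homeomorphism between finite dimensional vector spaces with group actions,
cocompact on the source and properly discontinuous on the target, is a bijection. -/

set_option autoImplicit false

open Set Filter Topology Metric
open scoped ContDiff

namespace Pool.Agent.Run7.h816

section proper

variable {G X X' : Type*} [Group G] [TopologicalSpace X] [TopologicalSpace X']

/-- equivariant maps are proper -/
theorem isCompact_preimage {a : G → X → X} {a' : G → X' → X'} (hact : IsAct a)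
    [T2Space X'] (ha : ∀ g, Continuous (a g)) (hCC : CC a) (hPD' : PD a')
    {f : X → X'} (hf : Continuous f) (heq : ∀ g x, f (a g x) = a' g (f x))
    {K' : Set X'} (hK' : IsCompact K') : IsCompact (f ⁻¹' K') := by
  obtain ⟨K, hK, hKc⟩ := hCC
  have h1 : IsCompact (K' ∪ f '' K) := hK'.union (hK.image hf)
  have hfin := hPD' _ h1
  have h2 : IsCompact (⋃ g ∈ {g | ∃ x ∈ K' ∪ f '' K, a' g x ∈ K' ∪ f '' K}, a g⁻¹ '' K) :=
    hfin.isCompact_biUnion fun g _ => hK.image (ha _)
  refine h2.of_isClosed_subset (hK'.isClosed.preimage hf) fun x hx => ?_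
  obtain ⟨g, hg⟩ := hKc x
  have h3 : a' g (f x) ∈ f '' K := by rw [← heq]; exact mem_image_of_mem f hg
  refine mem_biUnion (x := g) ?_ ⟨a g x, hg, hact.inv_left g x⟩
  exact ⟨f x, Or.inl hx, Or.inr h3⟩

end proper

section cover

variable {G X X' : Type*} [Group G] [NormedAddCommGroup X] [NormedSpace ℝ X]
  [NormedAddCommGroup X'] [NormedSpace ℝ X'] [FiniteDimensional ℝ X']

theorem cover_bijective {a : G → X → X} {a' : G → X' → X'} (hact : IsAct a)
    (ha : ∀ g, Continuous (a g)) (hCC : CC a) (hPD' : PD a')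
    {f : X → X'} (hf : IsLocalHomeomorph f) (heq : ∀ g x, f (a g x) = a' g (f x)) :
    Function.Bijective f := by
  have hfc : Continuous f := hf.continuous
  have hprop : IsProperMap f := by
    rw [isProperMap_iff_isCompact_preimage]
    exact ⟨hfc, fun K' hK' => isCompact_preimage hact ha hCC hPD' hfc heq hK'⟩
  have hclosed : IsClosedMap f := hprop.isClosedMap
  have hfib : ∀ y, (f ⁻¹' {y}).Finite := by
    intro y
    have h1 : IsCompact (f ⁻¹' {y}) := isCompact_preimage hact ha hCC hPD' hfc heq isCompact_singleton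
    refine h1.finite ?_
    refine IsDiscrete.of_openPartialHomeomorph f subset_rfl fun e _ => ?_
    obtain ⟨φ, hφ, h⟩ := hf e
    exact ⟨φ, hφ, h.symm⟩
  have hcov : IsCoveringMap f := by
    rw [isCoveringMap_iff_isCoveringMapOn_univ]
    apply hclosed.isCoveringMapOn_of_isLocalHomeomorphOn (fun y _ => hfib y)
    rw [preimage_univ]
    exact isLocalHomeomorph_iff_isLocalHomeomorphOn_univ.mp hf
  obtain ⟨s, ⟨hs0, hs1⟩, -⟩ := hcov.existsUnique_continuousMap_lifts
    (ContinuousMap.id X') (f 0) 0 rfl
  have hfs : ∀ y, f (s y) = y := fun y => congrFun hs1 y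
  have hsf : (s ∘ f) = id := by
    refine hcov.eq_of_comp_eq (s.continuous.comp hfc) continuous_id ?_ 0 ?_
    · funext x; exact hfs (f x)
    · exact hs0
  exact ⟨fun x y hxy => by
      have h1 := congrFun hsf x
      have h2 := congrFun hsf y
      simp only [Function.comp, id] at h1 h2
      rw [← h1, ← h2, hxy], fun y => ⟨s y, hfs y⟩⟩

end cover

section diffeo

variable {X X' : Type*} [NormedAddCommGroup X] [NormedSpace ℝ X] [FiniteDimensional ℝ X]
  [NormedAddCommGroup X'] [NormedSpace ℝ X'] [FiniteDimensional ℝ X']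

/-- a smooth map with bijective derivatives is a local homeomorphism -/
theorem isLocalHomeomorph_of_fderiv {f : X → X'} (hf : ContDiff ℝ ∞ f)
    (hd : ∀ x, Function.Bijective (fderiv ℝ f x)) : IsLocalHomeomorph f := by
  intro x
  let e : X ≃L[ℝ] X' := (LinearEquiv.ofBijective (fderiv ℝ f x : X →ₗ[ℝ] X') (hd x)).toContinuousLinearEquiv
  have he : (e : X →L[ℝ] X') = fderiv ℝ f x := by
    ext v; rfl
  have h1 : HasStrictFDerivAt f (e : X →L[ℝ] X') x := by
    rw [he]
    exact (hf.contDiffAt (x := x)).hasStrictFDerivAt (by simp)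
  exact ⟨h1.toOpenPartialHomeomorph f, h1.mem_toOpenPartialHomeomorph_source, rfl⟩

/-- a bijective smooth map with bijective derivatives has a smooth inverse -/
theorem exists_smooth_inverse {f : X → X'} (hf : ContDiff ℝ ∞ f)
    (hd : ∀ x, Function.Bijective (fderiv ℝ f x)) (hb : Function.Bijective f) :
    ∃ g : X' → X, ContDiff ℝ ∞ g ∧ (∀ x, g (f x) = x) ∧ ∀ y, f (g y) = y := by
  have hl := isLocalHomeomorph_of_fderiv hf hd
  let h : X ≃ₜ X' := (Equiv.ofBijective f hb).toHomeomorphOfContinuousOpen hf.continuous hl.isOpenMap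
  have hh : ∀ x, h x = f x := fun x => rfl
  refine ⟨h.symm, ?_, fun x => h.symm_apply_apply x, fun y => h.apply_symm_apply y⟩
  refine Homeomorph.contDiff_symm h
    (f₀' := fun x => (LinearEquiv.ofBijective (fderiv ℝ f x : X →ₗ[ℝ] X') (hd x)).toContinuousLinearEquiv)
    (fun x => ?_) hf
  have h2 : HasFDerivAt f (fderiv ℝ f x) x := ((hf.differentiable (by simp)) x).hasFDerivAt
  exact h2

end diffeo

end Pool.Agent.Run7.h816
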