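import Mathlib

/-! Definitions used in the statements. -/

set_option autoImplicit false

open scoped ContDiff

namespace Pool.Agent.Run7.h816

section defs

variable {G E E' Q : Type} [Group G] [NormedAddCommGroup E] [NormedSpace ℝ E]
  [NormedAddCommGroup E'] [NormedSpace ℝ E'] [NormedAddCommGroup Q] [NormedSpace ℝ Q]

/-- `f` is an affine map. -/
def IsAff (f : E → Q) : Prop := ∃ (L : E →ₗ[ℝ] Q) (c : Q), ∀ x, f x = L x + c

/-- `a` is a faithful, properly discontinuous and cocompact action of `G` on `E` by affine maps,
so that `G` is the fundamental group of the compact complete affine orbifold `E / G`, a manifold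
when `G` is torsion-free. -/
structure AffCrystal (a : G → E → E) : Prop where
  one : ∀ x, a 1 x = x
  mul : ∀ g h x, a (g * h) x = a g (a h x)
  aff : ∀ g, IsAff (a g)
  faithful : ∀ g, (∀ x, a g x = x) → g = 1
  proper : ∀ K : Set E, IsCompact K → {g | ∃ x ∈ K, a g x ∈ K}.Finite
  cocompact : ∃ K : Set E, IsCompact K ∧ ∀ x, ∃ g, a g x ∈ K

/-- `p` is an affine map onto `Q` which carries the action `a` to the maps `ρ g`. -/
structure AffFib (a : G → E → E) (p : E → Q) (ρ : G → Q → Q) : Prop where
  aff : IsAff p
  surj : Function.Surjective p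
  equiv : ∀ g x, p (a g x) = ρ g (p x)

/-- Every element of `T` is a translation along the fibres of `p`. -/
def TransAlong (a : G → E → E) (p : E → Q) (T : Subgroup G) : Prop :=
  ∀ t ∈ T, ∃ v : E, ∀ x, a t x = x + v ∧ p (x + v) = p x

/-- The linear span of the vectors of the translations in `T`. -/
def transSpan (a : G → E → E) (T : Subgroup G) : Submodule ℝ E :=
  Submodule.span ℝ {v : E | ∃ t ∈ T, ∀ x, a t x = x + v}

/-- `f` is an equivariant diffeomorphism of class `C^∞`. -/
structure EquivDiffeo (a : G → E → E) (a' : G → E' → E') (f : E ≃ E') : Prop where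
  smooth : ContDiff ℝ ∞ f
  smooth_symm : ContDiff ℝ ∞ f.symm
  equiv : ∀ g x, f (a g x) = a' g (f x)

end defs

end Pool.Agent.Run7.h816
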