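import Pool.Agent.Run7.h816.Defs

/-! Volume distortion of affine maps. -/

set_option autoImplicit false

namespace Pool.Agent.Run7.h816

/-- The factor by which the affine map `f` multiplies volumes: the absolute value of the determinant
of its linear part, written as the derivative at the origin. -/
noncomputable def volFactor {Q : Type} [NormedAddCommGroup Q] [NormedSpace ℝ Q] (f : Q → Q) : ℝ :=
  |(fderiv ℝ f 0).det|

end Pool.Agent.Run7.h816
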