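import Pool.Agent.Run7.h816.DefsTwist
import Pool.Agent.Run7.h816.DefsVol

/-! Polynomial maps of bounded degree. -/

set_option autoImplicit false

namespace Pool.Agent.Run7.h816

/-- `f` is a polynomial map of degree at most `d`: its composition with every linear functional lies
in the span of the products of `d` affine functions. -/
def PolyDeg {Q Q' : Type} [NormedAddCommGroup Q] [NormedSpace ℝ Q] [NormedAddCommGroup Q']
    [NormedSpace ℝ Q'] (d : ℕ) (f : Q → Q') : Prop :=
  ∀ ℓ : Q' →ₗ[ℝ] ℝ, (fun x => ℓ (f x)) ∈ (Submodule.span ℝ {u : Q → ℝ | IsAff u}) ^ d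

end Pool.Agent.Run7.h816
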