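import Pool.Agent.Run7.h816.DefsPoly
import Pool.Agent.Run7.h816.DefsVol

/-! Definitions for the fibration theorem. -/

set_option autoImplicit false

namespace Pool.Agent.Run7.h816

/-- The subgroup `N` maps every fibre of `p` to itself and is cocompact on every fibre. -/
structure FibreCocompact {G E Q : Type} [Group G] [NormedAddCommGroup E] (a : G → E → E)
    (p : E → Q) (N : Subgroup G) : Prop where
  trivial_base : ∀ n ∈ N, ∀ x, p (a n x) = p x
  cocompact : ∀ q, ∃ K : Set E, IsCompact K ∧ ∀ x, p x = q → ∃ n ∈ N, a n x ∈ K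

/-- On every fibre of `p` the map `s` agrees with a polynomial map. -/
def FibrePoly {E E' Q : Type} [NormedAddCommGroup E] [NormedSpace ℝ E] [NormedAddCommGroup E']
    [NormedSpace ℝ E'] (p : E → Q) (s : E → E') : Prop :=
  ∀ q, ∃ S : E → E', IsPoly S ∧ ∀ x, p x = q → s x = S x

end Pool.Agent.Run7.h816
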