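import Pool.Agent.Run7.h816.Defs

/-! One-parameter groups of affine maps. -/

set_option autoImplicit false

open scoped ContDiff

namespace Pool.Agent.Run7.h816

/-- `c` is a smooth one-parameter group of affine maps of `E`. -/
structure AffFlow {E : Type} [NormedAddCommGroup E] [NormedSpace ℝ E] (c : ℝ → E → E) : Prop where
  zero : ∀ x, c 0 x = x
  add : ∀ s t x, c (s + t) x = c s (c t x)
  aff : ∀ s, IsAff (c s)
  smooth : ContDiff ℝ ∞ (fun q : ℝ × E => c q.1 q.2)

/-- The velocity at `x` of the flow `c`. -/
noncomputable def velocity {E : Type} [NormedAddCommGroup E] [NormedSpace ℝ E] (c : ℝ → E → E)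
    (x : E) : E :=
  deriv (fun s => c s x) 0

/-- `x` and `y` lie on the same orbit of `c`. -/
def SameOrbit {E : Type} (c : ℝ → E → E) (x y : E) : Prop := ∃ s, y = c s x

end Pool.Agent.Run7.h816
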