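import Pool.Agent.Run7.h816.Defs

/-! Polynomial maps. -/

set_option autoImplicit false

namespace Pool.Agent.Run7.h816

/-- The algebra of polynomial functions on `Q`, generated by the affine functions. -/
def polyFun (Q : Type) [NormedAddCommGroup Q] [NormedSpace ℝ Q] : Subalgebra ℝ (Q → ℝ) :=
  Algebra.adjoin ℝ {f | IsAff f}

/-- `f` is a polynomial map: its composition with every linear functional is polynomial. -/
def IsPoly {Q Q' : Type} [NormedAddCommGroup Q] [NormedSpace ℝ Q] [NormedAddCommGroup Q']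
    [NormedSpace ℝ Q'] (f : Q → Q') : Prop :=
  ∀ ℓ : Q' →ₗ[ℝ] ℝ, (fun x => ℓ (f x)) ∈ polyFun Q

end Pool.Agent.Run7.h816
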