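import Pool.Agent.Run7.h816.Defs

/-! Maps which are equivariant up to a bounded error at every point. -/

set_option autoImplicit false

namespace Pool.Agent.Run7.h816

/-- At every point `q` the values of the maps `ρ' g ∘ ψ ∘ (ρ g)⁻¹`, for `g` in `G`, are bounded. -/
def BddTwist {G Q Q' : Type} [Group G] [NormedAddCommGroup Q'] (ρ : G → Q → Q)
    (ρ' : G → Q' → Q') (ψ : Q → Q') : Prop :=
  ∀ q, ∃ C : ℝ, ∀ g, ‖ρ' g (ψ (ρ g⁻¹ q))‖ ≤ C

/-- Every element of `T` acts as a translation. -/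
def TransSub {G E : Type} [Group G] [NormedAddCommGroup E] (a : G → E → E) (T : Subgroup G) :
    Prop :=
  ∀ t ∈ T, ∃ v : E, ∀ x, a t x = x + v

end Pool.Agent.Run7.h816
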