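import Pool.Agent.Run7.h816.Torus
import Pool.Agent.H815.HF.Brouwer

/-! Equivariant self-maps of a cocompact properly discontinuous affine action are onto. -/

set_option autoImplicit false

open Set Filter Topology Metric
open scoped ContDiff

namespace Pool.Agent.Run7.h816

section zero

variable {E : Type} [NormedAddCommGroup E] [NormedSpace ℝ E] [FiniteDimensional ℝ E]

/-- a map which is the identity outside a ball has a zero -/
theorem exists_zero {F : E → E} (hF : ContDiff ℝ ∞ F) {R : ℝ} (hR : ∀ x, R ≤ ‖x‖ → F x = x) :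
    ∃ x, F x = 0 := by
  set e := toEuclidean (E := E) with he
  set c : ℝ := ‖(e : E →L[ℝ] EuclideanSpace ℝ (Fin (Module.finrank ℝ E)))‖ with hc
  have hc0 : 0 ≤ c := norm_nonneg _
  obtain ⟨z, hz⟩ := Pool.Agent.H815.HF.Brouwer.exists_zero_of_C1 (fun z => e (F (e.symm z)))
    ((e.contDiff.comp (hF.comp e.symm.contDiff)).of_le (by simp)) (c * |R| + 1) (by positivity) (by
      intro z hz
      have h1 : ‖z‖ ≤ c * ‖e.symm z‖ := by
        have := (e : E →L[ℝ] EuclideanSpace ℝ (Fin (Module.finrank ℝ E))).le_opNorm (e.symm z)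
        simpa using this
      have h2 : R ≤ ‖e.symm z‖ := by
        by_contra hlt
        push Not at hlt
        have h3 : ‖e.symm z‖ ≤ |R| := hlt.le.trans (le_abs_self _)
        have h4 := mul_le_mul_of_nonneg_left h3 hc0
        linarith
      simp only [hR _ h2, ContinuousLinearEquiv.apply_symm_apply])
  refine ⟨e.symm z, ?_⟩
  have h5 : e (F (e.symm z)) = e 0 := by rw [hz, map_zero]
  exact e.injective h5

/-- a map joined to the identity by a proper straight homotopy is onto -/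
theorem surj_of_homotopy {r : E → E} (hr : ContDiff ℝ ∞ r)
    (hbd : ∀ y, ∃ R : ℝ, ∀ t ∈ Icc (0 : ℝ) 1, ∀ x, x + t • (r x - x) = y → ‖x‖ < R) :
    Function.Surjective r := by
  intro y
  obtain ⟨R, hR⟩ := hbd y
  set R1 : ℝ := max R 1 with hR1
  have hR1pos : 0 < R1 := lt_of_lt_of_le one_pos (le_max_right _ _)
  let β : ContDiffBump (0 : E) := ⟨R1, R1 + 1, hR1pos, by linarith⟩
  have hβ1 : ∀ x, ‖x‖ < R → β x = 1 := by
    intro x hx
    apply β.one_of_mem_closedBall
    rw [mem_closedBall, dist_zero_right]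
    exact hx.le.trans (le_max_left _ _)
  have hβ0 : ∀ x, R1 + 1 ≤ ‖x‖ → β x = 0 := by
    intro x hx
    apply β.zero_of_le_dist
    rw [dist_zero_right]; exact hx
  obtain ⟨x, hx⟩ := exists_zero (F := fun x => (x + y) + β (x + y) • (r (x + y) - (x + y)) - y)
    (by
      have h1 : ContDiff ℝ ∞ (fun x : E => x + y) := contDiff_id.add contDiff_const
      exact (h1.add ((β.contDiff.comp h1).smul ((hr.comp h1).sub h1))).sub contDiff_const)
    (R := R1 + 1 + ‖y‖) (by
      intro x hx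
      have h1 : R1 + 1 ≤ ‖x + y‖ := by
        have : ‖x‖ ≤ ‖x + y‖ + ‖y‖ := by
          calc ‖x‖ = ‖(x + y) - y‖ := by rw [add_sub_cancel_right]
            _ ≤ _ := norm_sub_le _ _
        linarith
      simp only [hβ0 _ h1, zero_smul, add_zero, add_sub_cancel_right])
  have h2 : (x + y) + β (x + y) • (r (x + y) - (x + y)) = y := sub_eq_zero.1 hx
  have h3 := hR (β (x + y)) ⟨β.nonneg, β.le_one⟩ (x + y) h2
  rw [hβ1 _ h3, one_smul] at h2
  exact ⟨x + y, by rw [add_sub_cancel] at h2; exact h2⟩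

end zero

section degree

variable {G E E' : Type} [Group G] [NormedAddCommGroup E] [NormedSpace ℝ E] [FiniteDimensional ℝ E]
  [NormedAddCommGroup E'] [NormedSpace ℝ E'] [FiniteDimensional ℝ E']

theorem equivariant_surjective {A : G →* (E ≃ᵃ[ℝ] E)} (hPD : PD (actOf A)) (hCC : CC (actOf A))
    {r : E → E} (hr : ContDiff ℝ ∞ r) (hre : ∀ g x, r (A g x) = A g (r x)) :
    Function.Surjective r := by
  refine surj_of_homotopy hr fun y => ?_
  obtain ⟨K, hK, hKc⟩ := hCC
  set H : ℝ × E → E := fun p => p.2 + p.1 • (r p.2 - p.2) with hH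
  have hHc : Continuous H := by
    have := hr.continuous
    fun_prop
  have hHe : ∀ g t x, H (t, A g x) = A g (H (t, x)) := by
    intro g t x
    simp only [hH]
    have e1 : A g (x + t • (r x - x)) = A g x + (A g).linear (t • (r x - x)) := affe_add _ _ _
    rw [e1, hre, map_smul]
    congr 2
    rw [affe_apply (A g) (r x), affe_apply (A g) x, map_sub]; abel
  set L : Set E := {y} ∪ H '' (Icc 0 1 ×ˢ K) with hL
  have hLc : IsCompact L := isCompact_singleton.union ((isCompact_Icc.prod hK).image hHc)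
  have hfin := hPD L hLc
  have hcomp : IsCompact (⋃ g ∈ {g | ∃ x ∈ L, actOf A g x ∈ L}, actOf A g⁻¹ '' K) :=
    hfin.isCompact_biUnion fun g _ => hK.image (actOf_continuous A _)
  obtain ⟨R, hR⟩ := hcomp.isBounded.exists_norm_le
  refine ⟨R + 1, fun t ht x hx => ?_⟩
  obtain ⟨g, hg⟩ := hKc x
  have h1 : actOf A g y ∈ L := by
    right
    refine ⟨(t, A g x), ⟨ht, hg⟩, ?_⟩
    rw [hHe]
    show A g (x + t • (r x - x)) = A g y
    rw [hx]
  have h2 : x ∈ ⋃ g ∈ {g | ∃ x ∈ L, actOf A g x ∈ L}, actOf A g⁻¹ '' K :=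
    mem_biUnion (x := g) ⟨y, Or.inl rfl, h1⟩ ⟨_, hg, (actOf_act A).inv_left g x⟩
  exact lt_of_le_of_lt (hR x h2) (by linarith)

/-- equivariant maps exist, over prescribed base maps -/
theorem exists_equivariant {A : G →* (E ≃ᵃ[ℝ] E)} {A' : G →* (E' ≃ᵃ[ℝ] E')} (hPD : PD (actOf A))
    (hCC : CC (actOf A)) {s : E → E'} (hs : ContDiff ℝ ∞ s) :
    ∃ f : E → E', ContDiff ℝ ∞ f ∧ (∀ g x, f (A g x) = A' g (f x)) ∧
      ∀ (Q : Type) [NormedAddCommGroup Q] [NormedSpace ℝ Q] (P : E' →ᵃ[ℝ] Q) (θ : E → Q),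
        (∀ g x, P (A' g⁻¹ (s (A g x))) = θ x) → ∀ x, P (f x) = θ x := by
  classical
  obtain ⟨χ, hχs, hχ, hχ0, hχ1⟩ := exists_weight (actOf_act A) (actOf_contDiff A) hPD hCC
  set P : G → E → E' := fun g x => A' g⁻¹ (s (A g x)) with hP
  have hPs : ∀ g, ContDiff ℝ ∞ (P g) := fun g =>
    (actOf_contDiff A' g⁻¹).comp (hs.comp (actOf_contDiff A g))
  have hPmul : ∀ g h x, P g (A h x) = A' h (P (g * h) x) := by
    intro g h x
    simp only [hP]
    have h1 : A (g * h) x = A g (A h x) := (actOf_act A).mul g h x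
    rw [h1]
    have h2 : A' g⁻¹ (s (A g (A h x))) = A' (h * (g * h)⁻¹) (s (A g (A h x))) := by
      congr 2; group
    rw [h2, map_mul]; rfl
  have hfin : ∀ x, (Function.support (fun g : G => χ (actOf A g x))).Finite :=
    fun x => finite_support hPD hχ x
  refine ⟨fun x => ∑ᶠ g : G, χ (actOf A g x) • P g x,
    contDiff_sum (actOf_contDiff A) hPD hχs hχ P hPs, ?_, ?_⟩
  · intro h x
    have h1 := affine_finsum' (hfin x) (hχ1 x) (A' h : E' →ᵃ[ℝ] E') (fun g => P g x)
    have h1' : A' h (∑ᶠ g : G, χ (actOf A g x) • P g x)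
        = ∑ᶠ g : G, χ (actOf A g x) • A' h (P g x) := h1
    show ∑ᶠ g : G, χ (actOf A g (A h x)) • P g (A h x) = A' h (∑ᶠ g : G, χ (actOf A g x) • P g x)
    rw [h1']
    rw [← finsum_comp_equiv (Equiv.mulRight h)
      (f := fun g : G => χ (actOf A g x) • A' h (P g x))]
    congr 1
    funext g
    simp only [Equiv.coe_mulRight]
    have h3 : actOf A g (A h x) = actOf A (g * h) x := ((actOf_act A).mul g h x).symm
    rw [h3, hPmul]
  · intro Q _ _ P0 θ hθ x
    show P0 (∑ᶠ g : G, χ (actOf A g x) • P g x) = θ x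
    rw [affine_finsum' (hfin x) (hχ1 x) P0 (fun g => P g x)]
    have h1 : ∀ g, P0 (P g x) = θ x := fun g => hθ g x
    simp only [h1]
    rw [← finsum_smul, hχ1, one_smul]

variable {Q Q' : Type} [NormedAddCommGroup Q] [NormedSpace ℝ Q] [FiniteDimensional ℝ Q]
  [NormedAddCommGroup Q'] [NormedSpace ℝ Q'] [FiniteDimensional ℝ Q']

/-- equivariant maps of the base spaces are onto -/
theorem base_surjective {A : G →* (E ≃ᵃ[ℝ] E)} {A' : G →* (E' ≃ᵃ[ℝ] E')}
    (hPD : PD (actOf A)) (hCC : CC (actOf A)) (hPD' : PD (actOf A')) (hCC' : CC (actOf A'))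
    {p : E →ᵃ[ℝ] Q} {p' : E' →ᵃ[ℝ] Q'} (hp' : Function.Surjective p')
    {ρ : G → Q → Q} (hρ : ∀ g x, p (A g x) = ρ g (p x))
    {ρ' : G → Q' → Q'} (hρ' : ∀ g x, p' (A' g x) = ρ' g (p' x))
    {ψ : Q → Q'} (hψ : ContDiff ℝ ∞ ψ) (hψe : ∀ g q, ψ (ρ g q) = ρ' g (ψ q)) :
    Function.Surjective ψ := by
  obtain ⟨σ, hσ⟩ := exists_section hp'
  obtain ⟨f, hf, hfe, hfQ⟩ := exists_equivariant (A' := A') hPD hCC
    (s := fun x => σ (ψ (p x))) ((aff_contDiff σ).comp (hψ.comp (aff_contDiff p)))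
  obtain ⟨k, hk, hke, -⟩ := exists_equivariant (A := A') (A' := A) hPD' hCC'
    (s := fun _ => (0 : E)) contDiff_const
  have h1 : ∀ x, p' (f x) = ψ (p x) := by
    refine hfQ Q' p' (fun x => ψ (p x)) fun g x => ?_
    rw [hρ', hσ, hρ, hψe]
    obtain ⟨z, hz⟩ := hp' (ψ (p x))
    rw [← hz, ← hρ', ← hρ']
    congr 1
    exact (actOf_act A').inv_left g z
  have h2 : Function.Surjective (fun y => f (k y)) :=
    equivariant_surjective hPD' hCC' (hf.comp hk) fun g y => by rw [hke, hfe]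
  intro q
  obtain ⟨y, rfl⟩ := hp' q
  obtain ⟨z, hz⟩ := h2 y
  exact ⟨p (k z), by rw [← h1]; exact congrArg p' hz⟩

end degree

end Pool.Agent.Run7.h816
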