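import Pool.Agent.Run7.h816.Poly
import Pool.Agent.Run7.h816.Degree

/-! Equivariant polynomial maps of the base spaces are local diffeomorphisms. -/

set_option autoImplicit false

open Set Filter Topology Metric MeasureTheory
open scoped ContDiff

namespace Pool.Agent.Run7.h816

section det

variable {Q : Type} [NormedAddCommGroup Q] [NormedSpace ℝ Q] [FiniteDimensional ℝ Q]

theorem poly_det {r : Q → Q} (hr : IsPoly r) : (fun q => (fderiv ℝ r q).det) ∈ polyFun Q := by
  classical
  let b := Module.finBasis ℝ Q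
  have hsm := hr.smooth
  have hent : ∀ i j, (fun q => LinearMap.toMatrix b b (fderiv ℝ r q : Q →ₗ[ℝ] Q) i j) ∈ polyFun Q := by
    intro i j
    have h1 := poly_deriv (hr (b.coord i)) (b j)
    have h2 : (fun q => LinearMap.toMatrix b b (fderiv ℝ r q : Q →ₗ[ℝ] Q) i j)
        = fun q => fderiv ℝ (fun x => b.coord i (r x)) q (b j) := by
      funext q
      have h3 : HasFDerivAt r (fderiv ℝ r q) q := (hsm.differentiable (by simp) q).hasFDerivAt
      have h4 : HasFDerivAt (fun x => b.coord i (r x))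
          ((LinearMap.toContinuousLinearMap (b.coord i)).comp (fderiv ℝ r q)) q :=
        (LinearMap.toContinuousLinearMap (b.coord i)).hasFDerivAt.comp q h3
      rw [h4.fderiv, LinearMap.toMatrix_apply]; rfl
    rw [h2]; exact h1
  let N : Matrix (Fin (Module.finrank ℝ Q)) (Fin (Module.finrank ℝ Q)) (polyFun Q) :=
    fun i j => ⟨_, hent i j⟩
  have h5 : (fun q => (fderiv ℝ r q).det) = ((N.det : polyFun Q) : Q → ℝ) := by
    funext q
    have h6 : (fderiv ℝ r q).det = LinearMap.det (fderiv ℝ r q : Q →ₗ[ℝ] Q) := rfl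
    rw [h6, ← LinearMap.det_toMatrix b]
    have h7 := RingHom.map_det ((Pi.evalRingHom (fun _ : Q => ℝ) q).comp (polyFun Q).val.toRingHom) N
    have h8 : ((N.det : polyFun Q) : Q → ℝ) q =
      ((Pi.evalRingHom (fun _ : Q => ℝ) q).comp (polyFun Q).val.toRingHom) N.det := rfl
    rw [h8, h7]
    rfl
  rw [h5]
  exact N.det.2

/-- a smooth surjection has a regular point -/
theorem exists_det_ne {r : Q → Q} (hr : ContDiff ℝ ∞ r) (hs : Function.Surjective r) :
    ∃ q, (fderiv ℝ r q).det ≠ 0 := by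
  by_contra hcon
  push Not at hcon
  borelize Q
  let μ : Measure Q := (Measure.addHaar : Measure Q)
  have h1 := addHaar_image_eq_zero_of_det_fderivWithin_eq_zero μ (f := r) (s := univ)
    (f' := fun q => fderiv ℝ r q)
    (fun q _ => ((hr.differentiable (by simp) q).hasFDerivAt).hasFDerivWithinAt)
    (fun q _ => hcon q)
  rw [image_univ, hs.range_eq] at h1
  have h2 : μ univ ≠ 0 := by
    exact (isOpen_univ.measure_pos μ univ_nonempty).ne'
  exact h2 h1

/-- the derivative at a point of a map with nonzero Jacobian -/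
theorem bijective_of_det {L : Q →L[ℝ] Q} (h : L.det ≠ 0) : Function.Bijective L := by
  have h1 : IsUnit (LinearMap.det (L : Q →ₗ[ℝ] Q)) := isUnit_iff_ne_zero.2 h
  have h2 : IsUnit (L : Q →ₗ[ℝ] Q) := (LinearMap.isUnit_iff_isUnit_det _).2 h1
  exact (Module.End.isUnit_iff _).1 h2

end det

section self

variable {G E E' Q Q' : Type} [Group G] [NormedAddCommGroup E] [NormedSpace ℝ E]
  [FiniteDimensional ℝ E] [NormedAddCommGroup E'] [NormedSpace ℝ E'] [FiniteDimensional ℝ E']
  [NormedAddCommGroup Q] [NormedSpace ℝ Q] [FiniteDimensional ℝ Q]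
  [NormedAddCommGroup Q'] [NormedSpace ℝ Q'] [FiniteDimensional ℝ Q']

/-- the induced action on the base is an action by affine maps -/
theorem base_act {a : G → E → E} (ha : Crys a) {p : E → Q} {ρ : G → Q → Q}
    (hp : AffFib a p ρ) : IsAct ρ where
  one := by
    intro q
    obtain ⟨x, rfl⟩ := hp.surj q
    rw [← hp.equiv, ha.act.one]
  mul := by
    intro g h q
    obtain ⟨x, rfl⟩ := hp.surj q
    rw [← hp.equiv, ← hp.equiv, ← hp.equiv, ha.act.mul]

theorem base_aff {a : G → E → E} (ha : Crys a) {p : E → Q} {ρ : G → Q → Q}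
    (hp : AffFib a p ρ) (g : G) : IsAff (ρ g) := by
  obtain ⟨P, hP⟩ := hp.aff.exists_map
  have hPf : (P : E → Q) = p := funext hP
  have hs : Function.Surjective P := by rw [hPf]; exact hp.surj
  obtain ⟨σ, hσ⟩ := exists_section hs
  have hσa : IsAff (σ : Q → E) := ⟨σ.linear, σ 0, fun x => aff_apply σ x⟩
  have h1 : ρ g = fun q => p (a g (σ q)) := by
    funext q
    rw [hp.equiv, ← hP, hσ]
  rw [h1]
  exact hp.aff.comp ((ha.aff g).comp hσa)

/-- equivariant polynomial self-maps of the base have constant nonzero Jacobian -/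
theorem self_poly {a : G → E → E} (ha : Crys a) {p : E → Q} {ρ : G → Q → Q}
    (hp : AffFib a p ρ) {r : Q → Q} (hr : IsPoly r) (hre : ∀ g q, r (ρ g q) = ρ g (r q)) (q : Q) :
    (fderiv ℝ r q).det ≠ 0 := by
  have hact := base_act ha hp
  have haff := base_aff ha hp
  have hsm := hr.smooth
  -- surjectivity
  have hsurj : Function.Surjective r := by
    obtain ⟨A, hA⟩ := ha.exists_rep
    subst hA
    obtain ⟨P, hP⟩ := hp.aff.exists_map
    have hPf : (P : E → Q) = p := funext hP
    subst hPf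
    exact base_surjective (p := P) (p' := P) ha.pd ha.cc ha.pd ha.cc hp.surj hp.equiv hp.equiv hsm
      hre
  obtain ⟨q₀, hq₀⟩ := exists_det_ne hsm hsurj
  -- invariance
  set J : Q → ℝ := fun q => (fderiv ℝ r q).det with hJ
  have hinv : ∀ g q, J (ρ g q) = J q := by
    intro g q
    obtain ⟨L, c, hL⟩ := haff g
    have hd : ∀ x, HasFDerivAt (ρ g) (LinearMap.toContinuousLinearMap L) x := by
      intro x
      have h1 : ρ g = fun x => LinearMap.toContinuousLinearMap L x + c := by funext x; exact hL x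
      rw [h1]; exact (LinearMap.toContinuousLinearMap L).hasFDerivAt.add_const c
    have h1 : HasFDerivAt r (fderiv ℝ r q) q := (hsm.differentiable (by simp) q).hasFDerivAt
    have h2 : HasFDerivAt r (fderiv ℝ r (ρ g q)) (ρ g q) :=
      (hsm.differentiable (by simp) _).hasFDerivAt
    have h3 := h2.comp q (hd q)
    have h4 := (hd (r q)).comp q h1
    have h5 : r ∘ ρ g = ρ g ∘ r := by funext x; exact hre g x
    rw [h5] at h3
    have h6 := h3.unique h4
    have h7 : (fderiv ℝ r (ρ g q) : Q →ₗ[ℝ] Q).comp L = L.comp (fderiv ℝ r q : Q →ₗ[ℝ] Q) := by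
      ext x
      exact congrArg (fun M : Q →L[ℝ] Q => M x) h6
    have h8 := congrArg LinearMap.det h7
    rw [LinearMap.det_comp, LinearMap.det_comp, mul_comm] at h8
    have hLdet : LinearMap.det L ≠ 0 := by
      obtain ⟨L', c', hL'⟩ := haff g⁻¹
      have h9 : L'.comp L = LinearMap.id := by
        ext x
        have e1 := hact.inv_left g x
        have e2 := hact.inv_left g 0
        rw [hL, hL', map_add] at e1
        rw [hL, hL', map_add, map_zero, map_zero, zero_add] at e2
        rw [add_assoc, e2, add_zero] at e1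
        exact e1
      intro h0
      have h10 := congrArg LinearMap.det h9
      rw [LinearMap.det_comp, h0, mul_zero, LinearMap.det_id] at h10
      exact zero_ne_one h10
    exact mul_left_cancel₀ hLdet h8
  have hpoly : J ∈ polyFun Q := poly_det hr
  obtain ⟨K, hK, hKc⟩ := ha.cc
  have hcont : Continuous J := (poly_smooth hpoly).continuous
  have hpc : Continuous p := hp.aff.smooth.continuous
  obtain ⟨C, hC⟩ := ((hK.image hpc).image hcont).isBounded.exists_norm_le
  have hbd : ∀ q, |J q| ≤ C := by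
    intro q
    obtain ⟨x, rfl⟩ := hp.surj q
    obtain ⟨g, hg⟩ := hKc x
    rw [← hinv g, ← hp.equiv]
    exact hC _ ⟨_, ⟨_, hg, rfl⟩, rfl⟩
  have h1 : J q = J q₀ := poly_bounded hpoly hbd q q₀
  show J q ≠ 0
  rw [h1]; exact hq₀

/-- two equivariant polynomial maps in opposite directions are local diffeomorphisms -/
theorem two_sided {a : G → E → E} (ha : Crys a) {a' : G → E' → E'} (ha' : Crys a')
    {p : E → Q} {ρ : G → Q → Q} (hp : AffFib a p ρ) {p' : E' → Q'} {ρ' : G → Q' → Q'}
    (hp' : AffFib a' p' ρ') {ψ : Q → Q'} (hψ : IsPoly ψ) (hψe : ∀ g q, ψ (ρ g q) = ρ' g (ψ q))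
    {χ : Q' → Q} (hχ : IsPoly χ) (hχe : ∀ g q, χ (ρ' g q) = ρ g (χ q)) (q : Q) :
    Function.Bijective (fderiv ℝ ψ q) := by
  have h1 : ∀ q, Function.Bijective (fderiv ℝ (fun x => χ (ψ x)) q) := fun q =>
    bijective_of_det (self_poly ha hp (hχ.comp hψ) (fun g q => by rw [hψe, hχe]) q)
  have h2 : ∀ q, Function.Bijective (fderiv ℝ (fun x => ψ (χ x)) q) := fun q =>
    bijective_of_det (self_poly ha' hp' (hψ.comp hχ) (fun g q => by rw [hχe, hψe]) q)
  have dψ : ∀ q, HasFDerivAt ψ (fderiv ℝ ψ q) q := fun q =>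
    (hψ.smooth.differentiable (by simp) q).hasFDerivAt
  have dχ : ∀ q, HasFDerivAt χ (fderiv ℝ χ q) q := fun q =>
    (hχ.smooth.differentiable (by simp) q).hasFDerivAt
  have i1 : ∀ q, Function.Injective (fderiv ℝ ψ q) := by
    intro q
    have h3 : fderiv ℝ (fun x => χ (ψ x)) q = (fderiv ℝ χ (ψ q)).comp (fderiv ℝ ψ q) :=
      ((dχ (ψ q)).comp q (dψ q)).fderiv
    have h4 := (h1 q).1
    rw [h3] at h4
    intro u v huv
    apply h4
    show fderiv ℝ χ (ψ q) (fderiv ℝ ψ q u) = fderiv ℝ χ (ψ q) (fderiv ℝ ψ q v)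
    rw [huv]
  have i2 : ∀ q, Function.Injective (fderiv ℝ χ q) := by
    intro q
    have h3 : fderiv ℝ (fun x => ψ (χ x)) q = (fderiv ℝ ψ (χ q)).comp (fderiv ℝ χ q) :=
      ((dψ (χ q)).comp q (dχ q)).fderiv
    have h4 := (h2 q).1
    rw [h3] at h4
    intro u v huv
    apply h4
    show fderiv ℝ ψ (χ q) (fderiv ℝ χ q u) = fderiv ℝ ψ (χ q) (fderiv ℝ χ q v)
    rw [huv]
  have hle1 := LinearMap.finrank_le_finrank_of_injective (f := (fderiv ℝ ψ q : Q →ₗ[ℝ] Q')) (i1 q)
  have hle2 := LinearMap.finrank_le_finrank_of_injective (f := (fderiv ℝ χ (ψ q) : Q' →ₗ[ℝ] Q))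
    (i2 (ψ q))
  have heq : Module.finrank ℝ Q = Module.finrank ℝ Q' := le_antisymm hle1 hle2
  exact ⟨i1 q, (LinearMap.injective_iff_surjective_of_finrank_eq_finrank heq).1 (i1 q)⟩

end self

end Pool.Agent.Run7.h816
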