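import Pool.Agent.Run7.h816.DefsTwist
import Pool.Agent.Run7.h816.PolyRigid

/-! The theorems with bounded errors. -/

set_option autoImplicit false

open Set Filter Topology Metric
open scoped ContDiff

namespace Pool.Agent.Run7.h816

section twist

variable {G E E' Q Q' : Type} [Group G] [NormedAddCommGroup E] [NormedSpace ℝ E]
  [FiniteDimensional ℝ E] [NormedAddCommGroup E'] [NormedSpace ℝ E'] [FiniteDimensional ℝ E']
  [NormedAddCommGroup Q] [NormedSpace ℝ Q] [FiniteDimensional ℝ Q]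
  [NormedAddCommGroup Q'] [NormedSpace ℝ Q'] [FiniteDimensional ℝ Q']

theorem poly_twist (hdim : Module.finrank ℝ E = Module.finrank ℝ E')
    {a : G → E → E} (ha : AffCrystal a) {a' : G → E' → E'} (ha' : AffCrystal a')
    {p : E → Q} {ρ : G → Q → Q} (hp : AffFib a p ρ)
    {p' : E' → Q'} {ρ' : G → Q' → Q'} (hp' : AffFib a' p' ρ')
    {T : Subgroup G} (hTn : T.Normal) (hT : TransAlong a p T) (hT' : TransAlong a' p' T)
    (hrank : Module.finrank ℝ E ≤ Module.finrank ℝ Q + Module.finrank ℝ (transSpan a T) + 1)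
    {ψ : Q → Q'} (hψ : IsPoly ψ) (hψb : BddTwist ρ ρ' ψ)
    {χ : Q' → Q} (hχ : IsPoly χ) (hχb : BddTwist ρ' ρ χ) :
    ∃ (f : E ≃ E') (ψ' : Q → Q'), EquivDiffeo a a' f ∧ IsPoly ψ' ∧ ∀ x, p' (f x) = ψ' (p x) := by
  have h1 := base_act ha.crys hp
  have h2 := base_aff ha.crys hp
  have h1' := base_act ha'.crys hp'
  have h2' := base_aff ha'.crys hp'
  obtain ⟨ψ', hψ', hψe⟩ := poly_fix h1 h2 h1' h2' hψ hψb
  obtain ⟨χ', hχ', hχe⟩ := poly_fix h1' h2' h1 h2 hχ hχb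
  obtain ⟨f, hf, hfp⟩ := crystal_rigid hdim ha ha' hp hp' hTn hT hT' hrank hψ'.smooth
    (two_sided ha.crys ha'.crys hp hp' hψ' hψe hχ' hχe) hψe
  exact ⟨f, ψ', hf, hψ', hfp⟩

theorem aff_twist (hdim : Module.finrank ℝ E = Module.finrank ℝ E')
    {a : G → E → E} (ha : AffCrystal a) {a' : G → E' → E'} (ha' : AffCrystal a')
    {p' : E' → Q'} {ρ' : G → Q' → Q'} (hp' : AffFib a' p' ρ')
    {T : Subgroup G} (hTn : T.Normal) (hT : TransSub a T) (hT' : TransAlong a' p' T)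
    (hrank : Module.finrank ℝ E ≤ Module.finrank ℝ Q' + Module.finrank ℝ (transSpan a T) + 1)
    {X : E → Q'} (hX : IsAff X) (hXb : BddTwist a ρ' X) :
    ∃ (f : E ≃ E'), EquivDiffeo a a' f ∧ IsAff (fun x => p' (f x)) := by
  have h1' := base_act ha'.crys hp'
  have h2' := base_aff ha'.crys hp'
  obtain ⟨Ξ, hΞ, hΞe⟩ := aff_fix ha.act ha.aff h1' h2' hX hXb
  have hsurj : Function.Surjective Ξ := by
    obtain ⟨A, hA⟩ := ha.exists_rep
    obtain ⟨A', hA'⟩ := ha'.exists_rep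
    subst hA
    subst hA'
    obtain ⟨P', hP'⟩ := hp'.aff.exists_map
    have hPf' : (P' : E' → Q') = p' := funext hP'
    subst hPf'
    exact base_surjective (p := AffineMap.id ℝ E) (p' := P') (ρ := fun g x => A g x)
      ha.pd ha.cc ha'.pd ha'.cc hp'.surj (fun g x => rfl) hp'.equiv hΞ.smooth hΞe
  have hfib : AffFib a Ξ ρ' := ⟨hΞ, hsurj, hΞe⟩
  have hTΞ : TransAlong a Ξ T := by
    intro t ht
    obtain ⟨v, hv⟩ := hT t ht
    refine ⟨v, fun x => ⟨hv x, ?_⟩⟩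
    rw [← hv, hΞe]
    obtain ⟨y, hy⟩ := hp'.surj (Ξ x)
    obtain ⟨w, hw⟩ := hT' t ht
    rw [← hy, ← hp'.equiv, (hw y).1, (hw y).2]
  have hd : ∀ q : Q', Function.Bijective (fderiv ℝ (fun q : Q' => q) q) := by
    intro q
    rw [fderiv_fun_id]
    exact Function.bijective_id
  obtain ⟨f, hf, hfp⟩ := crystal_rigid hdim ha ha' hfib hp' hTn hTΞ hT' hrank
    (ψ := fun q => q) contDiff_id hd (fun g q => rfl)
  refine ⟨f, hf, ?_⟩
  have : (fun x => p' (f x)) = Ξ := by funext x; exact hfp x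
  rw [this]; exact hΞ

end twist

end Pool.Agent.Run7.h816
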