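import Pool.Agent.Run7.h816.DefsVol
import Pool.Agent.Run7.h816.Twist

/-! One equivariant polynomial map between base actions with the same volume factors. -/

set_option autoImplicit false

open Set Filter Topology Metric
open scoped ContDiff

namespace Pool.Agent.Run7.h816

section vol

variable {Q Q' : Type} [NormedAddCommGroup Q] [NormedSpace ℝ Q] [FiniteDimensional ℝ Q]
  [NormedAddCommGroup Q'] [NormedSpace ℝ Q'] [FiniteDimensional ℝ Q']

theorem hasFDerivAt_aff {f : Q → Q'} {L : Q →ₗ[ℝ] Q'} {c : Q'} (h : ∀ x, f x = L x + c) (x : Q) :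
    HasFDerivAt f (LinearMap.toContinuousLinearMap L) x := by
  have h1 : f = fun x => LinearMap.toContinuousLinearMap L x + c := by funext x; exact h x
  rw [h1]; exact (LinearMap.toContinuousLinearMap L).hasFDerivAt.add_const c

theorem volFactor_eq {f : Q → Q} {L : Q →ₗ[ℝ] Q} {c : Q} (h : ∀ x, f x = L x + c) :
    volFactor f = |LinearMap.det L| := by
  unfold volFactor
  rw [(hasFDerivAt_aff h 0).fderiv]; rfl

/-- linear part of an action map -/
theorem det_linear_ne {G : Type} [Group G] {ρ : G → Q → Q} (hact : IsAct ρ)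
    (haff : ∀ g, IsAff (ρ g)) {g : G} {L : Q →ₗ[ℝ] Q} {c : Q} (hL : ∀ x, ρ g x = L x + c) :
    LinearMap.det L ≠ 0 := by
  obtain ⟨L', c', hL'⟩ := haff g⁻¹
  have h9 : L'.comp L = LinearMap.id := by
    ext x
    have e1 := hact.inv_left g x
    have e2 := hact.inv_left g 0
    rw [hL, hL', map_add] at e1
    rw [hL, hL', map_add, map_zero, map_zero, zero_add] at e2
    rw [add_assoc, e2, add_zero] at e1
    exact e1
  intro h0
  have h10 := congrArg LinearMap.det h9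
  rw [LinearMap.det_comp, h0, mul_zero, LinearMap.det_id] at h10
  exact zero_ne_one h10

/-- the Jacobian of an equivariant polynomial map -/
theorem onesided {G : Type} [Group G] {ρ : G → Q → Q} (hact : IsAct ρ)
    (haff : ∀ g, IsAff (ρ g)) {ρ' : G → Q' → Q'} (haff' : ∀ g, IsAff (ρ' g))
    {K : Set Q} (hK : IsCompact K) (hKc : ∀ q, ∃ g, ρ g q ∈ K)
    (hdim : Module.finrank ℝ Q = Module.finrank ℝ Q')
    (hvol : ∀ g, volFactor (ρ g) = volFactor (ρ' g))
    {ψ : Q → Q'} (hψ : IsPoly ψ) (hψe : ∀ g q, ψ (ρ g q) = ρ' g (ψ q))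
    (hsurj : Function.Surjective ψ) (q : Q) : Function.Bijective (fderiv ℝ ψ q) := by
  have hsm := hψ.smooth
  let ι : Q' ≃ₗ[ℝ] Q := LinearEquiv.ofFinrankEq Q' Q hdim.symm
  let ιc : Q' →L[ℝ] Q := LinearMap.toContinuousLinearMap (ι : Q' →ₗ[ℝ] Q)
  have hιp : IsPoly (fun x => ι (ψ x)) := ((isAff_linear (ι : Q' →ₗ[ℝ] Q)).isPoly).comp hψ
  have hιs := hιp.smooth
  have hder : ∀ x, fderiv ℝ (fun x => ι (ψ x)) x = ιc.comp (fderiv ℝ ψ x) := by
    intro x
    have h1 : HasFDerivAt ψ (fderiv ℝ ψ x) x := (hsm.differentiable (by simp) x).hasFDerivAt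
    exact (ιc.hasFDerivAt.comp x h1).fderiv
  set J : Q → ℝ := fun x => (fderiv ℝ (fun x => ι (ψ x)) x).det with hJ
  have hJp : J ∈ polyFun Q := poly_det hιp
  obtain ⟨q₀, hq₀⟩ := exists_det_ne hιs (ι.surjective.comp hsurj)
  have habs : ∀ g x, |J (ρ g x)| = |J x| := by
    intro g x
    obtain ⟨L, c, hL⟩ := haff g
    obtain ⟨L', c', hL'⟩ := haff' g
    have h1 : HasFDerivAt ψ (fderiv ℝ ψ x) x := (hsm.differentiable (by simp) x).hasFDerivAt
    have h2 : HasFDerivAt ψ (fderiv ℝ ψ (ρ g x)) (ρ g x) :=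
      (hsm.differentiable (by simp) _).hasFDerivAt
    have h3 := h2.comp x (hasFDerivAt_aff hL x)
    have h4 := (hasFDerivAt_aff hL' (ψ x)).comp x h1
    have h5 : ψ ∘ ρ g = ρ' g ∘ ψ := by funext x; exact hψe g x
    rw [h5] at h3
    have h6 := h3.unique h4
    -- conjugate the linear part of `ρ' g`
    have h7 : ((fderiv ℝ (fun x => ι (ψ x)) (ρ g x) : Q →L[ℝ] Q) : Q →ₗ[ℝ] Q).comp L
        = ((ι : Q' →ₗ[ℝ] Q).comp (L'.comp (ι.symm : Q →ₗ[ℝ] Q'))).comp
          ((fderiv ℝ (fun x => ι (ψ x)) x : Q →L[ℝ] Q) : Q →ₗ[ℝ] Q) := by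
      ext v
      rw [hder, hder]
      have h8 := congrArg (fun M : Q →L[ℝ] Q' => ι (M v)) h6
      simp only [ContinuousLinearMap.comp_apply] at h8
      show ι (fderiv ℝ ψ (ρ g x) (L v)) = ι (L' (ι.symm (ι (fderiv ℝ ψ x v))))
      rw [ι.symm_apply_apply]
      exact h8
    have h8 := congrArg LinearMap.det h7
    rw [LinearMap.det_comp, LinearMap.det_comp] at h8
    have h9 : LinearMap.det ((ι : Q' →ₗ[ℝ] Q).comp (L'.comp (ι.symm : Q →ₗ[ℝ] Q')))
        = LinearMap.det L' := by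
      rw [← LinearMap.comp_assoc]; exact LinearMap.det_conj L' ι
    rw [h9] at h8
    have h10 := hvol g
    rw [volFactor_eq hL, volFactor_eq hL'] at h10
    have h11 : |J (ρ g x)| * |LinearMap.det L| = |LinearMap.det L'| * |J x| := by
      rw [← abs_mul, ← abs_mul]
      exact congrArg abs h8
    rw [h10, mul_comm] at h11
    exact mul_left_cancel₀ (by rw [← h10]; exact abs_ne_zero.2 (det_linear_ne hact haff hL)) h11
  have hbd : ∃ C, ∀ x, |J x| ≤ C := by
    obtain ⟨C, hC⟩ := (hK.image (poly_smooth hJp).continuous).isBounded.exists_norm_le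
    refine ⟨C, fun x => ?_⟩
    obtain ⟨g, hg⟩ := hKc x
    rw [← habs g]
    exact hC _ (mem_image_of_mem _ hg)
  obtain ⟨C, hC⟩ := hbd
  have h1 : J q = J q₀ := poly_bounded hJp hC q q₀
  have h2 : J q ≠ 0 := by rw [h1]; exact hq₀
  have h3 := bijective_of_det h2
  rw [hder] at h3
  have h4 : Function.Injective (fderiv ℝ ψ q) := by
    intro u v huv
    apply h3.1
    show ιc (fderiv ℝ ψ q u) = ιc (fderiv ℝ ψ q v)
    rw [huv]
  exact ⟨h4, (LinearMap.injective_iff_surjective_of_finrank_eq_finrank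
    (f := (fderiv ℝ ψ q : Q →ₗ[ℝ] Q')) hdim).1 h4⟩

end vol

section main

variable {G E E' Q Q' : Type} [Group G] [NormedAddCommGroup E] [NormedSpace ℝ E]
  [FiniteDimensional ℝ E] [NormedAddCommGroup E'] [NormedSpace ℝ E'] [FiniteDimensional ℝ E']
  [NormedAddCommGroup Q] [NormedSpace ℝ Q] [FiniteDimensional ℝ Q]
  [NormedAddCommGroup Q'] [NormedSpace ℝ Q'] [FiniteDimensional ℝ Q']

theorem vol_twist (hdim : Module.finrank ℝ E = Module.finrank ℝ E')
    {a : G → E → E} (ha : AffCrystal a) {a' : G → E' → E'} (ha' : AffCrystal a')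
    {p : E → Q} {ρ : G → Q → Q} (hp : AffFib a p ρ)
    {p' : E' → Q'} {ρ' : G → Q' → Q'} (hp' : AffFib a' p' ρ')
    {T : Subgroup G} (hTn : T.Normal) (hT : TransAlong a p T) (hT' : TransAlong a' p' T)
    (hrank : Module.finrank ℝ E ≤ Module.finrank ℝ Q + Module.finrank ℝ (transSpan a T) + 1)
    (hdimQ : Module.finrank ℝ Q = Module.finrank ℝ Q')
    (hvol : ∀ g, volFactor (ρ g) = volFactor (ρ' g))
    {ψ : Q → Q'} (hψ : IsPoly ψ) (hψb : BddTwist ρ ρ' ψ) :
    ∃ (f : E ≃ E') (ψ' : Q → Q'), EquivDiffeo a a' f ∧ IsPoly ψ' ∧ ∀ x, p' (f x) = ψ' (p x) := by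
  have h1 := base_act ha.crys hp
  have h2 := base_aff ha.crys hp
  have h1' := base_act ha'.crys hp'
  have h2' := base_aff ha'.crys hp'
  obtain ⟨ψ', hψ', hψe⟩ := poly_fix h1 h2 h1' h2' hψ hψb
  have hsurj : Function.Surjective ψ' := by
    obtain ⟨A, hA⟩ := ha.exists_rep
    obtain ⟨A', hA'⟩ := ha'.exists_rep
    subst hA
    subst hA'
    obtain ⟨P, hP⟩ := hp.aff.exists_map
    have hPf : (P : E → Q) = p := funext hP
    subst hPf
    obtain ⟨P', hP'⟩ := hp'.aff.exists_map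
    have hPf' : (P' : E' → Q') = p' := funext hP'
    subst hPf'
    exact base_surjective (p := P) (p' := P') ha.pd ha.cc ha'.pd ha'.cc hp'.surj hp.equiv hp'.equiv
      hψ'.smooth hψe
  obtain ⟨K, hK, hKc⟩ := ha.cocompact
  have hd := onesided h1 h2 h2' (hK.image hp.aff.smooth.continuous) (fun q => by
    obtain ⟨x, rfl⟩ := hp.surj q
    obtain ⟨g, hg⟩ := hKc x
    exact ⟨g, by rw [← hp.equiv]; exact mem_image_of_mem _ hg⟩) hdimQ hvol hψ' hψe hsurj
  obtain ⟨f, hf, hfp⟩ := crystal_rigid hdim ha ha' hp hp' hTn hT hT' hrank hψ'.smooth hd hψe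
  exact ⟨f, ψ', hf, hψ', hfp⟩

end main

end Pool.Agent.Run7.h816
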