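import Pool.Agent.Run7.h816.DefsDeg
import Pool.Agent.Run7.h816.Volume

/-! One polynomial map of degree `d` with bounded twists. -/

set_option autoImplicit false

open Set Filter Topology Metric
open scoped ContDiff

namespace Pool.Agent.Run7.h816

section deg

variable {G E E' Q Q' : Type} [Group G] [NormedAddCommGroup E] [NormedSpace ℝ E]
  [FiniteDimensional ℝ E] [NormedAddCommGroup E'] [NormedSpace ℝ E'] [FiniteDimensional ℝ E']
  [NormedAddCommGroup Q] [NormedSpace ℝ Q] [FiniteDimensional ℝ Q]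
  [NormedAddCommGroup Q'] [NormedSpace ℝ Q'] [FiniteDimensional ℝ Q']

theorem span_affS : Submodule.span ℝ {u : Q → ℝ | IsAff u} = affS Q :=
  Submodule.span_eq (affS Q)

theorem polyDeg_iff {d : ℕ} {f : Q → Q'} : PolyDeg d f ↔ f ∈ polyMaps Q Q' d := by
  unfold PolyDeg
  rw [span_affS]; rfl

theorem affine_bijective {ψ : Q → Q'} (hψ : IsAff ψ) (hs : Function.Surjective ψ)
    (hdim : Module.finrank ℝ Q = Module.finrank ℝ Q') (q : Q) :
    Function.Bijective (fderiv ℝ ψ q) := by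
  obtain ⟨L, c, hL⟩ := hψ
  have h1 : Function.Surjective L := by
    intro y
    obtain ⟨x, hx⟩ := hs (y + c)
    rw [hL] at hx
    exact ⟨x, add_right_cancel hx⟩
  have h2 : Function.Injective L :=
    (LinearMap.injective_iff_surjective_of_finrank_eq_finrank hdim).2 h1
  rw [(hasFDerivAt_aff hL q).fderiv]
  exact ⟨h2, h1⟩

theorem deg_twist (hdim : Module.finrank ℝ E = Module.finrank ℝ E')
    {a : G → E → E} (ha : AffCrystal a) {a' : G → E' → E'} (ha' : AffCrystal a')
    {p : E → Q} {ρ : G → Q → Q} (hp : AffFib a p ρ)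
    {p' : E' → Q'} {ρ' : G → Q' → Q'} (hp' : AffFib a' p' ρ')
    {T : Subgroup G} (hTn : T.Normal) (hT : TransAlong a p T) (hT' : TransAlong a' p' T)
    (hrank : Module.finrank ℝ E ≤ Module.finrank ℝ Q + Module.finrank ℝ (transSpan a T) + 1)
    (hdimQ : Module.finrank ℝ Q = Module.finrank ℝ Q') {d : ℕ}
    (hvol : d ≤ 1 ∨ ∀ g, volFactor (ρ g) = volFactor (ρ' g))
    {ψ : Q → Q'} (hψ : PolyDeg d ψ) (hψb : BddTwist ρ ρ' ψ) :
    ∃ (f : E ≃ E') (ψ' : Q → Q'), EquivDiffeo a a' f ∧ PolyDeg d ψ' ∧ ∀ x, p' (f x) = ψ' (p x) := by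
  have h1 := base_act ha.crys hp
  have h2 := base_aff ha.crys hp
  have h1' := base_act ha'.crys hp'
  have h2' := base_aff ha'.crys hp'
  obtain ⟨ψ', hψ', hψe⟩ := poly_fix_degree h1 h2 h1' h2' (polyDeg_iff.1 hψ) hψb
  have hpoly : IsPoly ψ' := polyMaps_poly hψ'
  have hsurj : Function.Surjective ψ' := by
    obtain ⟨A, hA⟩ := ha.exists_rep
    obtain ⟨A', hA'⟩ := ha'.exists_rep
    subst hA
    subst hA'
    obtain ⟨P, hP⟩ := hp.aff.exists_map
    have hPf : (P : E → Q) = p := funext hP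
    subst hPf
    obtain ⟨P', hP'⟩ := hp'.aff.exists_map
    have hPf' : (P' : E' → Q') = p' := funext hP'
    subst hPf'
    exact base_surjective (p := P) (p' := P') ha.pd ha.cc ha'.pd ha'.cc hp'.surj hp.equiv hp'.equiv
      hpoly.smooth hψe
  have hd : ∀ q, Function.Bijective (fderiv ℝ ψ' q) := by
    rcases hvol with hd | hvol
    · have h3 : ψ' ∈ polyMaps Q Q' 1 := fun ℓ => pow_le_pow_right' one_le_affS hd (hψ' ℓ)
      exact affine_bijective (isAff_of_mem h3) hsurj hdimQ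
    · obtain ⟨K, hK, hKc⟩ := ha.cocompact
      exact onesided h1 h2 h2' (hK.image hp.aff.smooth.continuous) (fun q => by
        obtain ⟨x, rfl⟩ := hp.surj q
        obtain ⟨g, hg⟩ := hKc x
        exact ⟨g, by rw [← hp.equiv]; exact mem_image_of_mem _ hg⟩) hdimQ hvol hpoly hψe hsurj
  obtain ⟨f, hf, hfp⟩ := crystal_rigid hdim ha ha' hp hp' hTn hT hT' hrank hpoly.smooth hd hψe
  exact ⟨f, ψ', hf, polyDeg_iff.2 hψ', hfp⟩

end deg

end Pool.Agent.Run7.h816
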