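import Pool.Agent.Run7.h816.FibreCC

/-! Rigidity for affine fibrations whose fibres are covered by a normal subgroup. -/

set_option autoImplicit false

open Set Filter Topology Metric
open scoped ContDiff

namespace Pool.Agent.Run7.h816

section fib

variable {G E Q : Type} [Group G] [NormedAddCommGroup E] [NormedSpace ℝ E] [FiniteDimensional ℝ E]
  [NormedAddCommGroup Q] [NormedSpace ℝ Q] [FiniteDimensional ℝ Q]

theorem fib_mem {a : G → E → E} {N : Subgroup G} {P : E →ᵃ[ℝ] Q}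
    (hN : ∀ n ∈ N, ∀ x, P (a n x) = P x) (x₀ : E) (n : N) (w : LinearMap.ker P.linear) :
    a n (x₀ + w) - x₀ ∈ LinearMap.ker P.linear := by
  rw [LinearMap.mem_ker, ← aff_sub, hN n n.2, aff_add, LinearMap.mem_ker.1 w.2, add_zero, sub_self]

/-- the action of `N` on the fibre through `x₀` -/
def fibAct (a : G → E → E) (N : Subgroup G) (P : E →ᵃ[ℝ] Q)
    (hN : ∀ n ∈ N, ∀ x, P (a n x) = P x) (x₀ : E) (n : N) (w : LinearMap.ker P.linear) :
    LinearMap.ker P.linear := ⟨a n (x₀ + w) - x₀, fib_mem hN x₀ n w⟩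

theorem fib_embed (P : E →ᵃ[ℝ] Q) (x₀ : E) :
    IsClosedEmbedding (fun w : LinearMap.ker P.linear => x₀ + (w : E)) := by
  have h1 : IsClosedEmbedding (Subtype.val : LinearMap.ker P.linear → E) :=
    (Submodule.closed_of_finiteDimensional (LinearMap.ker P.linear)).isClosedEmbedding_subtypeVal
  exact (Homeomorph.addLeft x₀).isClosedEmbedding.comp h1

theorem fibAct_lin {a : G → E → E} {N : Subgroup G} {P : E →ᵃ[ℝ] Q}
    (hN : ∀ n ∈ N, ∀ x, P (a n x) = P x) {n : N} {L : E →ₗ[ℝ] E} {c : E}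
    (hL : ∀ x, a n x = L x + c) (x : E) : P.linear (L x) = P.linear x := by
  have h1 := hN n n.2 x
  have h2 := hN n n.2 0
  rw [hL, aff_apply, map_add] at h1
  rw [hL, map_zero, zero_add, aff_apply] at h2
  rw [aff_apply P x] at h1
  have h3 : P.linear c = 0 := by simpa using h2
  rw [h3, add_zero] at h1
  exact add_right_cancel h1

theorem fibAct_crys {a : G → E → E} (hact : IsAct a) (haff : ∀ g, IsAff (a g)) (hPD : PD a)
    {N : Subgroup G} {P : E →ᵃ[ℝ] Q} (hN : ∀ n ∈ N, ∀ x, P (a n x) = P x) (x₀ : E)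
    {K : Set E} (hK : IsCompact K) (hKc : ∀ x, P x = P x₀ → ∃ n ∈ N, a n x ∈ K) :
    Crys (fibAct a N P hN x₀) where
  act := by
    constructor
    · intro w
      apply Subtype.ext
      show a ((1 : N) : G) (x₀ + w) - x₀ = w
      rw [Subgroup.coe_one, hact.one]; abel
    · intro g h w
      apply Subtype.ext
      show a ((g * h : N) : G) (x₀ + w) - x₀ = a g (x₀ + (a h (x₀ + w) - x₀)) - x₀
      rw [Subgroup.coe_mul, hact.mul, add_sub_cancel]
  aff := by
    intro n
    obtain ⟨L, c, hL⟩ := haff n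
    have hW : ∀ w ∈ LinearMap.ker P.linear, L w ∈ LinearMap.ker P.linear := by
      intro w hw
      rw [LinearMap.mem_ker, fibAct_lin hN hL, LinearMap.mem_ker.1 hw]
    refine ⟨L.restrict hW, fibAct a N P hN x₀ n 0, fun w => ?_⟩
    apply Subtype.ext
    show a n (x₀ + w) - x₀ = L w + (a n (x₀ + ((0 : LinearMap.ker P.linear) : E)) - x₀)
    rw [hL, hL, map_add, Submodule.coe_zero, add_zero]; abel
  pd := by
    intro C hC
    have hC2 : IsCompact ((fun w : LinearMap.ker P.linear => x₀ + (w : E)) '' C) :=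
      hC.image (fib_embed P x₀).continuous
    refine ((hPD _ hC2).preimage (f := (Subtype.val : N → G)) Subtype.val_injective.injOn).subset ?_
    rintro n ⟨w, hw, hw'⟩
    refine ⟨x₀ + w, mem_image_of_mem _ hw, fibAct a N P hN x₀ n w, hw', ?_⟩
    show x₀ + (a n (x₀ + w) - x₀) = a n (x₀ + w)
    abel
  cc := by
    refine ⟨(fun w : LinearMap.ker P.linear => x₀ + (w : E)) ⁻¹' K,
      (fib_embed P x₀).isCompact_preimage hK, fun w => ?_⟩
    obtain ⟨n, hn, h⟩ := hKc (x₀ + w) (by rw [aff_add, LinearMap.mem_ker.1 w.2, add_zero])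
    refine ⟨⟨n, hn⟩, ?_⟩
    show x₀ + (a n (x₀ + w) - x₀) ∈ K
    rw [add_sub_cancel]; exact h

theorem fibAct_vol {a : G → E → E} (haff : ∀ g, IsAff (a g)) {N : Subgroup G}
    {P : E →ᵃ[ℝ] Q} (hN : ∀ n ∈ N, ∀ x, P (a n x) = P x) (x₀ : E) (n : N) :
    volFactor (fibAct a N P hN x₀ n) = volFactor (a n) := by
  obtain ⟨L, c, hL⟩ := haff n
  have hW : ∀ w ∈ LinearMap.ker P.linear, L w ∈ LinearMap.ker P.linear := by
    intro w hw
    rw [LinearMap.mem_ker, fibAct_lin hN hL, LinearMap.mem_ker.1 hw]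
  have h1 : ∀ w, fibAct a N P hN x₀ n w = L.restrict hW w + fibAct a N P hN x₀ n 0 := by
    intro w
    apply Subtype.ext
    show a n (x₀ + w) - x₀ = L w + (a n (x₀ + ((0 : LinearMap.ker P.linear) : E)) - x₀)
    rw [hL, hL, map_add, Submodule.coe_zero, add_zero]; abel
  rw [volFactor_eq h1, volFactor_eq hL]
  have hle : LinearMap.ker P.linear ≤ (LinearMap.ker P.linear).comap L := hW
  rw [LinearMap.det_eq_det_mul_det (LinearMap.ker P.linear) L hle]
  have h2 : (LinearMap.ker P.linear).mapQ (LinearMap.ker P.linear) L hle = LinearMap.id := by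
    ext x
    show Submodule.Quotient.mk (L x) = Submodule.Quotient.mk x
    rw [Submodule.Quotient.eq, LinearMap.mem_ker, map_sub, fibAct_lin hN hL, sub_self]
  rw [h2, LinearMap.det_id, mul_one]

end fib

section inj

variable {G E E' Q Q' : Type} [Group G] [NormedAddCommGroup E] [NormedSpace ℝ E]
  [FiniteDimensional ℝ E] [NormedAddCommGroup E'] [NormedSpace ℝ E'] [FiniteDimensional ℝ E']
  [NormedAddCommGroup Q] [NormedSpace ℝ Q] [FiniteDimensional ℝ Q]
  [NormedAddCommGroup Q'] [NormedSpace ℝ Q'] [FiniteDimensional ℝ Q']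

/-- surjectivity of equivariant maps, for actions given as families of maps -/
theorem crys_surjective {a : G → E → E} (ha : Crys a) {a' : G → E' → E'} (ha' : Crys a')
    {f : E → E'} (hf : ContDiff ℝ ∞ f) (hfe : ∀ g x, f (a g x) = a' g (f x)) :
    Function.Surjective f := by
  obtain ⟨A, hA⟩ := ha.exists_rep
  obtain ⟨A', hA'⟩ := ha'.exists_rep
  subst hA
  subst hA'
  exact base_surjective (p := AffineMap.id ℝ E) (p' := AffineMap.id ℝ E') (ρ := fun g x => A g x)
    (ρ' := fun g x => A' g x) ha.pd ha.cc ha'.pd ha'.cc Function.surjective_id (fun g x => rfl)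
    (fun g x => rfl) hf hfe

/-- an equivariant map which is polynomial on a cocompact fibre is an immersion along it -/
theorem fibre_injective {a : G → E → E} (hact : IsAct a) (haff : ∀ g, IsAff (a g)) (hPD : PD a)
    {a' : G → E' → E'} (hact' : IsAct a') (haff' : ∀ g, IsAff (a' g)) (hPD' : PD a')
    {N : Subgroup G} {P : E →ᵃ[ℝ] Q} (hN : ∀ n ∈ N, ∀ x, P (a n x) = P x)
    {P' : E' →ᵃ[ℝ] Q'} (hN' : ∀ n ∈ N, ∀ x, P' (a' n x) = P' x)
    (hrank : Module.finrank ℝ (LinearMap.ker P.linear) = Module.finrank ℝ (LinearMap.ker P'.linear))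
    (hvol : ∀ n ∈ N, volFactor (a n) = volFactor (a' n)) {f : E → E'} (hf : ContDiff ℝ ∞ f)
    (hfN : ∀ n ∈ N, ∀ x, f (a n x) = a' n (f x)) {x₀ : E}
    (hfib : ∀ x, P x = P x₀ → P' (f x) = P' (f x₀))
    {S : E → E'} (hS : IsPoly S) (hfS : ∀ x, P x = P x₀ → f x = S x)
    {K : Set E} (hK : IsCompact K) (hKc : ∀ x, P x = P x₀ → ∃ n ∈ N, a n x ∈ K)
    {K' : Set E'} (hK' : IsCompact K') (hKc' : ∀ x, P' x = P' (f x₀) → ∃ n ∈ N, a' n x ∈ K')
    {u : E} (hu : P.linear u = 0) (hfu : fderiv ℝ f x₀ u = 0) : u = 0 := by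
  have c1 := fibAct_crys hact haff hPD hN x₀ hK hKc
  have c2 := fibAct_crys hact' haff' hPD' hN' (f x₀) hK' hKc'
  have hPw : ∀ w : LinearMap.ker P.linear, P (x₀ + w) = P x₀ := by
    intro w; rw [aff_add, LinearMap.mem_ker.1 w.2, add_zero]
  have hmem : ∀ w : LinearMap.ker P.linear, f (x₀ + w) - f x₀ ∈ LinearMap.ker P'.linear := by
    intro w
    rw [LinearMap.mem_ker, ← aff_sub, hfib _ (hPw w), sub_self]
  let F : LinearMap.ker P.linear → LinearMap.ker P'.linear := fun w => ⟨f (x₀ + w) - f x₀, hmem w⟩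
  have hFe : ∀ n w, F (fibAct a N P hN x₀ n w) = fibAct a' N P' hN' (f x₀) n (F w) := by
    intro n w
    apply Subtype.ext
    show f (x₀ + (a n (x₀ + w) - x₀)) - f x₀ = a' n (f x₀ + (f (x₀ + w) - f x₀)) - f x₀
    rw [add_sub_cancel, add_sub_cancel, hfN n n.2]
  have hval : ∀ w : LinearMap.ker P.linear, ((F w : LinearMap.ker P'.linear) : E')
      = S (x₀ + w) - f x₀ := by
    intro w
    show f (x₀ + w) - f x₀ = _
    rw [hfS _ (hPw w)]
  have hFp : IsPoly F := by
    intro ℓ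
    obtain ⟨m, hm⟩ := LinearMap.exists_extend ℓ
    have hm' : ∀ v : LinearMap.ker P'.linear, m (v : E') = ℓ v := by
      intro v; rw [← hm]; rfl
    have h1 : (fun w => ℓ (F w)) = fun w : LinearMap.ker P.linear => m (S (x₀ + w) - f x₀) := by
      funext w
      rw [← hm', hval]
    rw [h1]
    have h2 : IsAff (fun w : LinearMap.ker P.linear => x₀ + (w : E)) :=
      ⟨(LinearMap.ker P.linear).subtype, x₀, fun w => by rw [add_comm]; rfl⟩
    have h3 : IsAff (fun y : E' => y - f x₀) :=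
      ⟨LinearMap.id, -f x₀, fun y => sub_eq_add_neg y (f x₀)⟩
    exact (h3.isPoly.comp (hS.comp h2.isPoly)) m
  have hFs := hFp.smooth
  have hsurj : Function.Surjective F := crys_surjective c1 c2 hFs hFe
  obtain ⟨C, hC, hCc⟩ := c1.cc
  have hbij := onesided c1.act c1.aff c2.aff hC hCc hrank (fun n => by
    rw [fibAct_vol haff hN x₀ n, fibAct_vol haff' hN' (f x₀) n, hvol n n.2]) hFp hFe hsurj 0
  -- compare the derivatives
  have hd1 : HasFDerivAt F (fderiv ℝ F 0) 0 := (hFs.differentiable (by simp) 0).hasFDerivAt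
  have hd2 : HasFDerivAt f (fderiv ℝ f x₀) x₀ := (hf.differentiable (by simp) x₀).hasFDerivAt
  let ι : LinearMap.ker P.linear →L[ℝ] E := (LinearMap.ker P.linear).subtypeL
  let ι' : LinearMap.ker P'.linear →L[ℝ] E' := (LinearMap.ker P'.linear).subtypeL
  have hd3 : HasFDerivAt (fun w : LinearMap.ker P.linear => x₀ + ι w) ι 0 :=
    (ι.hasFDerivAt).const_add x₀
  have hx0 : x₀ + ι 0 = x₀ := by rw [map_zero, add_zero]
  have hd4 : HasFDerivAt (fun w : LinearMap.ker P.linear => f (x₀ + ι w))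
      ((fderiv ℝ f x₀).comp ι) 0 := by
    have h1 : HasFDerivAt f (fderiv ℝ f x₀) (x₀ + ι 0) := by rw [hx0]; exact hd2
    exact h1.comp (0 : LinearMap.ker P.linear) hd3
  have hd5 : HasFDerivAt (fun w => ι' (F w)) (ι'.comp (fderiv ℝ F 0)) 0 :=
    ι'.hasFDerivAt.comp (0 : LinearMap.ker P.linear) hd1
  have hd6 : (fun w => ι' (F w)) = fun w : LinearMap.ker P.linear => f (x₀ + ι w) - f x₀ := rfl
  rw [hd6] at hd5
  have hd7 := hd5.unique (hd4.sub_const (f x₀))
  have hu' : u ∈ LinearMap.ker P.linear := LinearMap.mem_ker.2 hu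
  have h8 : ι' (fderiv ℝ F 0 ⟨u, hu'⟩) = fderiv ℝ f x₀ u :=
    congrArg (fun M : LinearMap.ker P.linear →L[ℝ] E' => M ⟨u, hu'⟩) hd7
  rw [hfu] at h8
  have h9 : fderiv ℝ F 0 ⟨u, hu'⟩ = 0 := Subtype.ext h8
  have h10 : (⟨u, hu'⟩ : LinearMap.ker P.linear) = 0 := by
    apply hbij.1
    rw [h9, map_zero]
  exact congrArg Subtype.val h10

end inj

end Pool.Agent.Run7.h816
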