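import Pool.Agent.Run7.h816.DefsFib
import Pool.Agent.Run7.h816.FibreRigid

/-! The fibration theorem. -/

set_option autoImplicit false

open Set Filter Topology Metric
open scoped ContDiff

namespace Pool.Agent.Run7.h816

section polysum

variable {E E' : Type} [NormedAddCommGroup E] [NormedSpace ℝ E] [NormedAddCommGroup E']
  [NormedSpace ℝ E']

theorem isPoly_sum {ι : Type} (s : Finset ι) (w : ι → ℝ) {S : ι → E → E'}
    (hS : ∀ i, IsPoly (S i)) : IsPoly (fun x => ∑ i ∈ s, w i • S i x) := by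
  intro ℓ
  have h1 : (fun x => ℓ (∑ i ∈ s, w i • S i x)) = ∑ i ∈ s, w i • fun x => ℓ (S i x) := by
    funext x
    rw [map_sum, Finset.sum_apply]
    refine Finset.sum_congr rfl fun i _ => ?_
    rw [map_smul]; rfl
  rw [h1]
  exact Subalgebra.sum_mem _ fun i _ => Subalgebra.smul_mem _ (hS i ℓ) _

end polysum

section main

variable {G E E' Q Q' : Type} [Group G] [NormedAddCommGroup E] [NormedSpace ℝ E]
  [FiniteDimensional ℝ E] [NormedAddCommGroup E'] [NormedSpace ℝ E'] [FiniteDimensional ℝ E']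
  [NormedAddCommGroup Q] [NormedSpace ℝ Q] [FiniteDimensional ℝ Q]
  [NormedAddCommGroup Q'] [NormedSpace ℝ Q'] [FiniteDimensional ℝ Q']

/-- the fibres of an affine map are connected -/
theorem fibre_connected (P : E →ᵃ[ℝ] Q) (q : Q) : IsPreconnected ((P : E → Q) ⁻¹' {q}) :=
  ((convex_singleton q).affine_preimage P).isPreconnected

theorem fibration_rigid (hdim : Module.finrank ℝ E = Module.finrank ℝ E')
    {a : G → E → E} (ha : AffCrystal a) {a' : G → E' → E'} (ha' : AffCrystal a')
    {p : E → Q} {ρ : G → Q → Q} (hp : AffFib a p ρ)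
    {p' : E' → Q'} {ρ' : G → Q' → Q'} (hp' : AffFib a' p' ρ')
    {N : Subgroup G} (hNn : N.Normal) (hN : FibreCocompact a p N) (hN' : FibreCocompact a' p' N)
    (hvol : ∀ n ∈ N, volFactor (a n) = volFactor (a' n))
    {ψ : Q → Q'} (hψ : ContDiff ℝ ∞ ψ) (hψd : ∀ q, Function.Bijective (fderiv ℝ ψ q))
    (hψe : ∀ g q, ψ (ρ g q) = ρ' g (ψ q))
    {s : E → E'} (hs : ContDiff ℝ ∞ s) (hsp : ∀ x, p' (s x) = ψ (p x))
    (hsN : ∀ n ∈ N, ∀ x, s (a n x) = a' n (s x)) (hsP : FibrePoly p s) :
    ∃ f : E ≃ E', EquivDiffeo a a' f ∧ (∀ x, p' (f x) = ψ (p x)) ∧ FibrePoly p f := by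
  classical
  have := hNn
  obtain ⟨P, hP⟩ := hp.aff.exists_map
  have hPf : (P : E → Q) = p := funext hP
  obtain ⟨P', hP'⟩ := hp'.aff.exists_map
  have hPf' : (P' : E' → Q') = p' := funext hP'
  subst hPf
  subst hPf'
  have hact := ha.act
  have hact' := ha'.act
  have hsm : ∀ g, ContDiff ℝ ∞ (a g) := fun g => (ha.aff g).smooth
  have hsm' : ∀ g, ContDiff ℝ ∞ (a' g) := fun g => (ha'.aff g).smooth
  have hPc : Continuous P := hp.aff.smooth.continuous
  have hPsm : ContDiff ℝ ∞ P := hp.aff.smooth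
  obtain ⟨σ, hσ⟩ := exists_section hp.surj
  have hσc : Continuous σ := (aff_contDiff σ).continuous
  have hlins : Function.Surjective P.linear := (AffineMap.linear_surjective_iff P).2 hp.surj
  have hlins' : Function.Surjective P'.linear := (AffineMap.linear_surjective_iff P').2 hp'.surj
  have hPo : IsOpenMap P := by
    have h1 : IsOpenMap (LinearMap.toContinuousLinearMap P.linear) :=
      (LinearMap.toContinuousLinearMap P.linear).isOpenMap hlins
    have h2 : (P : E → Q) = (Homeomorph.addRight (P 0)) ∘ (LinearMap.toContinuousLinearMap P.linear) := by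
      funext x; exact aff_apply P x
    rw [h2]
    exact (Homeomorph.addRight (P 0)).isOpenMap.comp h1
  have hρact := base_act ha.crys hp
  have hρaff := base_aff ha.crys hp
  have hρsm : ∀ g, ContDiff ℝ ∞ (ρ g) := fun g => (hρaff g).smooth
  -- the quotient group acts on the base
  have hρN : ∀ g, ∀ n ∈ N, ρ (g * n) = ρ g := by
    intro g n hn
    funext q
    obtain ⟨x, rfl⟩ := hp.surj q
    rw [hρact.mul, ← hp.equiv n, hN.trivial_base n hn]
  have c1 := bar_act' hρact hρN
  have c2 : ∀ h : G ⧸ N, ContDiff ℝ ∞ (ρ (Quotient.out h)) := fun h => hρsm _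
  have c4 : CC (fun h : G ⧸ N => ρ (Quotient.out h)) := by
    obtain ⟨K, hK, hKc⟩ := ha.cocompact
    refine ⟨P '' K, hK.image hPc, fun y => ?_⟩
    obtain ⟨x, rfl⟩ := hp.surj y
    obtain ⟨g, hg⟩ := hKc x
    refine ⟨(g : G ⧸ N), ?_⟩
    show ρ (Quotient.out (g : G ⧸ N)) (P x) ∈ _
    rw [bar_mk hρN g, ← hp.equiv]
    exact mem_image_of_mem _ hg
  have c3 : PD (fun h : G ⧸ N => ρ (Quotient.out h)) := by
    intro C hC
    obtain ⟨K, hK, hKc⟩ := uniform_cc_compact hact (fun g => (hsm g).continuous) ha.proper hPc hPo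
      hp.surj (fibre_connected P) hN.trivial_base hN.cocompact hC
    have hK2 : IsCompact (σ '' C ∪ K) := (hC.image hσc).union hK
    refine ((ha.proper _ hK2).image (fun g : G => (g : G ⧸ N))).subset ?_
    rintro h ⟨q, hq, hq'⟩
    obtain ⟨g, rfl⟩ := QuotientGroup.mk_surjective h
    have hq' : ρ (Quotient.out (g : G ⧸ N)) q ∈ C := hq'
    rw [bar_mk hρN g] at hq'
    have h1 : P (a g (σ q)) ∈ C := by rw [hp.equiv, hσ]; exact hq'
    obtain ⟨n, hn, hx⟩ := hKc _ h1
    refine ⟨n * g, ⟨σ q, Or.inl (mem_image_of_mem _ hq), Or.inr ?_⟩, ?_⟩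
    · rw [hact.mul]; exact hx
    · show ((n * g : G) : G ⧸ N) = g
      rw [QuotientGroup.mk_mul, (QuotientGroup.eq_one_iff n).2 hn, one_mul]
  -- the pieces
  set R : G → E → E' := fun g x => a' g⁻¹ (s (a g x)) with hR
  have hRs : ∀ g, ContDiff ℝ ∞ (R g) := fun g => (hsm' g⁻¹).comp (hs.comp (hsm g))
  have hRmul : ∀ g h x, R g (a h x) = a' h (R (g * h) x) := by
    intro g h x
    simp only [hR]
    rw [← hact'.mul, hact.mul]
    congr 1; group
  have hRN : ∀ g, ∀ n ∈ N, R (g * n) = R g := by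
    intro g n hn
    funext x
    simp only [hR]
    have h1 : g * n = (g * n * g⁻¹) * g := by group
    have hm : g * n * g⁻¹ ∈ N := Subgroup.Normal.conj_mem inferInstance n hn g
    conv_lhs => rw [h1]
    rw [hact.mul (g * n * g⁻¹) g, hsN _ hm, ← hact'.mul]
    congr 1; group
  have hRπ : ∀ g x, P' (R g x) = ψ (P x) := by
    intro g x
    simp only [hR]
    rw [hp'.equiv, hsp, hp.equiv, hψe]
    exact (base_act ha'.crys hp').inv_left g _
  have hRpoly : ∀ g q, ∃ S : E → E', IsPoly S ∧ ∀ x, P x = q → R g x = S x := by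
    intro g q
    obtain ⟨S, hS, hSx⟩ := hsP (ρ g q)
    refine ⟨fun x => a' g⁻¹ (S (a g x)), (ha'.aff g⁻¹).isPoly.comp (hS.comp (ha.aff g).isPoly),
      fun x hx => ?_⟩
    simp only [hR]
    rw [hSx (a g x) (by rw [hp.equiv, hx])]
  obtain ⟨χ, hχs, hχ, hχ0, hχ1⟩ := exists_weight c1 c2 c3 c4
  set f : E → E' := fun x => ∑ᶠ h : G ⧸ N, χ (ρ (Quotient.out h) (P x)) • R (Quotient.out h) x with hf
  have hfs : ContDiff ℝ ∞ f := contDiff_sum_pull (a := fun h : G ⧸ N => ρ (Quotient.out h)) c2 c3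
    hχs hχ hPsm (fun h x => R (Quotient.out h) x) fun h => hRs _
  have hfin : ∀ y, (Function.support (fun h : G ⧸ N => χ (ρ (Quotient.out h) y))).Finite :=
    fun y => finite_support c3 hχ y
  have hfe : ∀ g x, f (a g x) = a' g (f x) := by
    intro g x
    simp only [hf]
    rw [hp.equiv]
    obtain ⟨M, hM⟩ := (ha'.aff g).exists_map
    have h1 := affine_finsum' (hfin (P x)) (hχ1 (P x)) M (fun h => R (Quotient.out h) x)
    simp only [hM] at h1
    rw [h1]
    rw [← finsum_comp_equiv (Equiv.mulRight (g : G ⧸ N))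
      (f := fun h : G ⧸ N => χ (ρ (Quotient.out h) (P x)) • a' g (R (Quotient.out h) x))]
    congr 1
    funext h
    simp only [Equiv.coe_mulRight]
    have h2 : ((Quotient.out h * g : G) : G ⧸ N) = h * (g : G ⧸ N) := by
      rw [QuotientGroup.mk_mul, QuotientGroup.out_eq']
    have h3 := bar_mk hρN (Quotient.out h * g)
    have h4 := bar_mk hRN (Quotient.out h * g)
    rw [h2] at h3 h4
    rw [h3, h4, hρact.mul, hRmul]
  have hfπ : ∀ x, P' (f x) = ψ (P x) := by
    intro x
    simp only [hf]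
    rw [affine_finsum' (hfin (P x)) (hχ1 (P x)) P' (fun h => R (Quotient.out h) x)]
    simp only [hRπ]
    rw [← finsum_smul, hχ1, one_smul]
  have hfpoly : FibrePoly P f := by
    intro q
    choose S hS hSx using fun h : G ⧸ N => hRpoly (Quotient.out h) q
    refine ⟨fun x => ∑ h ∈ (hfin q).toFinset, χ (ρ (Quotient.out h) q) • S h x,
      isPoly_sum _ _ hS, fun x hx => ?_⟩
    simp only [hf]
    rw [hx]
    have h1 : ∑ᶠ h : G ⧸ N, χ (ρ (Quotient.out h) q) • R (Quotient.out h) x =
        ∑ h ∈ (hfin q).toFinset, χ (ρ (Quotient.out h) q) • R (Quotient.out h) x := by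
      apply finsum_eq_sum_of_support_subset
      intro h hh
      rw [Function.mem_support] at hh
      rw [Set.Finite.coe_toFinset, Function.mem_support]
      intro h0; apply hh; rw [h0, zero_smul]
    rw [h1]
    refine Finset.sum_congr rfl fun h _ => ?_
    rw [hSx h x hx]
  -- dimensions
  have hdQ : Module.finrank ℝ Q = Module.finrank ℝ Q' :=
    (LinearEquiv.ofBijective (fderiv ℝ ψ 0 : Q →ₗ[ℝ] Q') (hψd 0)).finrank_eq
  have hrk := LinearMap.finrank_range_add_finrank_ker P.linear
  have hrk' := LinearMap.finrank_range_add_finrank_ker P'.linear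
  rw [LinearMap.range_eq_top.2 hlins, finrank_top] at hrk
  rw [LinearMap.range_eq_top.2 hlins', finrank_top] at hrk'
  have hrank : Module.finrank ℝ (LinearMap.ker P.linear) =
    Module.finrank ℝ (LinearMap.ker P'.linear) := by omega
  -- derivatives
  have hd1 : ∀ x u, P'.linear (fderiv ℝ f x u) = fderiv ℝ ψ (P x) (P.linear u) := by
    intro x u
    have hfd : HasFDerivAt f (fderiv ℝ f x) x := ((hfs.differentiable (by simp)) x).hasFDerivAt
    have ha1 := (hasFDerivAt_aff (aff_apply P') (f x)).comp x hfd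
    have hψ' : HasFDerivAt ψ (fderiv ℝ ψ (P x)) (P x) :=
      ((hψ.differentiable (by simp)) _).hasFDerivAt
    have hb := hψ'.comp x (hasFDerivAt_aff (aff_apply P) x)
    have hc : (P' : E' → Q') ∘ f = ψ ∘ (P : E → Q) := by funext x; exact hfπ x
    rw [hc] at ha1
    have := ha1.unique hb
    exact congrArg (fun L : E →L[ℝ] Q' => L u) this
  have hfd : ∀ x, Function.Bijective (fderiv ℝ f x) := by
    intro x
    have hinj : Function.Injective (fderiv ℝ f x) := by
      rw [injective_iff_map_eq_zero]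
      intro u hu
      have h1 := hd1 x u
      rw [hu, map_zero] at h1
      have h2 : P.linear u = 0 := by
        have := (hψd (P x)).1
        rw [injective_iff_map_eq_zero] at this
        exact this _ h1.symm
      obtain ⟨S, hS, hSx⟩ := hfpoly (P x)
      obtain ⟨K, hK, hKc⟩ := hN.cocompact (P x)
      obtain ⟨K', hK', hKc'⟩ := hN'.cocompact (P' (f x))
      exact fibre_injective hact ha.aff ha.proper hact' ha'.aff ha'.proper hN.trivial_base
        hN'.trivial_base hrank hvol hfs (fun n _ x => hfe n x)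
        (fun y hy => by rw [hfπ, hfπ, hy]) hS hSx hK hKc hK' hKc' h2 hu
    exact ⟨hinj, (LinearMap.injective_iff_surjective_of_finrank_eq_finrank
      (f := (fderiv ℝ f x : E →ₗ[ℝ] E')) hdim).1 hinj⟩
  have hfb : Function.Bijective f := cover_bijective hact (fun g => (hsm g).continuous) ha.cc ha'.pd
    (isLocalHomeomorph_of_fderiv hfs hfd) hfe
  obtain ⟨fi, hfi, hl, hr⟩ := exists_smooth_inverse hfs hfd hfb
  exact pack (P := fun f => (∀ x, P' (f x) = ψ (P x)) ∧ FibrePoly P f) hfs hfi hl hr hfe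
    ⟨hfπ, hfpoly⟩

end main

end Pool.Agent.Run7.h816
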