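import Pool.Agent.Run7.h816.Volume

/-! A normal subgroup which is cocompact on the fibres: uniformity, and the action of the quotient on
the base. -/

set_option autoImplicit false

open Set Filter Topology Metric
open scoped ContDiff

namespace Pool.Agent.Run7.h816

section closed

variable {G E Q : Type} [Group G] [NormedAddCommGroup E] [NormedSpace ℝ E] [FiniteDimensional ℝ E]
  [NormedAddCommGroup Q] [NormedSpace ℝ Q] [FiniteDimensional ℝ Q]

theorem isClosed_orbit {a : G → E → E} (hc : ∀ g, Continuous (a g)) (hPD : PD a)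
    {K : Set E} (hK : IsCompact K) (S : Set G) : IsClosed {x | ∃ n ∈ S, a n x ∈ K} := by
  have h1 : {x | ∃ n ∈ S, a n x ∈ K} = ⋃ n : S, (a n.1) ⁻¹' K := by
    ext x
    simp only [Set.mem_ofPred_eq, mem_iUnion, mem_preimage]
    exact ⟨fun ⟨n, hn, h⟩ => ⟨⟨n, hn⟩, h⟩, fun ⟨n, h⟩ => ⟨n.1, n.2, h⟩⟩
  rw [h1]
  refine LocallyFinite.isClosed_iUnion ?_ fun n => hK.isClosed.preimage (hc n.1)
  intro x
  refine ⟨closedBall x 1, closedBall_mem_nhds x one_pos, ?_⟩
  have h2 : IsCompact (closedBall x 1 ∪ K) := (isCompact_closedBall x 1).union hK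
  refine ((hPD _ h2).preimage (f := (Subtype.val : S → G)) Subtype.val_injective.injOn).subset ?_
  rintro n ⟨y, hy, hy'⟩
  exact ⟨y, Or.inl hy', Or.inr hy⟩

theorem uniform_cc {a : G → E → E} (hact : IsAct a) (hc : ∀ g, Continuous (a g)) (hPD : PD a)
    {p : E → Q} (hpc : Continuous p) (hpo : IsOpenMap p) (hsurj : Function.Surjective p)
    (hconn : ∀ q, IsPreconnected (p ⁻¹' {q})) {N : Subgroup G} (hN : ∀ n ∈ N, ∀ x, p (a n x) = p x)
    (hNc : ∀ q, ∃ K : Set E, IsCompact K ∧ ∀ x, p x = q → ∃ n ∈ N, a n x ∈ K) (q : Q) :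
    ∃ K : Set E, IsCompact K ∧ ∃ U ∈ 𝓝 q, ∀ x, p x ∈ U → ∃ n ∈ N, a n x ∈ K := by
  obtain ⟨K, hK, hKc⟩ := hNc q
  have hK2 : IsCompact (cthickening 1 K) := hK.cthickening
  set Th : Set E := thickening 1 K with hTh
  have hTho : IsOpen Th := isOpen_thickening
  have hTK : Th ⊆ cthickening 1 K := thickening_subset_cthickening 1 K
  have hKT : K ⊆ Th := self_subset_thickening one_pos K
  set O : Set E := {x | ∃ n ∈ N, a n x ∈ Th} with hO
  have hOo : IsOpen O := by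
    have h1 : O = ⋃ n ∈ N, (a n) ⁻¹' Th := by
      ext x; simp [hO]
    rw [h1]
    exact isOpen_biUnion fun n _ => hTho.preimage (hc n)
  set B : Set E := {x | ∃ n ∈ (N : Set G), a n x ∈ cthickening 1 K} with hB
  have hBc : IsClosed B := isClosed_orbit hc hPD hK2 _
  have hOB : O ⊆ B := fun x ⟨n, hn, hx⟩ => ⟨n, hn, hTK hx⟩
  have hOinv : ∀ n ∈ N, ∀ x, a n x ∈ O → x ∈ O := by
    rintro n hn x ⟨m, hm, hx⟩
    exact ⟨m * n, N.mul_mem hm hn, by rw [hact.mul]; exact hx⟩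
  set D : Set E := cthickening 1 K \ O with hD
  have hDc : IsCompact D := hK2.diff hOo
  have hpD : IsClosed (p '' D) := (hDc.image hpc).isClosed
  have hqD : q ∉ p '' D := by
    rintro ⟨d, ⟨_, hdO⟩, hdq⟩
    obtain ⟨n, hn, hx⟩ := hKc d hdq
    exact hdO ⟨n, hn, hKT hx⟩
  refine ⟨cthickening 1 K, hK2, (p '' D)ᶜ ∩ p '' Th, ?_, ?_⟩
  · refine inter_mem (hpD.isOpen_compl.mem_nhds hqD) ((hpo _ hTho).mem_nhds ?_)
    obtain ⟨x, hx⟩ := hsurj q
    obtain ⟨n, hn, hnx⟩ := hKc x hx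
    exact ⟨a n x, hKT hnx, by rw [hN n hn, hx]⟩
  · rintro x ⟨hx1, y, hy, hyx⟩
    by_contra hcon
    have hxB : x ∈ Bᶜ := hcon
    have hcov : p ⁻¹' {p x} ⊆ O ∪ Bᶜ := by
      intro z hz
      by_contra hz2
      rw [mem_union, not_or, mem_compl_iff, not_not] at hz2
      obtain ⟨hzO, n, hn, hnz⟩ := hz2
      apply hx1
      have hz' : p z = p x := hz
      refine ⟨a n z, ⟨hnz, fun h => hzO (hOinv n hn z h)⟩, ?_⟩
      rw [hN n hn, hz']
    obtain ⟨z, -, hz1, hz2⟩ := hconn (p x) O Bᶜ hOo hBc.isOpen_compl hcov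
      ⟨y, hyx, 1, N.one_mem, by rw [hact.one]; exact hy⟩ ⟨x, rfl, hxB⟩
    exact hz2 (hOB hz1)

theorem uniform_cc_compact {a : G → E → E} (hact : IsAct a) (hc : ∀ g, Continuous (a g))
    (hPD : PD a) {p : E → Q} (hpc : Continuous p) (hpo : IsOpenMap p)
    (hsurj : Function.Surjective p) (hconn : ∀ q, IsPreconnected (p ⁻¹' {q})) {N : Subgroup G}
    (hN : ∀ n ∈ N, ∀ x, p (a n x) = p x)
    (hNc : ∀ q, ∃ K : Set E, IsCompact K ∧ ∀ x, p x = q → ∃ n ∈ N, a n x ∈ K) {C : Set Q}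
    (hC : IsCompact C) : ∃ K : Set E, IsCompact K ∧ ∀ x, p x ∈ C → ∃ n ∈ N, a n x ∈ K := by
  refine hC.induction_on
    (p := fun C => ∃ K : Set E, IsCompact K ∧ ∀ x, p x ∈ C → ∃ n ∈ N, a n x ∈ K) ?_ ?_ ?_ ?_
  · exact ⟨∅, isCompact_empty, fun x hx => absurd hx (notMem_empty _)⟩
  · rintro s t hst ⟨K, hK, h⟩
    exact ⟨K, hK, fun x hx => h x (hst hx)⟩
  · rintro s t ⟨K, hK, h⟩ ⟨K', hK', h'⟩
    refine ⟨K ∪ K', hK.union hK', fun x hx => ?_⟩
    rcases hx with hx | hx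
    · obtain ⟨n, hn, hx⟩ := h x hx
      exact ⟨n, hn, Or.inl hx⟩
    · obtain ⟨n, hn, hx⟩ := h' x hx
      exact ⟨n, hn, Or.inr hx⟩
  · intro q _
    obtain ⟨K, hK, U, hU, h⟩ := uniform_cc hact hc hPD hpc hpo hsurj hconn hN hNc q
    exact ⟨U, mem_nhdsWithin_of_mem_nhds hU, K, hK, h⟩

end closed

section bar

variable {G Q : Type} [Group G] {ρ : G → Q → Q} {N : Subgroup G} [N.Normal]

theorem bar_act' (hact : IsAct ρ) (hN : ∀ g, ∀ t ∈ N, ρ (g * t) = ρ g) :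
    IsAct (fun h : G ⧸ N => ρ (Quotient.out h)) where
  one := by
    intro y
    have := bar_mk hN (1 : G)
    rw [QuotientGroup.mk_one] at this
    show ρ (Quotient.out (1 : G ⧸ N)) y = y
    rw [this, hact.one]
  mul := by
    intro h k y
    have h1 := bar_mk hN (Quotient.out h * Quotient.out k)
    have h2 : ((Quotient.out h * Quotient.out k : G) : G ⧸ N) = h * k := by
      rw [QuotientGroup.mk_mul]
      rw [QuotientGroup.out_eq', QuotientGroup.out_eq']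
    rw [h2] at h1
    show ρ (Quotient.out (h * k)) y = _
    rw [h1, hact.mul]

end bar

end Pool.Agent.Run7.h816
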