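import Pool.Agent.Run7.h816.Basic

/-! A group of affine transformations of a finite dimensional space with a bounded orbit has a fixed
point. -/

set_option autoImplicit false

open Set Filter Topology Metric

namespace Pool.Agent.Run7.h816

section inner

variable {G V : Type*} [Group G] [NormedAddCommGroup V] [InnerProductSpace ℝ V]
  [FiniteDimensional ℝ V]

theorem fp_inner {β : G → V → V} (hact : IsAct β) {M : G → V →ₗ[ℝ] V}
    (hM : ∀ g x u, β g (x + u) = β g x + M g u) {w₀ : V} {C : ℝ} (hC : ∀ g, ‖β g w₀‖ ≤ C) :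
    ∃ w, ∀ g, β g w = w := by
  classical
  set D : Submodule ℝ V := Submodule.span ℝ {u | ∃ g, u = β g w₀ - w₀} with hD
  have hgen : ∀ g h, M g (β h w₀ - w₀) = β (g * h) w₀ - β g w₀ := by
    intro g h
    have h1 := hM g w₀ (β h w₀ - w₀)
    rw [add_sub_cancel, ← hact.mul] at h1
    rw [h1]; abel
  have hgD : ∀ g, β g w₀ - w₀ ∈ D := fun g => Submodule.subset_span ⟨g, rfl⟩
  have hMD : ∀ g, ∀ u ∈ D, M g u ∈ D := by
    intro g
    have h1 : D ≤ D.comap (M g) := by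
      rw [hD, Submodule.span_le]
      rintro u ⟨h, rfl⟩
      show M g (β h w₀ - w₀) ∈ D
      rw [hgen]
      have h2 : β (g * h) w₀ - β g w₀ = (β (g * h) w₀ - w₀) - (β g w₀ - w₀) := by abel
      rw [h2]
      exact D.sub_mem (hgD _) (hgD _)
    exact fun u hu => h1 hu
  have hMinv : ∀ g u, M g⁻¹ (M g u) = u := by
    intro g u
    have h1 := hact.inv_left g (w₀ + u)
    rw [hM, hM, hact.inv_left] at h1
    exact add_left_cancel h1
  have hpt : ∀ u ∈ D, ∃ C', ∀ g, ‖M g u‖ ≤ C' := by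
    intro u hu
    induction hu using Submodule.span_induction with
    | mem u hu =>
      obtain ⟨h, rfl⟩ := hu
      refine ⟨C + C, fun g => ?_⟩
      rw [hgen]
      exact (norm_sub_le _ _).trans (add_le_add (hC _) (hC _))
    | zero => exact ⟨0, fun g => by simp⟩
    | add u v _ _ hu hv =>
      obtain ⟨C1, h1⟩ := hu
      obtain ⟨C2, h2⟩ := hv
      refine ⟨C1 + C2, fun g => ?_⟩
      rw [map_add]
      exact (norm_add_le _ _).trans (add_le_add (h1 g) (h2 g))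
    | smul c u _ hu =>
      obtain ⟨C1, h1⟩ := hu
      refine ⟨‖c‖ * C1, fun g => ?_⟩
      rw [map_smul, norm_smul]
      exact mul_le_mul_of_nonneg_left (h1 g) (norm_nonneg _)
  obtain ⟨C', hC'0, hC'⟩ : ∃ C' : ℝ, 0 < C' ∧ ∀ g, ∀ u ∈ D, ‖M g u‖ ≤ C' * ‖u‖ := by
    let T : G → D →L[ℝ] V := fun g => LinearMap.toContinuousLinearMap ((M g).domRestrict D)
    obtain ⟨C1, h1⟩ := banach_steinhaus (g := T) (fun u => by
      obtain ⟨C2, h2⟩ := hpt u u.2
      exact ⟨C2, fun g => h2 g⟩)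
    refine ⟨max C1 1, by positivity, fun g u hu => ?_⟩
    have h2 := (T g).le_opNorm ⟨u, hu⟩
    have h3 : T g ⟨u, hu⟩ = M g u := rfl
    rw [h3] at h2
    refine h2.trans ?_
    exact mul_le_mul_of_nonneg_right ((h1 g).trans (le_max_left _ _)) (norm_nonneg _)
  have hlow : ∀ g, ∀ u ∈ D, ‖u‖ / C' ≤ ‖M g u‖ := by
    intro g u hu
    rw [div_le_iff₀ hC'0]
    have h1 := hC' g⁻¹ (M g u) (hMD g u hu)
    rw [hMinv] at h1
    linarith
  -- the functional
  set θ : D → ℝ := fun d => ⨆ g, ‖β g (w₀ + d)‖ ^ 2 with hθ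
  have hbdd : ∀ d : D, BddAbove (range fun g => ‖β g (w₀ + d)‖ ^ 2) := by
    intro d
    refine ⟨(C + C' * ‖(d : V)‖) ^ 2, ?_⟩
    rintro _ ⟨g, rfl⟩
    have h1 : ‖β g (w₀ + d)‖ ≤ C + C' * ‖(d : V)‖ := by
      rw [hM]
      exact (norm_add_le _ _).trans (add_le_add (hC g) (hC' g d d.2))
    exact pow_le_pow_left₀ (norm_nonneg _) h1 2
  have hle : ∀ (d : D) g, ‖β g (w₀ + d)‖ ^ 2 ≤ θ d := fun d g => le_ciSup (hbdd d) g
  have hlsc : LowerSemicontinuous θ := by
    refine lowerSemicontinuous_ciSup hbdd fun g => ?_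
    apply Continuous.lowerSemicontinuous
    have h1 : Continuous (fun d : D => β g (w₀ + d)) := by
      have h2 : (fun d : D => β g (w₀ + d)) = fun d : D => β g w₀ + M g d := by
        funext d; rw [hM]
      rw [h2]
      exact continuous_const.add ((M g).continuous_of_finiteDimensional.comp continuous_subtype_val)
    exact h1.norm.pow 2
  obtain ⟨d₀, hd₀⟩ : ∃ d₀ : D, ∀ d, θ d₀ ≤ θ d := by
    have hθ0 : 0 ≤ θ 0 := (sq_nonneg _).trans (hle 0 1)
    set R : ℝ := ‖w₀‖ + Real.sqrt (θ 0) with hR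
    have hR0 : 0 ≤ R := by positivity
    obtain ⟨d₀, -, hd₀⟩ := LowerSemicontinuousOn.exists_isMinOn (s := closedBall (0 : D) R)
      ⟨0, mem_closedBall_self hR0⟩ (isCompact_closedBall 0 R) (hlsc.lowerSemicontinuousOn _)
    refine ⟨d₀, fun d => ?_⟩
    by_cases hd : d ∈ closedBall (0 : D) R
    · exact hd₀ hd
    · rw [mem_closedBall, dist_zero_right, not_le] at hd
      have h1 : θ d₀ ≤ θ 0 := hd₀ (mem_closedBall_self hR0)
      have h2 := hle d 1
      rw [hact.one] at h2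
      have h3 : ‖(d : V)‖ ≤ ‖w₀ + d‖ + ‖w₀‖ := by
        have : (d : V) = (w₀ + d) - w₀ := by abel
        calc ‖(d : V)‖ = ‖(w₀ + d) - w₀‖ := by rw [← this]
          _ ≤ _ := norm_sub_le _ _
      have h4 : R < ‖(d : V)‖ := hd
      have h5 : Real.sqrt (θ 0) < ‖w₀ + (d : V)‖ := by linarith
      have h6 : θ 0 < ‖w₀ + (d : V)‖ ^ 2 := (Real.sqrt_lt' (lt_of_le_of_lt (Real.sqrt_nonneg _) h5)).1 h5
      linarith
  have huniq : ∀ d : D, θ d ≤ θ d₀ → d = d₀ := by
    intro d hd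
    set z : D := (1 / 2 : ℝ) • (d + d₀) with hz
    have h1 : θ z ≤ θ d₀ - (‖d - d₀‖ / C') ^ 2 / 4 := by
      refine ciSup_le fun g => ?_
      have e1 : β g (w₀ + z) = (1 / 2 : ℝ) • (β g (w₀ + d) + β g (w₀ + d₀)) := by
        rw [hM, hM, hM, hz]
        simp only [Submodule.coe_smul, Submodule.coe_add, map_smul, map_add]
        module
      have e2 : β g (w₀ + d) - β g (w₀ + d₀) = M g ((d - d₀ : D) : V) := by
        rw [hM, hM, Submodule.coe_sub, map_sub]; abel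
      have e3 := hlow g ((d - d₀ : D) : V) (d - d₀).2
      have e4 := parallelogram_law_with_norm ℝ (β g (w₀ + d)) (β g (w₀ + d₀))
      have e5 := hle d g
      have e6 := hle d₀ g
      rw [e2] at e4
      rw [e1, norm_smul]
      have e7 : (‖d - d₀‖ / C') ^ 2 ≤ ‖M g ((d - d₀ : D) : V)‖ ^ 2 := by
        refine pow_le_pow_left₀ (by positivity) ?_ 2
        exact e3
      have e8 : ‖(1 / 2 : ℝ)‖ = 1 / 2 := by norm_num
      rw [e8]
      nlinarith [e4, e5, e6, e7]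
    have h2 := hd₀ z
    have h3 : (‖d - d₀‖ / C') ^ 2 ≤ 0 := by linarith
    have h4 : ‖d - d₀‖ / C' = 0 := by
      have := sq_nonneg (‖d - d₀‖ / C')
      exact pow_eq_zero_iff two_ne_zero |>.1 (le_antisymm h3 this)
    have h5 : ‖d - d₀‖ = 0 := by
      rcases div_eq_zero_iff.1 h4 with h | h
      · exact h
      · exact absurd h hC'0.ne'
    exact sub_eq_zero.1 (norm_eq_zero.1 h5)
  refine ⟨w₀ + d₀, fun h => ?_⟩
  have hmem : β h (w₀ + d₀) - w₀ ∈ D := by
    rw [hM]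
    have : β h w₀ + M h d₀ - w₀ = (β h w₀ - w₀) + M h d₀ := by abel
    rw [this]
    exact D.add_mem (hgD h) (hMD h d₀ d₀.2)
  have h1 : θ ⟨β h (w₀ + d₀) - w₀, hmem⟩ ≤ θ d₀ := by
    refine ciSup_le fun g => ?_
    have h2 : w₀ + ((⟨β h (w₀ + d₀) - w₀, hmem⟩ : D) : V) = β h (w₀ + d₀) := by
      show w₀ + (β h (w₀ + d₀) - w₀) = _
      abel
    rw [h2, ← hact.mul]
    exact hle d₀ (g * h)
  have h3 := congrArg Subtype.val (huniq _ h1)
  have h4 : β h (w₀ + d₀) - w₀ = (d₀ : V) := h3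
  exact sub_eq_iff_eq_add'.1 h4

end inner

section linear

variable {G W : Type*} [Group G] [AddCommGroup W] [Module ℝ W] [FiniteDimensional ℝ W]

theorem fp_linear {β : G → W → W} (hact : IsAct β) {M : G → W →ₗ[ℝ] W}
    (hM : ∀ g x u, β g (x + u) = β g x + M g u) {w₀ : W}
    (hbd : ∀ ℓ : W →ₗ[ℝ] ℝ, ∃ C, ∀ g, |ℓ (β g w₀)| ≤ C) : ∃ w, ∀ g, β g w = w := by
  classical
  set n := Module.finrank ℝ W with hn
  let b := Module.finBasis ℝ W
  let e : W ≃ₗ[ℝ] EuclideanSpace ℝ (Fin n) :=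
    b.equivFun.trans (EuclideanSpace.equiv (Fin n) ℝ).symm.toLinearEquiv
  have hact2 : IsAct (fun g x => e (β g (e.symm x))) :=
    ⟨fun x => by simp [hact.one], fun g h x => by simp [hact.mul]⟩
  have hM2 : ∀ g x u, (fun g x => e (β g (e.symm x))) g (x + u) =
      (fun g x => e (β g (e.symm x))) g x +
        ((e : W →ₗ[ℝ] EuclideanSpace ℝ (Fin n)).comp ((M g).comp (e.symm :
          EuclideanSpace ℝ (Fin n) →ₗ[ℝ] W))) u := by
    intro g x u
    simp only [map_add, hM]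
    rfl
  choose C hC using fun i : Fin n => hbd (b.coord i)
  have hbound : ∀ g, ‖e (β g w₀)‖ ≤
      ‖((EuclideanSpace.equiv (Fin n) ℝ).symm : (Fin n → ℝ) →L[ℝ] EuclideanSpace ℝ (Fin n))‖ *
        ∑ i, |C i| := by
    intro g
    have h1 : e (β g w₀) = (EuclideanSpace.equiv (Fin n) ℝ).symm (b.equivFun (β g w₀)) := rfl
    rw [h1]
    refine (ContinuousLinearMap.le_opNorm ((EuclideanSpace.equiv (Fin n) ℝ).symm :
      (Fin n → ℝ) →L[ℝ] EuclideanSpace ℝ (Fin n)) _).trans ?_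
    refine mul_le_mul_of_nonneg_left ?_ (norm_nonneg _)
    refine (pi_norm_le_iff_of_nonneg (Finset.sum_nonneg fun i _ => abs_nonneg _)).2 fun i => ?_
    have h2 : |b.equivFun (β g w₀) i| ≤ C i := hC i g
    refine (h2.trans (le_abs_self _)).trans ?_
    exact Finset.single_le_sum (f := fun i => |C i|) (fun i _ => abs_nonneg _) (Finset.mem_univ i)
  obtain ⟨w, hw⟩ := fp_inner hact2 hM2 (w₀ := e w₀) (fun g => by
    show ‖e (β g (e.symm (e w₀)))‖ ≤ _
    rw [e.symm_apply_apply]; exact hbound g)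
  refine ⟨e.symm w, fun g => ?_⟩
  have h1 : e (β g (e.symm w)) = w := hw g
  apply e.injective
  rw [h1, e.apply_symm_apply]

/-- boundedness may be tested on a separating set of functionals -/
theorem bounded_all {O : G → W} {S : Set (W →ₗ[ℝ] ℝ)} (hsep : ∀ w, (∀ ℓ ∈ S, ℓ w = 0) → w = 0)
    (hS : ∀ ℓ ∈ S, ∃ C, ∀ g, |ℓ (O g)| ≤ C) (ℓ : W →ₗ[ℝ] ℝ) : ∃ C, ∀ g, |ℓ (O g)| ≤ C := by
  have htop : Submodule.span ℝ S = ⊤ := by
    by_contra hne
    have hlt : Submodule.span ℝ S < ⊤ := lt_top_iff_ne_top.2 hne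
    obtain ⟨f, hf, hle⟩ := Submodule.exists_le_ker_of_lt_top _ hlt
    obtain ⟨w, rfl⟩ := (Module.evalEquiv ℝ W).surjective f
    apply hf
    have hw : w = 0 := hsep w fun ℓ hℓ => hle (Submodule.subset_span hℓ)
    rw [hw, map_zero]
  have hmem : ℓ ∈ Submodule.span ℝ S := by rw [htop]; trivial
  induction hmem using Submodule.span_induction with
  | mem ℓ hℓ => exact hS ℓ hℓ
  | zero => exact ⟨0, fun g => by simp⟩
  | add u v _ _ hu hv =>
    obtain ⟨C1, h1⟩ := hu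
    obtain ⟨C2, h2⟩ := hv
    exact ⟨C1 + C2, fun g => (abs_add_le _ _).trans (add_le_add (h1 g) (h2 g))⟩
  | smul c u _ hu =>
    obtain ⟨C1, h1⟩ := hu
    refine ⟨|c| * C1, fun g => ?_⟩
    show |c * u (O g)| ≤ _
    rw [abs_mul]
    exact mul_le_mul_of_nonneg_left (h1 g) (abs_nonneg _)

end linear

end Pool.Agent.Run7.h816
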