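import Pool.Agent.Run7.h816.DefsFlow
import Pool.Agent.Run7.h816.FibreRigid

/-! Affine flows whose orbits are permuted by a crystallographic action. -/

set_option autoImplicit false

open Set Filter Topology Metric
open scoped ContDiff

namespace Pool.Agent.Run7.h816

section flow

variable {E : Type} [NormedAddCommGroup E] [NormedSpace ℝ E] [FiniteDimensional ℝ E]
  {c : ℝ → E → E}

theorem AffFlow.hasDerivAt0 (h : AffFlow c) (x : E) :
    HasDerivAt (fun s => c s x) (velocity c x) 0 := by
  have h1 : ContDiff ℝ ∞ (fun s : ℝ => c s x) := h.smooth.comp (contDiff_id.prodMk contDiff_const)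
  exact (h1.differentiable (by simp) 0).hasDerivAt

theorem AffFlow.hasDerivAt (h : AffFlow c) (s : ℝ) (x : E) :
    HasDerivAt (fun s => c s x) (velocity c (c s x)) s := by
  have h1 := h.hasDerivAt0 (c s x)
  have h2 : HasDerivAt (fun t => c (t - s) (c s x)) (velocity c (c s x)) s := by
    have h3 : HasDerivAt (fun t => c t (c s x)) (velocity c (c s x)) (s - s) := by
      rw [sub_self]; exact h1
    exact h3.comp_sub_const s s
  have h4 : (fun t => c (t - s) (c s x)) = fun t => c t x := by
    funext t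
    rw [← h.add, sub_add_cancel]
  rw [h4] at h2
  exact h2

theorem AffFlow.inv (h : AffFlow c) (s : ℝ) (x : E) : c (-s) (c s x) = x := by
  rw [← h.add, neg_add_cancel, h.zero]

theorem AffFlow.inv' (h : AffFlow c) (s : ℝ) (x : E) : c s (c (-s) x) = x := by
  rw [← h.add, add_neg_cancel, h.zero]

/-- the velocity is pushed forward by the flow -/
theorem AffFlow.push (h : AffFlow c) {s : ℝ} {L : E →ₗ[ℝ] E} {b : E} (hL : ∀ x, c s x = L x + b)
    (x : E) : velocity c (c s x) = L (velocity c x) := by
  have h1 := h.hasDerivAt0 x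
  have h0 : c 0 x = x := h.zero x
  have h2 : HasDerivAt (fun t => c s (c t x)) (LinearMap.toContinuousLinearMap L (velocity c x)) 0 :=
    (hasFDerivAt_aff hL (c 0 x)).comp_hasDerivAt (0 : ℝ) h1
  have h3 := h.hasDerivAt0 (c s x)
  have h4 : (fun t => c s (c t x)) = fun t => c t (c s x) := by
    funext t
    rw [← h.add, ← h.add, add_comm]
  rw [h4] at h2
  exact h3.unique h2

theorem AffFlow.fixed (h : AffFlow c) {x : E} (hx : velocity c x = 0) (s : ℝ) : c s x = x := by
  have h1 : ∀ s, HasDerivAt (fun s => c s x) 0 s := by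
    intro s
    obtain ⟨L, b, hL⟩ := h.aff s
    have h2 := h.hasDerivAt s x
    rw [h.push hL, hx, map_zero] at h2
    exact h2
  have h2 := is_const_of_deriv_eq_zero (f := fun s => c s x) (fun s => (h1 s).differentiableAt)
    (fun s => (h1 s).deriv) s 0
  simp only [h.zero] at h2
  exact h2

/-- the velocity is an affine vector field -/
theorem AffFlow.velocity_aff (h : AffFlow c) : IsAff (velocity c) := by
  have hadd : ∀ x y, velocity c (x + y) - velocity c 0 =
      (velocity c x - velocity c 0) + (velocity c y - velocity c 0) := by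
    intro x y
    have h1 := (h.hasDerivAt0 (x + y)).sub (h.hasDerivAt0 0)
    have h2 := ((h.hasDerivAt0 x).sub (h.hasDerivAt0 0)).add
      ((h.hasDerivAt0 y).sub (h.hasDerivAt0 0))
    refine h1.unique ?_
    convert h2 using 1
    funext s
    obtain ⟨L, b, hL⟩ := h.aff s
    simp only [Pi.sub_apply, Pi.add_apply, hL, map_add, map_zero]
    abel
  have hsmul : ∀ (r : ℝ) x, velocity c (r • x) - velocity c 0 =
      r • (velocity c x - velocity c 0) := by
    intro r x
    have h1 := (h.hasDerivAt0 (r • x)).sub (h.hasDerivAt0 0)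
    have h2 := ((h.hasDerivAt0 x).sub (h.hasDerivAt0 0)).const_smul r
    refine h1.unique ?_
    convert h2 using 1
    funext s
    obtain ⟨L, b, hL⟩ := h.aff s
    simp only [Pi.sub_apply, Pi.smul_apply, hL, map_smul, map_zero]
    module
  refine ⟨{ toFun := fun x => velocity c x - velocity c 0, map_add' := hadd, map_smul' := hsmul },
    velocity c 0, fun x => ?_⟩
  show velocity c x = velocity c x - velocity c 0 + velocity c 0
  abel

/-- a linear time function for a flow without fixed points -/
theorem AffFlow.exists_time (h : AffFlow c) (hfix : ∀ x, ∃ s, c s x ≠ x) :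
    ∃ ℓ : E →ₗ[ℝ] ℝ, (∀ s x, ℓ (c s x) = ℓ x + s) ∧ ∀ x, ℓ (velocity c x) = 1 := by
  obtain ⟨Λ, u, hΛ⟩ := h.velocity_aff
  have hu : u ∉ LinearMap.range Λ := by
    rintro ⟨x, hx⟩
    obtain ⟨s, hs⟩ := hfix (-x)
    apply hs
    apply h.fixed
    rw [hΛ, map_neg, hx, neg_add_cancel]
  obtain ⟨m, hm, hmΛ⟩ := Submodule.exists_le_ker_of_notMem hu
  have hm1 : ∀ x, m (velocity c x) = m u := by
    intro x
    have h1 : m (Λ x) = 0 := hmΛ ⟨x, rfl⟩
    rw [hΛ, map_add, h1, zero_add]
  have hv : ∀ x, ((m u)⁻¹ • m) (velocity c x) = 1 := by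
    intro x
    rw [LinearMap.smul_apply, hm1, smul_eq_mul, inv_mul_cancel₀ hm]
  refine ⟨(m u)⁻¹ • m, fun s x => ?_, hv⟩
  set ℓ := (m u)⁻¹ • m with hℓ
  have h2 : ∀ s, HasDerivAt (fun s => ℓ (c s x) - s) 0 s := by
    intro s
    have h3 : HasDerivAt (fun s => LinearMap.toContinuousLinearMap ℓ (c s x))
        (LinearMap.toContinuousLinearMap ℓ (velocity c (c s x))) s :=
      (LinearMap.toContinuousLinearMap ℓ).hasFDerivAt.comp_hasDerivAt s (h.hasDerivAt s x)
    have h4 : LinearMap.toContinuousLinearMap ℓ (velocity c (c s x)) = 1 := hv _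
    rw [h4] at h3
    have h5 := h3.sub (hasDerivAt_id s)
    rw [sub_self] at h5
    exact h5
  have h3 := is_const_of_deriv_eq_zero (f := fun s => ℓ (c s x) - s)
    (fun s => (h2 s).differentiableAt) (fun s => (h2 s).deriv) s 0
  simp only [h.zero, sub_zero] at h3
  linarith

end flow

section fix

variable {G E : Type} [Group G] [NormedAddCommGroup E] [NormedSpace ℝ E] [FiniteDimensional ℝ E]

/-- a nontrivial affine flow with orbits permuted by a crystallographic action has no fixed point -/
theorem no_fixed {a : G → E → E} (ha : Crys a) {c : ℝ → E → E} (hc : AffFlow c)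
    (hperm : ∀ g s x, SameOrbit c (a g x) (a g (c s x))) (hnt : ∃ s x, c s x ≠ x) (x : E) :
    ∃ s, c s x ≠ x := by
  by_contra hcon
  push Not at hcon
  obtain ⟨A, hA⟩ := ha.exists_rep
  subst hA
  have hact := ha.act
  -- translates of a fixed point are fixed
  have hfix : ∀ g s, c s (A g x) = A g x := by
    intro g s
    obtain ⟨t, ht⟩ := hperm g⁻¹ s (A g x)
    have h1 : actOf A g⁻¹ (A g x) = x := hact.inv_left g x
    rw [h1, hcon t] at ht
    have h2 := congrArg (actOf A g) ht
    rw [hact.inv_right] at h2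
    exact h2
  obtain ⟨f, hf, hfe, hfQ⟩ := exists_equivariant (A := A) (A' := A) ha.pd ha.cc
    (s := fun _ => x) contDiff_const
  have hfs : Function.Surjective f := equivariant_surjective ha.pd ha.cc hf hfe
  -- the image of `f` is fixed
  have hff : ∀ s y, c s (f y) = f y := by
    intro s y
    obtain ⟨L, b, hL⟩ := hc.aff s
    obtain ⟨M, hM⟩ := (hc.aff s).exists_map
    have h1 := hfQ E (M - AffineMap.id ℝ E) (fun _ => 0) (fun g z => by
      show M (A g⁻¹ x) - A g⁻¹ x = 0
      rw [hM, hfix, sub_self]) y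
    have h2 : M (f y) - f y = 0 := h1
    rw [hM] at h2
    exact sub_eq_zero.1 h2
  obtain ⟨s, y, hy⟩ := hnt
  obtain ⟨z, rfl⟩ := hfs y
  exact hy (hff s z)

end fix

end Pool.Agent.Run7.h816
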