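import Pool.Agent.Run7.h816.Flow

/-! Rigidity over the orbit space of an affine flow. -/

set_option autoImplicit false

open Set Filter Topology Metric
open scoped ContDiff

namespace Pool.Agent.Run7.h816

section box

variable {E : Type} [NormedAddCommGroup E] [NormedSpace ℝ E] [FiniteDimensional ℝ E]
  {c : ℝ → E → E}

/-- the projection to the orbit space, realised as a linear hyperplane -/
theorem flow_box (hc : AffFlow c) {ℓ : E →ₗ[ℝ] ℝ} (hℓ : ∀ s x, ℓ (c s x) = ℓ x + s) :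
    ∃ B : E → LinearMap.ker ℓ, ContDiff ℝ ∞ B ∧ (∀ x, (B x : E) = c (-ℓ x) x) ∧
      (∀ s x, B (c s x) = B x) ∧ (∀ x y, B x = B y → SameOrbit c x y) ∧
      ∀ q : LinearMap.ker ℓ, B q = q := by
  obtain ⟨pr, hpr⟩ := LinearMap.exists_leftInverse_of_injective (LinearMap.ker ℓ).subtype
    (LinearMap.ker ℓ).ker_subtype
  have hpr' : ∀ q : LinearMap.ker ℓ, pr (q : E) = q := fun q =>
    congrArg (fun M : LinearMap.ker ℓ →ₗ[ℝ] LinearMap.ker ℓ => M q) hpr
  have hmem : ∀ x, c (-ℓ x) x ∈ LinearMap.ker ℓ := by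
    intro x
    rw [LinearMap.mem_ker, hℓ, add_neg_cancel]
  have hval : ∀ x, ((pr (c (-ℓ x) x) : LinearMap.ker ℓ) : E) = c (-ℓ x) x := by
    intro x
    have h1 := hpr' ⟨c (-ℓ x) x, hmem x⟩
    rw [h1]
  refine ⟨fun x => pr (c (-ℓ x) x), ?_, hval, ?_, ?_, ?_⟩
  · have h1 : ContDiff ℝ ∞ (fun x : E => (-ℓ x, x)) :=
      ((LinearMap.toContinuousLinearMap ℓ).contDiff.neg).prodMk contDiff_id
    exact (LinearMap.toContinuousLinearMap pr).contDiff.comp (hc.smooth.comp h1)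
  · intro s x
    show pr (c (-ℓ (c s x)) (c s x)) = pr (c (-ℓ x) x)
    rw [hℓ, ← hc.add]
    congr 2; ring
  · intro x y hxy
    have h1 : c (-ℓ x) x = c (-ℓ y) y := by
      have e : ((pr (c (-ℓ x) x) : LinearMap.ker ℓ) : E) = (pr (c (-ℓ y) y) : LinearMap.ker ℓ) :=
        congrArg Subtype.val hxy
      rwa [hval, hval] at e
    refine ⟨ℓ y - ℓ x, ?_⟩
    have h2 : c (ℓ y) (c (-ℓ y) y) = y := by rw [← hc.add, add_neg_cancel, hc.zero]
    calc y = c (ℓ y) (c (-ℓ y) y) := h2.symm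
      _ = c (ℓ y) (c (-ℓ x) x) := by rw [h1]
      _ = c (ℓ y - ℓ x) x := by rw [← hc.add, sub_eq_add_neg]
  · intro q
    show pr (c (-ℓ (q : E)) q) = q
    rw [LinearMap.mem_ker.1 q.2, neg_zero, hc.zero, hpr']

/-- the kernel of the derivative of the projection to the orbit space -/
theorem flow_box_deriv (hc : AffFlow c) {ℓ : E →ₗ[ℝ] ℝ} {B : E → LinearMap.ker ℓ}
    (hB : ContDiff ℝ ∞ B) (hBv : ∀ x, (B x : E) = c (-ℓ x) x) {y w : E}
    (hw : fderiv ℝ B y w = 0) : w = ℓ w • velocity c y := by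
  obtain ⟨L, b, hL⟩ := hc.aff (-ℓ y)
  set C : ℝ × E → E := fun q => c q.1 q.2 with hC
  have hCd : HasFDerivAt C (fderiv ℝ C (-ℓ y, y)) (-ℓ y, y) :=
    (hc.smooth.differentiable (by simp) _).hasFDerivAt
  set D := fderiv ℝ C (-ℓ y, y) with hD
  have hD1 : ∀ u, D (0, u) = L u := by
    intro u
    have h1 : HasFDerivAt (fun x : E => ((-ℓ y, x) : ℝ × E)) (ContinuousLinearMap.inr ℝ ℝ E) y :=
      hasFDerivAt_prodMk_right (-ℓ y) y
    have h2 := hCd.comp y h1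
    have h3 := h2.unique (hasFDerivAt_aff hL y)
    exact congrArg (fun M : E →L[ℝ] E => M u) h3
  have hD2 : D (1, 0) = velocity c (c (-ℓ y) y) := by
    have h1 : HasDerivAt (fun s : ℝ => ((s, y) : ℝ × E)) (1, 0) (-ℓ y) :=
      (hasDerivAt_id _).prodMk (hasDerivAt_const _ _)
    have h2 := hCd.comp_hasDerivAt (-ℓ y) h1
    exact h2.unique (hc.hasDerivAt (-ℓ y) y)
  have hD3 : D (-ℓ w, w) = L (w - ℓ w • velocity c y) := by
    have h1 : ((-ℓ w, w) : ℝ × E) = (-ℓ w) • ((1, 0) : ℝ × E) + (0, w) := by simp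
    rw [h1, map_add, map_smul, hD1, hD2, hc.push hL, map_sub, map_smul, neg_smul]; abel
  have h4 : HasFDerivAt (fun x : E => ((-ℓ x, x) : ℝ × E))
      ((-(LinearMap.toContinuousLinearMap ℓ)).prod (ContinuousLinearMap.id ℝ E)) y :=
    ((LinearMap.toContinuousLinearMap ℓ).hasFDerivAt.neg).prodMk (hasFDerivAt_id y)
  have h5 := HasFDerivAt.comp (f := fun x : E => ((-ℓ x, x) : ℝ × E)) (g := C) y hCd h4
  have h6 : HasFDerivAt B (fderiv ℝ B y) y := (hB.differentiable (by simp) y).hasFDerivAt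
  have h7 := ((LinearMap.ker ℓ).subtypeL).hasFDerivAt.comp y h6
  have h8 : ((LinearMap.ker ℓ).subtypeL : LinearMap.ker ℓ → E) ∘ B
      = C ∘ fun x : E => ((-ℓ x, x) : ℝ × E) := by
    funext x; exact hBv x
  rw [h8] at h7
  have h9 := congrArg (fun M : E →L[ℝ] E => M w) (h7.unique h5)
  have h10 : (0 : E) = D (-ℓ w, w) := by
    have h11 : ((LinearMap.ker ℓ).subtypeL (fderiv ℝ B y w) : E) = D (-ℓ w, w) := h9
    rw [hw, map_zero] at h11
    exact h11
  rw [hD3] at h10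
  have h12 : c (-ℓ y) (y + (w - ℓ w • velocity c y)) = c (-ℓ y) y := by
    rw [hL, hL, map_add, ← h10, add_zero]
  have h13 := congrArg (c (ℓ y)) h12
  have h14 : ∀ z, c (ℓ y) (c (-ℓ y) z) = z := by
    intro z; rw [← hc.add, add_neg_cancel, hc.zero]
  rw [h14, h14] at h13
  have h15 : w - ℓ w • velocity c y = 0 := by simpa using h13
  exact sub_eq_zero.1 h15

theorem finrank_ker_time {ℓ : E →ₗ[ℝ] ℝ} {v : E} (hv : ℓ v = 1) :
    Module.finrank ℝ (LinearMap.ker ℓ) + 1 = Module.finrank ℝ E := by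
  have h1 : Function.Surjective ℓ := by
    intro r
    exact ⟨r • v, by rw [map_smul, hv, smul_eq_mul, mul_one]⟩
  have h2 := LinearMap.finrank_range_add_finrank_ker ℓ
  rw [LinearMap.range_eq_top.2 h1, finrank_top, Module.finrank_self] at h2
  omega

end box

section main

variable {G E E' : Type} [Group G] [NormedAddCommGroup E] [NormedSpace ℝ E]
  [FiniteDimensional ℝ E] [NormedAddCommGroup E'] [NormedSpace ℝ E'] [FiniteDimensional ℝ E']

theorem SameOrbit.symm {c : ℝ → E → E} (hc : AffFlow c) {x y : E} (h : SameOrbit c x y) :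
    SameOrbit c y x := by
  obtain ⟨s, rfl⟩ := h
  exact ⟨-s, (hc.inv s x).symm⟩

theorem SameOrbit.trans {c : ℝ → E → E} (hc : AffFlow c) {x y z : E} (h : SameOrbit c x y)
    (h' : SameOrbit c y z) : SameOrbit c x z := by
  obtain ⟨s, rfl⟩ := h
  obtain ⟨t, rfl⟩ := h'
  exact ⟨t + s, by rw [hc.add]⟩

theorem flow_rigid (hdim : Module.finrank ℝ E = Module.finrank ℝ E')
    {a : G → E → E} (ha : Crys a) {a' : G → E' → E'} (ha' : Crys a')
    {c : ℝ → E → E} (hc : AffFlow c) (hperm : ∀ g s x, SameOrbit c (a g x) (a g (c s x)))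
    (hnt : ∃ s x, c s x ≠ x)
    {c' : ℝ → E' → E'} (hc' : AffFlow c')
    (hperm' : ∀ g s x, SameOrbit c' (a' g x) (a' g (c' s x))) (hnt' : ∃ s x, c' s x ≠ x)
    {h : E → E'} (hh : ContDiff ℝ ∞ h) (h1 : ∀ s x, SameOrbit c' (h x) (h (c s x)))
    (h2 : ∀ g x, SameOrbit c' (a' g (h x)) (h (a g x)))
    (h3 : ∀ (x u : E) (r : ℝ), fderiv ℝ h x u = r • velocity c' (h x) →
      ∃ r' : ℝ, u = r' • velocity c x) :
    ∃ f : E ≃ E', EquivDiffeo a a' f ∧ ∀ x, SameOrbit c' (h x) (f x) := by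
  obtain ⟨ℓ, hℓ, hℓv⟩ := hc.exists_time (no_fixed ha hc hperm hnt)
  obtain ⟨ℓ', hℓ', hℓv'⟩ := hc'.exists_time (no_fixed ha' hc' hperm' hnt')
  obtain ⟨B, hB, hBv, hBc, hBo, hBq⟩ := flow_box hc hℓ
  obtain ⟨B', hB', hBv', hBc', hBo', hBq'⟩ := flow_box hc' hℓ'
  have hBo2 : ∀ x y, SameOrbit c x y → B x = B y := by
    rintro x y ⟨s, rfl⟩; rw [hBc]
  have hBo2' : ∀ x y, SameOrbit c' x y → B' x = B' y := by
    rintro x y ⟨s, rfl⟩; rw [hBc']
  have hBself : ∀ x, SameOrbit c x (B x) := fun x => ⟨-ℓ x, hBv x⟩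
  have hBself' : ∀ x, SameOrbit c' x (B' x) := fun x => ⟨-ℓ' x, hBv' x⟩
  -- the flow boxes
  set Θ : E → LinearMap.ker ℓ × ℝ := fun x => (B x, ℓ x) with hΘ
  set Θi : LinearMap.ker ℓ × ℝ → E := fun y => c y.2 y.1 with hΘi
  set Θ' : E' → LinearMap.ker ℓ' × ℝ := fun x => (B' x, ℓ' x) with hΘ'
  set Θi' : LinearMap.ker ℓ' × ℝ → E' := fun y => c' y.2 y.1 with hΘi'
  have hΘs : ContDiff ℝ ∞ Θ := hB.prodMk (LinearMap.toContinuousLinearMap ℓ).contDiff
  have hΘs' : ContDiff ℝ ∞ Θ' := hB'.prodMk (LinearMap.toContinuousLinearMap ℓ').contDiff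
  have hΘis : ContDiff ℝ ∞ Θi := hc.smooth.comp
    (contDiff_snd.prodMk ((LinearMap.ker ℓ).subtypeL.contDiff.comp contDiff_fst))
  have hΘis' : ContDiff ℝ ∞ Θi' := hc'.smooth.comp
    (contDiff_snd.prodMk ((LinearMap.ker ℓ').subtypeL.contDiff.comp contDiff_fst))
  have hl : ∀ x, Θi (Θ x) = x := by
    intro x
    show c (ℓ x) (B x : E) = x
    rw [hBv, ← hc.add, add_neg_cancel, hc.zero]
  have hl' : ∀ x, Θi' (Θ' x) = x := by
    intro x
    show c' (ℓ' x) (B' x : E') = x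
    rw [hBv', ← hc'.add, add_neg_cancel, hc'.zero]
  have hr : ∀ y, Θ (Θi y) = y := by
    rintro ⟨q, s⟩
    show (B (c s q), ℓ (c s (q : E))) = (q, s)
    rw [hBc, hBq, hℓ, LinearMap.mem_ker.1 q.2, zero_add]
  have hr' : ∀ y, Θ' (Θi' y) = y := by
    rintro ⟨q, s⟩
    show (B' (c' s q), ℓ' (c' s (q : E'))) = (q, s)
    rw [hBc', hBq', hℓ', LinearMap.mem_ker.1 q.2, zero_add]
  -- the actions
  have hsm : ∀ g, ContDiff ℝ ∞ (a g) := fun g => (ha.aff g).smooth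
  have hsm' : ∀ g, ContDiff ℝ ∞ (a' g) := fun g => (ha'.aff g).smooth
  have A1 := ha.act.conj hl hr
  have A1' := ha'.act.conj hl' hr'
  have S1 : ∀ g, ContDiff ℝ ∞ (fun y => Θ (a g (Θi y))) := fun g => hΘs.comp ((hsm g).comp hΘis)
  have S1' : ∀ g, ContDiff ℝ ∞ (fun y => Θ' (a' g (Θi' y))) :=
    fun g => hΘs'.comp ((hsm' g).comp hΘis')
  have P1 := ha.pd.conj (Θ := Θ) hΘis.continuous hl
  have P1' := ha'.pd.conj (Θ := Θ') hΘis'.continuous hl'
  have C1 := ha.cc.conj (Θi := Θi) hΘs.continuous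
  have C1' := ha'.cc.conj (Θi := Θi') hΘs'.continuous
  have hb : ∀ g (x : LinearMap.ker ℓ × ℝ), (Θ (a g (Θi x))).1 = B (a g x.1) := by
    rintro g ⟨q, s⟩
    show B (a g (c s q)) = B (a g q)
    exact (hBo2 _ _ (hperm g s q)).symm
  have hb' : ∀ g (x : LinearMap.ker ℓ' × ℝ), (Θ' (a' g (Θi' x))).1 = B' (a' g x.1) := by
    rintro g ⟨q, s⟩
    show B' (a' g (c' s q)) = B' (a' g q)
    exact (hBo2' _ _ (hperm' g s q)).symm
  -- the base map
  set ψ : LinearMap.ker ℓ → LinearMap.ker ℓ' := fun q => B' (h q) with hψ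
  have hψs : ContDiff ℝ ∞ ψ := hB'.comp (hh.comp (LinearMap.ker ℓ).subtypeL.contDiff)
  have hhB : ∀ x y, SameOrbit c x y → B' (h x) = B' (h y) := by
    rintro x y ⟨s, rfl⟩
    exact hBo2' _ _ (h1 s x)
  have haB : ∀ g x y, SameOrbit c' x y → B' (a' g x) = B' (a' g y) := by
    rintro g x y ⟨s, rfl⟩
    exact hBo2' _ _ (hperm' g s x)
  have hψe : ∀ g (q : LinearMap.ker ℓ), ψ (B (a g q)) = B' (a' g (ψ q)) := by
    intro g q
    show B' (h (B (a g q))) = B' (a' g (B' (h q)))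
    rw [← hhB _ _ (hBself (a g q)), ← haB g _ _ (hBself' (h q))]
    exact (hBo2' _ _ (h2 g q)).symm
  have hψd : ∀ q, Function.Bijective (fderiv ℝ ψ q) := by
    intro q
    have e1 : HasFDerivAt B' (fderiv ℝ B' (h q)) (h q) :=
      (hB'.differentiable (by simp) _).hasFDerivAt
    have e2 : HasFDerivAt h (fderiv ℝ h q) (q : E) := (hh.differentiable (by simp) _).hasFDerivAt
    have e3 : HasFDerivAt (fun q : LinearMap.ker ℓ => (q : E)) (LinearMap.ker ℓ).subtypeL q :=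
      (LinearMap.ker ℓ).subtypeL.hasFDerivAt
    have e4 : HasFDerivAt ψ ((fderiv ℝ B' (h q)).comp ((fderiv ℝ h q).comp
      (LinearMap.ker ℓ).subtypeL)) q := e1.comp q (e2.comp q e3)
    have hinj : Function.Injective (fderiv ℝ ψ q) := by
      rw [injective_iff_map_eq_zero]
      intro v hv
      rw [e4.fderiv] at hv
      have hv' : fderiv ℝ B' (h q) (fderiv ℝ h q (v : E)) = 0 := hv
      have e5 := flow_box_deriv hc' hB' hBv' hv'
      obtain ⟨r', hr'⟩ := h3 q v _ e5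
      have e6 : ℓ (v : E) = 0 := LinearMap.mem_ker.1 v.2
      rw [hr', map_smul, hℓv, smul_eq_mul, mul_one] at e6
      rw [e6, zero_smul] at hr'
      exact Subtype.ext hr'
    have e7 := finrank_ker_time (hℓv 0)
    have e8 := finrank_ker_time (hℓv' 0)
    have hrank : Module.finrank ℝ (LinearMap.ker ℓ) = Module.finrank ℝ (LinearMap.ker ℓ') := by
      omega
    exact ⟨hinj, (LinearMap.injective_iff_surjective_of_finrank_eq_finrank
      (f := (fderiv ℝ ψ q : LinearMap.ker ℓ →ₗ[ℝ] LinearMap.ker ℓ')) hrank).1 hinj⟩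
  obtain ⟨F, Fi, hF, hFi, hFl, hFr, hF1, hFe⟩ := line_rigid A1 A1' S1 S1' P1 C1 P1' C1'
    (b := fun g q => B (a g q)) (b' := fun g q => B' (a' g q)) hb hb' hψs hψd hψe
  refine pack (f := fun x => Θi' (F (Θ x))) (fi := fun y => Θi (Fi (Θ' y)))
    (P := fun f => ∀ x, SameOrbit c' (h x) (f x))
    (hΘis'.comp (hF.comp hΘs)) (hΘis.comp (hFi.comp hΘs')) ?_ ?_ ?_ ?_
  · intro x; simp only [hr', hFl, hl]
  · intro y; simp only [hr, hFr, hl']
  · intro g x
    have e1 := hFe g (Θ x)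
    simp only [hl] at e1
    simp only [e1, hl']
  · intro x
    apply hBo'
    have e1 : B' (Θi' (F (Θ x))) = (F (Θ x)).1 := by
      have := congrArg Prod.fst (hr' (F (Θ x)))
      exact this
    rw [e1, hF1]
    exact hhB _ _ (hBself x)

end main

end Pool.Agent.Run7.h816
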