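import Pool.Agent.Run7.h816.Main
import Pool.Agent.Run7.h816.Defs

/-! Translation between the definitions used in the statements and representations. -/

set_option autoImplicit false

open Set Filter Topology Metric
open scoped ContDiff

namespace Pool.Agent.Run7.h816

section frame

variable {G E E' Q : Type} [Group G] [NormedAddCommGroup E] [NormedSpace ℝ E]
  [NormedAddCommGroup E'] [NormedSpace ℝ E'] [NormedAddCommGroup Q] [NormedSpace ℝ Q]

theorem IsAff.exists_map {f : E → Q} (h : IsAff f) : ∃ F : E →ᵃ[ℝ] Q, ∀ x, F x = f x := by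
  obtain ⟨L, c, h⟩ := h
  exact ⟨L.toAffineMap + AffineMap.const ℝ E c, fun x => (h x).symm⟩

theorem AffCrystal.act {a : G → E → E} (h : AffCrystal a) : IsAct a := ⟨h.one, h.mul⟩

/-- a properly discontinuous cocompact action by affine maps, possibly not faithful -/
structure Crys (a : G → E → E) : Prop where
  act : IsAct a
  aff : ∀ g, IsAff (a g)
  pd : PD a
  cc : CC a

theorem AffCrystal.crys {a : G → E → E} (h : AffCrystal a) : Crys a :=
  ⟨h.act, h.aff, h.proper, h.cocompact⟩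

theorem Crys.exists_rep {a : G → E → E} (h : Crys a) :
    ∃ A : G →* (E ≃ᵃ[ℝ] E), actOf A = a := by
  choose F hF using fun g => (h.aff g).exists_map
  have hF' : ∀ g, (F g : E → E) = a g := fun g => funext (hF g)
  have hbij : ∀ g, Function.Bijective (F g) := by
    intro g
    rw [hF']
    exact ⟨h.act.injective g, fun x => ⟨a g⁻¹ x, h.act.inv_right g x⟩⟩
  let e : G → (E ≃ᵃ[ℝ] E) := fun g => AffineEquiv.ofBijective (hbij g)
  have he : ∀ g x, e g x = a g x := fun g x => hF g x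
  refine ⟨{ toFun := e, map_one' := ?_, map_mul' := ?_ }, ?_⟩
  · ext x
    rw [he, h.act.one]; rfl
  · intro g k
    ext x
    rw [he, h.act.mul]
    show a g (a k x) = e g (e k x)
    rw [he, he]
  · funext g x
    exact he g x

theorem AffCrystal.exists_rep {a : G → E → E} (h : AffCrystal a) :
    ∃ A : G →* (E ≃ᵃ[ℝ] E), actOf A = a := h.crys.exists_rep

theorem rep_inj {a : G → E → E} (h : AffCrystal a) {A : G →* (E ≃ᵃ[ℝ] E)} (hA : actOf A = a) :
    Function.Injective A := by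
  rw [injective_iff_map_eq_one]
  intro g hg
  apply h.faithful
  intro x
  rw [← hA]
  show A g x = x
  rw [hg]; rfl

theorem AffCrystal.pd {a : G → E → E} (h : AffCrystal a) : PD a := h.proper

theorem AffCrystal.cc {a : G → E → E} (h : AffCrystal a) : CC a := h.cocompact

/-- packing a diffeomorphism -/
theorem pack {a : G → E → E} {a' : G → E' → E'} {f : E → E'} {fi : E' → E} (hf : ContDiff ℝ ∞ f)
    (hfi : ContDiff ℝ ∞ fi) (hl : ∀ x, fi (f x) = x) (hr : ∀ y, f (fi y) = y)
    (he : ∀ g x, f (a g x) = a' g (f x)) {P : (E → E') → Prop} (hP : P f) :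
    ∃ f : E ≃ E', EquivDiffeo a a' f ∧ P f :=
  ⟨⟨f, fi, hl, hr⟩, ⟨hf, hfi, he⟩, hP⟩

end frame

section crystal

variable {G E E' Q Q' : Type} [Group G] [NormedAddCommGroup E] [NormedSpace ℝ E]
  [FiniteDimensional ℝ E] [NormedAddCommGroup E'] [NormedSpace ℝ E'] [FiniteDimensional ℝ E']
  [NormedAddCommGroup Q] [NormedSpace ℝ Q] [FiniteDimensional ℝ Q]
  [NormedAddCommGroup Q'] [NormedSpace ℝ Q'] [FiniteDimensional ℝ Q']

theorem crystal_rigid (hdim : Module.finrank ℝ E = Module.finrank ℝ E')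
    {a : G → E → E} (ha : AffCrystal a) {a' : G → E' → E'} (ha' : AffCrystal a')
    {p : E → Q} {ρ : G → Q → Q} (hp : AffFib a p ρ)
    {p' : E' → Q'} {ρ' : G → Q' → Q'} (hp' : AffFib a' p' ρ')
    {T : Subgroup G} (hTn : T.Normal) (hT : TransAlong a p T) (hT' : TransAlong a' p' T)
    (hrank : Module.finrank ℝ E ≤ Module.finrank ℝ Q + Module.finrank ℝ (transSpan a T) + 1)
    {ψ : Q → Q'} (hψ : ContDiff ℝ ∞ ψ) (hψd : ∀ q, Function.Bijective (fderiv ℝ ψ q))
    (hψe : ∀ g q, ψ (ρ g q) = ρ' g (ψ q)) :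
    ∃ f : E ≃ E', EquivDiffeo a a' f ∧ ∀ x, p' (f x) = ψ (p x) := by
  have := hTn
  obtain ⟨A, hA⟩ := ha.exists_rep
  obtain ⟨A', hA'⟩ := ha'.exists_rep
  have hAi := rep_inj ha hA
  have hAi' := rep_inj ha' hA'
  subst hA
  subst hA'
  obtain ⟨P, hP⟩ := hp.aff.exists_map
  obtain ⟨P', hP'⟩ := hp'.aff.exists_map
  have hPf : (P : E → Q) = p := funext hP
  have hPf' : (P' : E' → Q') = p' := funext hP'
  subst hPf
  subst hPf'
  have hT1 : ∀ t ∈ T, ∃ v, ∀ x : E, A t x = x + v := by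
    intro t ht
    obtain ⟨v, hv⟩ := hT t ht
    exact ⟨v, fun x => (hv x).1⟩
  have hT1' : ∀ t ∈ T, ∃ v, ∀ x : E', A' t x = x + v := by
    intro t ht
    obtain ⟨v, hv⟩ := hT' t ht
    exact ⟨v, fun x => (hv x).1⟩
  have hTp : ∀ t ∈ T, ∀ x : E, P (A t x) = P x := by
    intro t ht x
    obtain ⟨v, hv⟩ := hT t ht
    have h1 : A t x = x + v := (hv x).1
    rw [h1, (hv x).2]
  have hTp' : ∀ t ∈ T, ∀ x : E', P' (A' t x) = P' x := by
    intro t ht x
    obtain ⟨v, hv⟩ := hT' t ht
    have h1 : A' t x = x + v := (hv x).1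
    rw [h1, (hv x).2]
  have hrk : Module.finrank ℝ (LinearMap.ker P.linear) ≤
      Module.finrank ℝ (Submodule.span ℝ (trans A T)) + 1 := by
    have hs1 : Function.Surjective P.linear := (AffineMap.linear_surjective_iff P).2 hp.surj
    have h1 := LinearMap.finrank_range_add_finrank_ker P.linear
    rw [LinearMap.range_eq_top.2 hs1, finrank_top] at h1
    have h2 : Module.finrank ℝ (transSpan (actOf A) T) =
      Module.finrank ℝ (Submodule.span ℝ (trans A T)) := rfl
    omega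
  obtain ⟨f, fi, h1, h2, h3, h4, h5, h6⟩ := main_rigid hAi hAi' ha.pd ha.cc ha'.pd ha'.cc hdim
    (T := T) hT1 hT1' hp.surj hp'.surj hTp hTp' hp.equiv hp'.equiv hrk hψ hψd hψe
  exact pack (P := fun f => ∀ x, P' (f x) = ψ (P x)) h1 h2 h3 h4 h6 h5

end crystal

end Pool.Agent.Run7.h816
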