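import Pool.Agent.Run7.h816.Line

/-! The translations in a properly discontinuous group of affine transformations. -/

set_option autoImplicit false

open Set Filter Topology Metric
open scoped ContDiff

namespace Pool.Agent.Run7.h816

section lattice

variable {G E : Type} [Group G] [NormedAddCommGroup E] [NormedSpace ℝ E] [FiniteDimensional ℝ E]

/-- the action map of a representation by affine transformations -/
def actOf (A : G →* (E ≃ᵃ[ℝ] E)) (g : G) (x : E) : E := A g x

theorem actOf_act (A : G →* (E ≃ᵃ[ℝ] E)) : IsAct (actOf A) where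
  one := by intro x; simp [actOf]
  mul := by intro g h x; simp [actOf]

theorem actOf_continuous (A : G →* (E ≃ᵃ[ℝ] E)) (g : G) : Continuous (actOf A g) :=
  (A g : E →ᵃ[ℝ] E).continuous_of_finiteDimensional

theorem actOf_contDiff (A : G →* (E ≃ᵃ[ℝ] E)) (g : G) : ContDiff ℝ ∞ (actOf A g) := by
  have h1 : actOf A g = fun x => (A g).linear x + A g 0 := by
    funext x
    have := (A g).map_vadd 0 x
    simpa [actOf] using this
  rw [h1]
  exact ((LinearMap.toContinuousLinearMap ((A g).linear : E →ₗ[ℝ] E)).contDiff).add contDiff_const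

theorem aff_apply {E' : Type} [NormedAddCommGroup E'] [NormedSpace ℝ E'] (f : E →ᵃ[ℝ] E') (x : E) :
    f x = f.linear x + f 0 := by
  have := f.map_vadd 0 x
  simpa using this

theorem affe_apply (f : E ≃ᵃ[ℝ] E) (x : E) : f x = f.linear x + f 0 := by
  have := f.map_vadd 0 x
  simpa using this

theorem affe_add (f : E ≃ᵃ[ℝ] E) (x v : E) : f (x + v) = f x + f.linear v := by
  rw [affe_apply f (x + v), affe_apply f x, map_add]; abel

/-- the vectors of the translations in the subgroup `T` -/
def trans (A : G →* (E ≃ᵃ[ℝ] E)) (T : Subgroup G) : Set E := {v | ∃ t ∈ T, ∀ x, A t x = x + v}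

theorem trans_add {A : G →* (E ≃ᵃ[ℝ] E)} {T : Subgroup G} {v w : E} (hv : v ∈ trans A T)
    (hw : w ∈ trans A T) : v + w ∈ trans A T := by
  obtain ⟨t, ht, h1⟩ := hv
  obtain ⟨s, hs, h2⟩ := hw
  refine ⟨s * t, T.mul_mem hs ht, fun x => ?_⟩
  rw [map_mul]
  show A s (A t x) = _
  rw [h1, h2, add_assoc]

theorem trans_zero {A : G →* (E ≃ᵃ[ℝ] E)} {T : Subgroup G} : (0 : E) ∈ trans A T :=
  ⟨1, T.one_mem, fun x => by simp⟩

theorem trans_neg {A : G →* (E ≃ᵃ[ℝ] E)} {T : Subgroup G} {v : E} (hv : v ∈ trans A T) :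
    -v ∈ trans A T := by
  obtain ⟨t, ht, h1⟩ := hv
  refine ⟨t⁻¹, T.inv_mem ht, fun x => ?_⟩
  have h2 : A t (x + -v) = x := by rw [h1]; abel
  have h3 : A t⁻¹ (A t (x + -v)) = x + -v := by
    show (A t⁻¹ * A t) (x + -v) = _
    rw [← map_mul]; simp
  rw [h2] at h3; exact h3

/-- the lattice inside its span -/
def lat (A : G →* (E ≃ᵃ[ℝ] E)) (T : Subgroup G) :
    Submodule ℤ (Submodule.span ℝ (trans A T)) where
  carrier := {v | (v : E) ∈ trans A T}
  add_mem' := fun hv hw => trans_add hv hw
  zero_mem' := trans_zero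
  smul_mem' := by
    intro c x hx
    show ((c • x : Submodule.span ℝ (trans A T)) : E) ∈ trans A T
    have hn : ∀ n : ℕ, ((n • x : Submodule.span ℝ (trans A T)) : E) ∈ trans A T := by
      intro n
      induction n with
      | zero => simpa using trans_zero
      | succ n ih => rw [succ_nsmul]; exact trans_add ih hx
    obtain ⟨n, rfl | rfl⟩ := c.eq_nat_or_neg
    · simpa using hn n
    · have := trans_neg (hn n)
      simpa using this

theorem finite_trans {A : G →* (E ≃ᵃ[ℝ] E)} (hPD : PD (actOf A)) (T : Subgroup G) (R : ℝ) :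
    (trans A T ∩ closedBall 0 R).Finite := by
  rcases lt_or_ge R 0 with hR | hR
  · rw [closedBall_eq_empty.2 hR, inter_empty]; exact finite_empty
  have hfin := hPD _ (isCompact_closedBall (0 : E) R)
  refine (hfin.image (fun g => A g 0)).subset ?_
  rintro v ⟨⟨t, ht, h1⟩, hv⟩
  have h2 : A t 0 = v := by rw [h1, zero_add]
  refine ⟨t, ⟨0, mem_closedBall_self hR, ?_⟩, h2⟩
  show A t 0 ∈ _
  rw [h2]; exact hv

theorem discrete_lat {A : G →* (E ≃ᵃ[ℝ] E)} (hPD : PD (actOf A)) (T : Subgroup G) :
    DiscreteTopology (lat A T) := by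
  apply discreteTopology_of_isOpen_singleton_zero
  have hfin := finite_trans hPD T 1
  have hfin2 : ((trans A T ∩ closedBall 0 1) \ {0}).Finite := hfin.subset sdiff_subset
  have hcl : IsClosed ((trans A T ∩ closedBall (0 : E) 1) \ {0}) := hfin2.isClosed
  have hopen : IsOpen (((trans A T ∩ closedBall (0 : E) 1) \ {0})ᶜ ∩ ball 0 1) :=
    hcl.isOpen_compl.inter isOpen_ball
  have hcont : Continuous (fun v : lat A T => ((v : Submodule.span ℝ (trans A T)) : E)) :=
    continuous_subtype_val.comp continuous_subtype_val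
  have h1 := hopen.preimage hcont
  convert h1 using 1
  ext v
  simp only [mem_singleton_iff, mem_preimage, mem_inter_iff, mem_compl_iff, Set.mem_sdiff, not_and,
    not_not, mem_ball, dist_zero_right]
  constructor
  · rintro rfl
    simp
  · rintro ⟨h2, h3⟩
    have h4 := h2 ⟨v.2, by rw [mem_closedBall, dist_zero_right]; exact h3.le⟩
    exact Subtype.ext (Subtype.ext h4)

theorem span_lat (A : G →* (E ≃ᵃ[ℝ] E)) (T : Subgroup G) :
    Submodule.span ℝ (lat A T : Set (Submodule.span ℝ (trans A T))) = ⊤ := by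
  have h1 : (lat A T : Set (Submodule.span ℝ (trans A T))) = (Subtype.val ⁻¹' (trans A T)) := rfl
  rw [h1]
  exact Submodule.span_span_coe_preimage

/-- a basis of the span which is an integral basis of the translations -/
theorem exists_lat_basis {A : G →* (E ≃ᵃ[ℝ] E)} (hPD : PD (actOf A)) (T : Subgroup G) :
    ∃ (ι : Type) (_ : Fintype ι) (b : Module.Basis ι ℝ (Submodule.span ℝ (trans A T))),
      (∀ i, (b i : E) ∈ trans A T) ∧
      ∀ v ∈ trans A T, ∃ c : ι → ℤ, v = ∑ i, c i • (b i : E) := by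
  have hd : DiscreteTopology (lat A T) := discrete_lat hPD T
  have hz : IsZLattice ℝ (lat A T) := ⟨span_lat A T⟩
  have hfree : Module.Free ℤ (lat A T) := inferInstance
  have hfin : Module.Finite ℤ (lat A T) := inferInstance
  let b0 := Module.Free.chooseBasis ℤ (lat A T)
  refine ⟨_, inferInstance, b0.ofZLatticeBasis ℝ (lat A T), fun i => ?_, fun v hv => ?_⟩
  · rw [Module.Basis.ofZLatticeBasis_apply]
    exact (b0 i).2
  · let v' : lat A T := ⟨⟨v, Submodule.subset_span hv⟩, hv⟩
    refine ⟨fun i => b0.repr v' i, ?_⟩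
    have h1 := b0.sum_repr v'
    have h2 := congrArg (fun z : lat A T => ((z : Submodule.span ℝ (trans A T)) : E)) h1
    simp only [Submodule.coe_sum, Submodule.coe_smul] at h2
    have h3 : ((v' : Submodule.span ℝ (trans A T)) : E) = v := rfl
    rw [h3] at h2
    rw [← h2]
    refine Finset.sum_congr rfl fun i _ => ?_
    rw [Module.Basis.ofZLatticeBasis_apply]
    exact map_zsmul (Submodule.subtype (Submodule.span ℝ (trans A T))) _ _

/-- every vector of the span is the sum of a translation and a bounded vector -/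
theorem exists_bounded_rep {A : G →* (E ≃ᵃ[ℝ] E)} (hPD : PD (actOf A)) (T : Subgroup G) :
    ∃ R : ℝ, ∀ v ∈ Submodule.span ℝ (trans A T), ∃ w ∈ trans A T, ‖v - w‖ ≤ R := by
  obtain ⟨ι, _, b, hb, -⟩ := exists_lat_basis hPD T
  refine ⟨∑ i, ‖b i‖, fun v hv => ?_⟩
  have h1 := ZSpan.norm_fract_le b ⟨v, hv⟩
  refine ⟨((ZSpan.floor b ⟨v, hv⟩ : Submodule.span ℝ (trans A T)) : E), ?_, ?_⟩
  · have h2 : Submodule.span ℤ (Set.range b) ≤ lat A T := by
      rw [Submodule.span_le]
      rintro _ ⟨i, rfl⟩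
      exact hb i
    exact h2 (ZSpan.floor b ⟨v, hv⟩).2
  · rw [ZSpan.fract_apply] at h1
    exact h1

end lattice

end Pool.Agent.Run7.h816
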