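import Pool.Agent.Run7.h816.Straight

/-! Two smooth actions on `F × ℝ` and `F' × ℝ` which preserve the lines are conjugate as soon as the
actions on the spaces of lines are related by an equivariant local diffeomorphism. -/

set_option autoImplicit false

open Set Filter Topology Metric
open scoped ContDiff

namespace Pool.Agent.Run7.h816

section conj

variable {G X Y : Type*} [Group G] [TopologicalSpace X] [TopologicalSpace Y]

theorem IsAct.conj {a : G → X → X} (h : IsAct a) {Θ : X → Y} {Θi : Y → X}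
    (hl : ∀ x, Θi (Θ x) = x) (hr : ∀ y, Θ (Θi y) = y) : IsAct (fun g y => Θ (a g (Θi y))) where
  one := by intro y; rw [h.one, hr]
  mul := by intro g k y; rw [hl, h.mul]

theorem PD.conj {a : G → X → X} (h : PD a) {Θ : X → Y} {Θi : Y → X} (hc : Continuous Θi)
    (hl : ∀ x, Θi (Θ x) = x) : PD (fun g y => Θ (a g (Θi y))) := by
  intro K hK
  refine (h _ (hK.image hc)).subset ?_
  rintro g ⟨y, hy, hy'⟩
  refine ⟨Θi y, mem_image_of_mem _ hy, ?_⟩
  rw [← hl (a g (Θi y))]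
  exact mem_image_of_mem _ hy'

theorem CC.conj {a : G → X → X} (h : CC a) {Θ : X → Y} {Θi : Y → X} (hc : Continuous Θ) :
    CC (fun g y => Θ (a g (Θi y))) := by
  obtain ⟨K, hK, hKc⟩ := h
  refine ⟨Θ '' K, hK.image hc, fun y => ?_⟩
  obtain ⟨g, hg⟩ := hKc (Θi y)
  exact ⟨g, mem_image_of_mem _ hg⟩

end conj

section line

variable {G F F' : Type} [Group G] [NormedAddCommGroup F] [NormedSpace ℝ F] [FiniteDimensional ℝ F]
  [NormedAddCommGroup F'] [NormedSpace ℝ F'] [FiniteDimensional ℝ F']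

/-- Rigidity over a common space of lines. -/
theorem line_rigid {a : G → F × ℝ → F × ℝ} {a' : G → F' × ℝ → F' × ℝ} (hact : IsAct a)
    (hact' : IsAct a') (hs : ∀ g, ContDiff ℝ ∞ (a g)) (hs' : ∀ g, ContDiff ℝ ∞ (a' g))
    (hPD : PD a) (hCC : CC a) (hPD' : PD a') (hCC' : CC a') {b : G → F → F} {b' : G → F' → F'}
    (hb : ∀ g x, (a g x).1 = b g x.1) (hb' : ∀ g x, (a' g x).1 = b' g x.1)
    {ψ : F → F'} (hψ : ContDiff ℝ ∞ ψ) (hψd : ∀ q, Function.Bijective (fderiv ℝ ψ q))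
    (hψe : ∀ g q, ψ (b g q) = b' g (ψ q)) :
    ∃ (f : F × ℝ → F' × ℝ) (fi : F' × ℝ → F × ℝ), ContDiff ℝ ∞ f ∧ ContDiff ℝ ∞ fi ∧
      (∀ x, fi (f x) = x) ∧ (∀ y, f (fi y) = y) ∧ (∀ x, (f x).1 = ψ x.1) ∧
      ∀ g x, f (a g x) = a' g (f x) := by
  obtain ⟨Θ, Θi, ε, β, hΘs, hΘis, hΘl, hΘr, hΘ1, -, hε, hnf⟩ := straighten hact hs hPD hCC hb
  obtain ⟨Θ', Θi', ε', β', hΘs', hΘis', hΘl', hΘr', hΘ1', -, hε', hnf'⟩ :=
    straighten hact' hs' hPD' hCC' hb'
  have hΘi1' : ∀ y, (Θi' y).1 = y.1 := by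
    intro y; rw [← hΘ1', hΘr']
  have A1 := hact.conj hΘl hΘr
  have A1' := hact'.conj hΘl' hΘr'
  have S1 : ∀ g, ContDiff ℝ ∞ (fun y => Θ (a g (Θi y))) := fun g => hΘs.comp ((hs g).comp hΘis)
  have S1' : ∀ g, ContDiff ℝ ∞ (fun y => Θ' (a' g (Θi' y))) :=
    fun g => hΘs'.comp ((hs' g).comp hΘis')
  have P1 := hPD.conj (Θ := Θ) hΘis.continuous hΘl
  have P1' := hPD'.conj (Θ := Θ') hΘis'.continuous hΘl'
  have C1 := hCC.conj (Θi := Θi) hΘs.continuous
  obtain ⟨f, D, hf, hf1, hfe, hfD, hD0⟩ := avg (a := fun g y => Θ (a g (Θi y)))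
    (a' := fun g y => Θ' (a' g (Θi' y))) A1 A1' S1 S1' P1 C1 P1' hε hnf
    (c' := fun g _ => ε' g) (fun g q s => hnf' g q s) hψ hψe
  have hfd := bijective_fderiv_of_triangular hf hψ hf1 hψd hfD hD0
  have hfb : Function.Bijective f := cover_bijective A1 (fun g => (S1 g).continuous) C1 P1'
    (isLocalHomeomorph_of_fderiv hf hfd) hfe
  obtain ⟨h, hh, hl, hr⟩ := exists_smooth_inverse hf hfd hfb
  refine ⟨fun x => Θi' (f (Θ x)), fun y => Θi (h (Θ' y)), hΘis'.comp (hf.comp hΘs),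
    hΘis.comp (hh.comp hΘs'), ?_, ?_, ?_, ?_⟩
  · intro x; simp only [hΘr', hl, hΘl]
  · intro y; simp only [hΘr, hr, hΘl']
  · intro x; simp only [hΘi1', hf1, hΘ1]
  · intro g x
    have h1 := hfe g (Θ x)
    simp only [hΘl] at h1
    simp only [h1, hΘl']

end line

end Pool.Agent.Run7.h816
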