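import Pool.Agent.Run7.h816.TorusRigid

/-! Rigidity over a base with one extra, possibly improper, direction. -/

set_option autoImplicit false

open Set Filter Topology Metric
open scoped ContDiff

namespace Pool.Agent.Run7.h816

section main

variable {G E E' Q Q' : Type} [Group G] [NormedAddCommGroup E] [NormedSpace ℝ E]
  [FiniteDimensional ℝ E] [NormedAddCommGroup E'] [NormedSpace ℝ E'] [FiniteDimensional ℝ E']
  [NormedAddCommGroup Q] [NormedSpace ℝ Q] [FiniteDimensional ℝ Q]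
  [NormedAddCommGroup Q'] [NormedSpace ℝ Q'] [FiniteDimensional ℝ Q']

/-- diffeomorphisms have bijective derivatives -/
theorem bijective_fderiv_of_inverse {F : E → E'} {Fi : E' → E} (hF : ContDiff ℝ ∞ F)
    (hFi : ContDiff ℝ ∞ Fi) (hl : ∀ x, Fi (F x) = x) (hr : ∀ y, F (Fi y) = y) (x : E) :
    Function.Bijective (fderiv ℝ F x) := by
  have h1 : HasFDerivAt F (fderiv ℝ F x) x := ((hF.differentiable (by simp)) x).hasFDerivAt
  have h2 : HasFDerivAt Fi (fderiv ℝ Fi (F x)) (F x) :=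
    ((hFi.differentiable (by simp)) _).hasFDerivAt
  have h3 := h2.comp x h1
  have h4 : Fi ∘ F = id := by funext x; exact hl x
  rw [h4] at h3
  have h5 := h3.unique (hasFDerivAt_id x)
  have h1' : HasFDerivAt F (fderiv ℝ F x) (Fi (F x)) := by rw [hl]; exact h1
  have h6 := h1'.comp (F x) h2
  have h7 : F ∘ Fi = id := by funext x; exact hr x
  rw [h7] at h6
  have h8 := h6.unique (hasFDerivAt_id (F x))
  constructor
  · intro u v huv
    have h9 := congrArg (fun L : E →L[ℝ] E => L u) h5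
    have h10 := congrArg (fun L : E →L[ℝ] E => L v) h5
    simp only [ContinuousLinearMap.comp_apply, ContinuousLinearMap.id_apply] at h9 h10
    rw [← h9, ← h10, huv]
  · intro w
    have h9 := congrArg (fun L : E' →L[ℝ] E' => L w) h8
    simp only [ContinuousLinearMap.comp_apply, ContinuousLinearMap.id_apply] at h9
    exact ⟨_, h9⟩

/-- the two spans have the same dimension -/
theorem finrank_span_eq {A : G →* (E ≃ᵃ[ℝ] E)} {A' : G →* (E' ≃ᵃ[ℝ] E')}
    (hA : Function.Injective A) (hA' : Function.Injective A')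
    (hPD : PD (actOf A)) (hPD' : PD (actOf A')) {T : Subgroup G} [T.Normal]
    (hT : ∀ t ∈ T, ∃ v, ∀ x, A t x = x + v) (hT' : ∀ t ∈ T, ∃ v, ∀ x, A' t x = x + v) :
    Module.finrank ℝ (Submodule.span ℝ (trans A T)) =
      Module.finrank ℝ (Submodule.span ℝ (trans A' T)) := by
  obtain ⟨B, -, -, hB3, hB4, hB5⟩ := exists_B_props hA hA' hPD hPD' hT hT'
  have hmaps : ∀ v ∈ Submodule.span ℝ (trans A T), B v ∈ Submodule.span ℝ (trans A' T) := hB4
  let L : Submodule.span ℝ (trans A T) →ₗ[ℝ] Submodule.span ℝ (trans A' T) := B.restrict hmaps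
  have hL : Function.Bijective L := by
    constructor
    · rw [injective_iff_map_eq_zero]
      intro v hv
      have h1 : B (v : E) = 0 := congrArg Subtype.val hv
      exact Subtype.ext (hB3 v v.2 h1)
    · intro v'
      obtain ⟨v, hv, hvB⟩ := hB5 v' v'.2
      exact ⟨⟨v, hv⟩, Subtype.ext hvB⟩
  exact (LinearEquiv.ofBijective L hL).finrank_eq

/-- an extra coordinate -/
theorem exists_extra {V : Submodule ℝ E} {p : E →ᵃ[ℝ] Q} (hp : Function.Surjective p)
    (hV : V ≤ LinearMap.ker p.linear)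
    (hr : Module.finrank ℝ (LinearMap.ker p.linear) = Module.finrank ℝ V + 1) :
    ∃ π : E →ᵃ[ℝ] Q × ℝ, Function.Surjective π ∧ LinearMap.ker π.linear = V ∧ ∀ x, (π x).1 = p x := by
  have hlt : V < LinearMap.ker p.linear := by
    refine lt_of_le_of_ne hV fun h => ?_
    rw [h] at hr; omega
  obtain ⟨u, hu, huV⟩ := SetLike.exists_of_lt hlt
  obtain ⟨ℓ, hℓ, hℓV⟩ := Submodule.exists_le_ker_of_notMem huV
  have hℓV' : ∀ v ∈ V, ℓ v = 0 := fun v hv => hℓV hv
  set π : E →ᵃ[ℝ] Q × ℝ := p.prod ℓ.toAffineMap with hπ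
  have hπa : ∀ x, π x = (p x, ℓ x) := fun x => rfl
  have hπl : ∀ x, π.linear x = (p.linear x, ℓ x) := fun x => rfl
  refine ⟨π, ?_, ?_, fun x => rfl⟩
  · rintro ⟨q, s⟩
    obtain ⟨x, rfl⟩ := hp q
    refine ⟨x + ((s - ℓ x) / ℓ u) • u, ?_⟩
    rw [hπa]
    ext
    · simp only []
      have h1 : ((s - ℓ x) / ℓ u) • u ∈ LinearMap.ker p.linear := Submodule.smul_mem _ _ hu
      rw [aff_add, LinearMap.mem_ker.1 h1, add_zero]
    · simp only []
      rw [map_add, map_smul, smul_eq_mul, div_mul_cancel₀ _ hℓ]; ring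
  · have hle : V ≤ LinearMap.ker π.linear := by
      intro v hv
      rw [LinearMap.mem_ker, hπl, hℓV' v hv, LinearMap.mem_ker.1 (hV hv)]; rfl
    have hle2 : LinearMap.ker π.linear ≤ LinearMap.ker p.linear := by
      intro v hv
      rw [LinearMap.mem_ker, hπl] at hv
      exact LinearMap.mem_ker.2 (congrArg Prod.fst hv)
    have hlt2 : LinearMap.ker π.linear < LinearMap.ker p.linear := by
      refine lt_of_le_of_ne hle2 fun h => ?_
      have : u ∈ LinearMap.ker π.linear := by rw [h]; exact hu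
      rw [LinearMap.mem_ker, hπl] at this
      exact hℓ (congrArg Prod.snd this)
    have h3 := Submodule.finrank_lt_finrank_of_lt hlt2
    exact (Submodule.eq_of_le_of_finrank_le hle (by omega)).symm

/-- The main rigidity theorem (abstract form). -/
theorem main_rigid {A : G →* (E ≃ᵃ[ℝ] E)} {A' : G →* (E' ≃ᵃ[ℝ] E')}
    (hA : Function.Injective A) (hA' : Function.Injective A')
    (hPD : PD (actOf A)) (hCC : CC (actOf A)) (hPD' : PD (actOf A')) (hCC' : CC (actOf A'))
    (hdim : Module.finrank ℝ E = Module.finrank ℝ E') {T : Subgroup G} [T.Normal]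
    (hT : ∀ t ∈ T, ∃ v, ∀ x, A t x = x + v) (hT' : ∀ t ∈ T, ∃ v, ∀ x, A' t x = x + v)
    {p : E →ᵃ[ℝ] Q} (hp : Function.Surjective p) {p' : E' →ᵃ[ℝ] Q'} (hp' : Function.Surjective p')
    (hTp : ∀ t ∈ T, ∀ x, p (A t x) = p x) (hTp' : ∀ t ∈ T, ∀ x, p' (A' t x) = p' x)
    {ρ : G → Q → Q} (hρ : ∀ g x, p (A g x) = ρ g (p x))
    {ρ' : G → Q' → Q'} (hρ' : ∀ g x, p' (A' g x) = ρ' g (p' x))
    (hrank : Module.finrank ℝ (LinearMap.ker p.linear) ≤
      Module.finrank ℝ (Submodule.span ℝ (trans A T)) + 1)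
    {ψ : Q → Q'} (hψ : ContDiff ℝ ∞ ψ) (hψd : ∀ q, Function.Bijective (fderiv ℝ ψ q))
    (hψe : ∀ g q, ψ (ρ g q) = ρ' g (ψ q)) :
    ∃ (f : E → E') (fi : E' → E), ContDiff ℝ ∞ f ∧ ContDiff ℝ ∞ fi ∧ (∀ x, fi (f x) = x) ∧
      (∀ y, f (fi y) = y) ∧ (∀ x, p' (f x) = ψ (p x)) ∧ ∀ g x, f (A g x) = A' g (f x) := by
  have hV : Submodule.span ℝ (trans A T) ≤ LinearMap.ker p.linear := by
    rw [Submodule.span_le]
    rintro v ⟨t, ht, h1⟩
    have h2 := hTp t ht 0
    rw [h1, aff_add] at h2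
    exact LinearMap.mem_ker.2 (by simpa using h2)
  have hV' : Submodule.span ℝ (trans A' T) ≤ LinearMap.ker p'.linear := by
    rw [Submodule.span_le]
    rintro v ⟨t, ht, h1⟩
    have h2 := hTp' t ht 0
    rw [h1, aff_add] at h2
    exact LinearMap.mem_ker.2 (by simpa using h2)
  have hs1 : Function.Surjective p.linear := (AffineMap.linear_surjective_iff p).2 hp
  have hs1' : Function.Surjective p'.linear := (AffineMap.linear_surjective_iff p').2 hp'
  have hdQ : Module.finrank ℝ Q = Module.finrank ℝ Q' :=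
    (LinearEquiv.ofBijective (fderiv ℝ ψ 0 : Q →ₗ[ℝ] Q') (hψd 0)).finrank_eq
  have hrk := LinearMap.finrank_range_add_finrank_ker p.linear
  have hrk' := LinearMap.finrank_range_add_finrank_ker p'.linear
  rw [LinearMap.range_eq_top.2 hs1, finrank_top] at hrk
  rw [LinearMap.range_eq_top.2 hs1', finrank_top] at hrk'
  have hVV := finrank_span_eq hA hA' hPD hPD' hT hT'
  have hle := Submodule.finrank_mono hV
  rcases Nat.lt_or_ge (Module.finrank ℝ (Submodule.span ℝ (trans A T)))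
    (Module.finrank ℝ (LinearMap.ker p.linear)) with hlt | hge
  · -- one extra direction
    obtain ⟨π, hπs, hπk, hπ1⟩ := exists_extra hp hV (by omega)
    obtain ⟨π', hπs', hπk', hπ1'⟩ := exists_extra hp' hV' (by omega)
    obtain ⟨C, hC⟩ := exists_induced hπs hπk
    obtain ⟨C', hC'⟩ := exists_induced hπs' hπk'
    have hb : ∀ (h : G ⧸ T) x, (C (Quotient.out h) x).1 = ρ (Quotient.out h) x.1 := by
      intro h x
      obtain ⟨z, rfl⟩ := hπs x
      rw [hC, hπ1, hπ1, hρ]
    have hb' : ∀ (h : G ⧸ T) x, (C' (Quotient.out h) x).1 = ρ' (Quotient.out h) x.1 := by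
      intro h x
      obtain ⟨z, rfl⟩ := hπs' x
      rw [hC', hπ1', hπ1', hρ']
    obtain ⟨F, Fi, hF, hFi, hl, hr, hF1, hFe⟩ := line_rigid (bar_act hπs hπk hT hC)
      (bar_act hπs' hπk' hT' hC') (fun h => ind_smooth hπs hC _) (fun h => ind_smooth hπs' hC' _)
      (bar_PD hπs hπk hT hC hPD) (bar_CC hπs hπk hT hC hCC) (bar_PD hπs' hπk' hT' hC' hPD')
      (bar_CC hπs' hπk' hT' hC' hCC') hb hb' hψ hψd (fun h q => hψe _ q)
    have hFe' : ∀ g y, F (C g y) = C' g (F y) := by
      intro g y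
      have h1 : F (C (Quotient.out (g : G ⧸ T)) y) = C' (Quotient.out (g : G ⧸ T)) (F y) := hFe g y
      rwa [bar_mk (ind_trans hπs hπk hT hC) g, bar_mk (ind_trans hπs' hπk' hT' hC') g] at h1
    obtain ⟨f, fi, h1, h2, h3, h4, h5, h6⟩ := torus_rigid hA hA' hPD hCC hPD' hT hT' hπs hπk hπs'
      hπk' hC hC' hF (bijective_fderiv_of_inverse hF hFi hl hr) hFe'
    refine ⟨f, fi, h1, h2, h3, h4, fun x => ?_, h6⟩
    rw [← hπ1', h5, hF1, hπ1]
  · -- no extra direction
    have hk : LinearMap.ker p.linear = Submodule.span ℝ (trans A T) :=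
      (Submodule.eq_of_le_of_finrank_le hV hge).symm
    have hk' : LinearMap.ker p'.linear = Submodule.span ℝ (trans A' T) :=
      (Submodule.eq_of_le_of_finrank_le hV' (by omega)).symm
    exact torus_rigid hA hA' hPD hCC hPD' hT hT' hp hk hp' hk' (fun g x => (hρ g x).symm)
      (fun g x => (hρ' g x).symm) hψ hψd hψe

end main

end Pool.Agent.Run7.h816
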