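import Pool.Agent.Run7.h816.DefsPoly
import Pool.Agent.Run7.h816.FixedPoint
import Pool.Agent.Run7.h816.Frame

/-! Polynomial functions and polynomial maps. -/

set_option autoImplicit false

open Set Filter Topology Metric
open scoped ContDiff

namespace Pool.Agent.Run7.h816

section aff

variable {Q Q' Q'' : Type} [NormedAddCommGroup Q] [NormedSpace ℝ Q] [NormedAddCommGroup Q']
  [NormedSpace ℝ Q'] [NormedAddCommGroup Q''] [NormedSpace ℝ Q'']

theorem IsAff.comp {f : Q → Q'} {g : Q' → Q''} (hg : IsAff g) (hf : IsAff f) :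
    IsAff (fun x => g (f x)) := by
  obtain ⟨L, c, h⟩ := hf
  obtain ⟨L', c', h'⟩ := hg
  refine ⟨L'.comp L, L' c + c', fun x => ?_⟩
  show g (f x) = _
  rw [h', h, map_add, add_assoc]; rfl

theorem IsAff.smooth [FiniteDimensional ℝ Q] {f : Q → Q'} (hf : IsAff f) : ContDiff ℝ ∞ f := by
  obtain ⟨L, c, h⟩ := hf
  have h1 : f = fun x => LinearMap.toContinuousLinearMap L x + c := by funext x; exact h x
  rw [h1]
  exact (LinearMap.toContinuousLinearMap L).contDiff.add contDiff_const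

theorem isAff_linear (ℓ : Q →ₗ[ℝ] Q') : IsAff ℓ := ⟨ℓ, 0, fun x => by simp⟩

theorem isAff_const (c : Q') : IsAff (fun _ : Q => c) := ⟨0, c, fun x => by simp⟩

/-- affine functions as a submodule -/
def affS (Q : Type) [NormedAddCommGroup Q] [NormedSpace ℝ Q] : Submodule ℝ (Q → ℝ) where
  carrier := {f | IsAff f}
  add_mem' := by
    rintro f g ⟨L, c, h⟩ ⟨L', c', h'⟩
    refine ⟨L + L', c + c', fun x => ?_⟩
    simp only [Pi.add_apply, h, h', LinearMap.add_apply]; ring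
  zero_mem' := isAff_const 0
  smul_mem' := by
    rintro r f ⟨L, c, h⟩
    refine ⟨r • L, r * c, fun x => ?_⟩
    simp only [Pi.smul_apply, h, LinearMap.smul_apply, smul_eq_mul]; ring

theorem affS_fg [FiniteDimensional ℝ Q] : (affS Q).FG := by
  let Φ : ((Q →ₗ[ℝ] ℝ) × ℝ) →ₗ[ℝ] (Q → ℝ) :=
    { toFun := fun p x => p.1 x + p.2
      map_add' := by intro p q; funext x; simp; ring
      map_smul' := by intro r p; funext x; simp; ring }
  have h1 : affS Q = LinearMap.range Φ := by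
    ext f
    constructor
    · rintro ⟨L, c, h⟩
      exact ⟨(L, c), by funext x; exact (h x).symm⟩
    · rintro ⟨⟨L, c⟩, rfl⟩
      exact ⟨L, c, fun x => rfl⟩
  rw [h1, LinearMap.range_eq_map]
  exact (Module.Finite.fg_top).map Φ

theorem one_le_affS : (1 : Submodule ℝ (Q → ℝ)) ≤ affS Q := by
  rw [Submodule.one_le]
  exact isAff_const 1

theorem pow_le_poly (d : ℕ) {f : Q → ℝ} (hf : f ∈ (affS Q) ^ d) : f ∈ polyFun Q := by
  induction d generalizing f with
  | zero =>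
    rw [pow_zero, Submodule.mem_one] at hf
    obtain ⟨y, rfl⟩ := hf
    exact Subalgebra.algebraMap_mem _ y
  | succ d ih =>
    rw [pow_succ] at hf
    induction hf using Submodule.mul_induction_on' with
    | mem_mul_mem m hm n hn => exact (polyFun Q).mul_mem (ih hm) (Algebra.subset_adjoin hn)
    | add x _ y _ hx hy => exact (polyFun Q).add_mem hx hy

theorem poly_mem_pow {f : Q → ℝ} (hf : f ∈ polyFun Q) : ∃ d, f ∈ (affS Q) ^ d := by
  induction hf using Algebra.adjoin_induction with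
  | mem f hf => exact ⟨1, by rw [pow_one]; exact hf⟩
  | algebraMap r => exact ⟨0, by rw [pow_zero, Submodule.mem_one]; exact ⟨r, rfl⟩⟩
  | add f g _ _ hf hg =>
    obtain ⟨d, hd⟩ := hf
    obtain ⟨e, he⟩ := hg
    refine ⟨max d e, Submodule.add_mem _ ?_ ?_⟩
    · exact pow_le_pow_right' one_le_affS (le_max_left d e) hd
    · exact pow_le_pow_right' one_le_affS (le_max_right d e) he
  | mul f g _ _ hf hg =>
    obtain ⟨d, hd⟩ := hf
    obtain ⟨e, he⟩ := hg
    exact ⟨d + e, by rw [pow_add]; exact Submodule.mul_mem_mul hd he⟩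

theorem poly_smooth [FiniteDimensional ℝ Q] {f : Q → ℝ} (hf : f ∈ polyFun Q) : ContDiff ℝ ∞ f := by
  induction hf using Algebra.adjoin_induction with
  | mem f hf => exact IsAff.smooth hf
  | algebraMap r => exact contDiff_const
  | add f g _ _ hf hg => exact hf.add hg
  | mul f g _ _ hf hg => exact hf.mul hg

theorem pow_comp {τ : Q → Q'} (hτ : IsAff τ) (d : ℕ) {f : Q' → ℝ} (hf : f ∈ (affS Q') ^ d) :
    (fun x => f (τ x)) ∈ (affS Q) ^ d := by
  induction d generalizing f with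
  | zero =>
    rw [pow_zero, Submodule.mem_one] at hf ⊢
    obtain ⟨y, rfl⟩ := hf
    exact ⟨y, rfl⟩
  | succ d ih =>
    rw [pow_succ] at hf ⊢
    induction hf using Submodule.mul_induction_on' with
    | mem_mul_mem m hm n hn =>
      exact Submodule.mul_mem_mul (m := fun x => m (τ x)) (n := fun x => n (τ x)) (ih hm)
        (IsAff.comp hn hτ)
    | add x _ y _ hx hy => exact Submodule.add_mem _ hx hy

theorem poly_comp {τ : Q → Q'} (hτ : IsPoly τ) {f : Q' → ℝ} (hf : f ∈ polyFun Q') :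
    (fun x => f (τ x)) ∈ polyFun Q := by
  induction hf using Algebra.adjoin_induction with
  | mem f hf =>
    obtain ⟨L, c, h⟩ := hf
    have h1 : (fun x => f (τ x)) = (fun x => L (τ x)) + algebraMap ℝ (Q → ℝ) c := by
      funext x; exact h _
    rw [h1]
    exact (polyFun Q).add_mem (hτ L) (Subalgebra.algebraMap_mem _ c)
  | algebraMap r => exact Subalgebra.algebraMap_mem _ r
  | add f g _ _ hf hg => exact (polyFun Q).add_mem hf hg
  | mul f g _ _ hf hg => exact (polyFun Q).mul_mem hf hg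

theorem IsAff.isPoly {f : Q → Q'} (hf : IsAff f) : IsPoly f := fun ℓ =>
  Algebra.subset_adjoin ((isAff_linear ℓ).comp hf)

theorem IsPoly.comp {f : Q → Q'} {g : Q' → Q''} (hg : IsPoly g) (hf : IsPoly f) :
    IsPoly (fun x => g (f x)) := fun ℓ => poly_comp hf (hg ℓ)

theorem IsPoly.smooth [FiniteDimensional ℝ Q] [FiniteDimensional ℝ Q'] {f : Q → Q'}
    (hf : IsPoly f) : ContDiff ℝ ∞ f := by
  let b := Module.finBasis ℝ Q'
  have h1 : f = fun x => ∑ i, (b.coord i (f x)) • b i := by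
    funext x
    exact (b.sum_repr (f x)).symm
  rw [h1]
  exact ContDiff.sum fun i _ => (poly_smooth (hf (b.coord i))).smul contDiff_const

/-- directional derivatives -/
theorem poly_deriv [FiniteDimensional ℝ Q] {f : Q → ℝ} (hf : f ∈ polyFun Q) (v : Q) :
    (fun x => fderiv ℝ f x v) ∈ polyFun Q := by
  induction hf using Algebra.adjoin_induction with
  | mem f hf =>
    obtain ⟨L, c, h⟩ := hf
    have h1 : (fun x => fderiv ℝ f x v) = algebraMap ℝ (Q → ℝ) (L v) := by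
      funext x
      have h2 : f = fun x => LinearMap.toContinuousLinearMap L x + c := by funext x; exact h x
      have h3 : HasFDerivAt f (LinearMap.toContinuousLinearMap L) x := by
        rw [h2]; exact (LinearMap.toContinuousLinearMap L).hasFDerivAt.add_const c
      rw [h3.fderiv]; rfl
    rw [h1]
    exact Subalgebra.algebraMap_mem _ _
  | algebraMap r =>
    have h1 : (fun x => fderiv ℝ (algebraMap ℝ (Q → ℝ) r) x v) = algebraMap ℝ (Q → ℝ) 0 := by
      funext x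
      have h3 : HasFDerivAt (algebraMap ℝ (Q → ℝ) r) (0 : Q →L[ℝ] ℝ) x := hasFDerivAt_const r x
      rw [h3.fderiv]; rfl
    rw [h1]
    exact Subalgebra.algebraMap_mem _ _
  | add f g hf' hg' hf hg =>
    have h1 : (fun x => fderiv ℝ (f + g) x v) = (fun x => fderiv ℝ f x v) +
        fun x => fderiv ℝ g x v := by
      funext x
      have e1 := ((poly_smooth hf').differentiable (by simp) x).hasFDerivAt
      have e2 := ((poly_smooth hg').differentiable (by simp) x).hasFDerivAt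
      rw [(e1.add e2).fderiv]; rfl
    rw [h1]
    exact (polyFun Q).add_mem hf hg
  | mul f g hf' hg' hf hg =>
    have h1 : (fun x => fderiv ℝ (f * g) x v) = f * (fun x => fderiv ℝ g x v) +
        g * fun x => fderiv ℝ f x v := by
      funext x
      have e1 := ((poly_smooth hf').differentiable (by simp) x).hasFDerivAt
      have e2 := ((poly_smooth hg').differentiable (by simp) x).hasFDerivAt
      rw [(e1.mul e2).fderiv]; rfl
    rw [h1]
    exact (polyFun Q).add_mem ((polyFun Q).mul_mem hf' hg) ((polyFun Q).mul_mem hg' hf)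

/-- restriction to a line -/
theorem poly_line {f : Q → ℝ} (hf : f ∈ polyFun Q) (x v : Q) :
    ∃ P : Polynomial ℝ, ∀ t : ℝ, f (x + t • v) = P.eval t := by
  induction hf using Algebra.adjoin_induction with
  | mem f hf =>
    obtain ⟨L, c, h⟩ := hf
    refine ⟨Polynomial.C (L x + c) + Polynomial.C (L v) * Polynomial.X, fun t => ?_⟩
    rw [h, map_add, map_smul]; simp; ring
  | algebraMap r => exact ⟨Polynomial.C r, fun t => by simp⟩
  | add f g _ _ hf hg =>
    obtain ⟨P, hP⟩ := hf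
    obtain ⟨R, hR⟩ := hg
    exact ⟨P + R, fun t => by rw [Pi.add_apply, hP, hR, Polynomial.eval_add]⟩
  | mul f g _ _ hf hg =>
    obtain ⟨P, hP⟩ := hf
    obtain ⟨R, hR⟩ := hg
    exact ⟨P * R, fun t => by rw [Pi.mul_apply, hP, hR, Polynomial.eval_mul]⟩

/-- bounded polynomial functions are constant -/
theorem poly_bounded {f : Q → ℝ} (hf : f ∈ polyFun Q) {C : ℝ} (hC : ∀ x, |f x| ≤ C) (x y : Q) :
    f x = f y := by
  obtain ⟨P, hP⟩ := poly_line hf x (y - x)
  have h1 : P.degree ≤ 0 := by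
    by_contra hlt
    push Not at hlt
    have h2 := P.abs_tendsto_atTop hlt
    have h3 := h2.eventually_gt_atTop C
    obtain ⟨t, ht⟩ := h3.exists
    have h4 := hC (x + t • (y - x))
    rw [hP] at h4
    linarith
  rw [Polynomial.eq_C_of_degree_le_zero h1] at hP
  have e0 := hP 0
  have e1 := hP 1
  rw [Polynomial.eval_C] at e0 e1
  rw [zero_smul, add_zero] at e0
  rw [one_smul, add_sub_cancel] at e1
  rw [e0, e1]

end aff

section fix

variable {G Q Q' : Type} [Group G] [NormedAddCommGroup Q] [NormedSpace ℝ Q] [FiniteDimensional ℝ Q]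
  [NormedAddCommGroup Q'] [NormedSpace ℝ Q'] [FiniteDimensional ℝ Q']

/-- polynomial maps of degree at most `d` -/
def polyMaps (Q Q' : Type) [NormedAddCommGroup Q] [NormedSpace ℝ Q] [NormedAddCommGroup Q']
    [NormedSpace ℝ Q'] (d : ℕ) : Submodule ℝ (Q → Q') where
  carrier := {f | ∀ ℓ : Q' →ₗ[ℝ] ℝ, (fun x => ℓ (f x)) ∈ (affS Q) ^ d}
  add_mem' := by
    intro f g hf hg ℓ
    have h1 : (fun x => ℓ ((f + g) x)) = (fun x => ℓ (f x)) + fun x => ℓ (g x) := by
      funext x; simp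
    rw [h1]
    exact Submodule.add_mem _ (hf ℓ) (hg ℓ)
  zero_mem' := by
    intro ℓ
    have h1 : (fun x => ℓ ((0 : Q → Q') x)) = 0 := by funext x; simp
    rw [h1]
    exact Submodule.zero_mem _
  smul_mem' := by
    intro r f hf ℓ
    have h1 : (fun x => ℓ ((r • f) x)) = r • fun x => ℓ (f x) := by funext x; simp
    rw [h1]
    exact Submodule.smul_mem _ _ (hf ℓ)

theorem polyMaps_finite (d : ℕ) : FiniteDimensional ℝ (polyMaps Q Q' d) := by
  have hfg : ((affS Q) ^ d).FG := affS_fg.pow d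
  have : FiniteDimensional ℝ ((affS Q) ^ d : Submodule ℝ (Q → ℝ)) :=
    Module.Finite.iff_fg.2 hfg
  let b := Module.finBasis ℝ Q'
  let Φ : polyMaps Q Q' d →ₗ[ℝ] (Fin (Module.finrank ℝ Q') → ((affS Q) ^ d : Submodule ℝ (Q → ℝ))) :=
    { toFun := fun f i => ⟨fun x => b.coord i (f.1 x), f.2 (b.coord i)⟩
      map_add' := by
        intro f g; funext i; apply Subtype.ext; funext x
        simp
      map_smul' := by
        intro r f; funext i; apply Subtype.ext; funext x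
        simp }
  refine FiniteDimensional.of_injective Φ ?_
  intro f g hfg
  apply Subtype.ext
  funext x
  apply b.ext_elem
  intro i
  have h1 := congrArg (fun w => (w i).1 x) hfg
  exact h1

theorem mem_polyMaps {f : Q → Q'} (hf : IsPoly f) : ∃ d, f ∈ polyMaps Q Q' d := by
  classical
  let b := Module.finBasis ℝ Q'
  choose D hD using fun i => poly_mem_pow (hf (b.coord i))
  refine ⟨∑ i, D i, fun ℓ => ?_⟩
  have h1 : (fun x => ℓ (f x)) = ∑ i, ℓ (b i) • fun x => b.coord i (f x) := by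
    funext x
    conv_lhs => rw [← b.sum_repr (f x)]
    rw [map_sum, Finset.sum_apply]
    refine Finset.sum_congr rfl fun i _ => ?_
    rw [map_smul]
    simp only [Pi.smul_apply, smul_eq_mul, Module.Basis.coord_apply]
    ring
  rw [h1]
  refine Submodule.sum_mem _ fun i _ => Submodule.smul_mem _ _ ?_
  exact pow_le_pow_right' one_le_affS (Finset.single_le_sum (fun j _ => Nat.zero_le (D j))
    (Finset.mem_univ i)) (hD i)

theorem polyMaps_poly {d : ℕ} {f : Q → Q'} (hf : f ∈ polyMaps Q Q' d) : IsPoly f :=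
  fun ℓ => pow_le_poly d (hf ℓ)

/-- a polynomial map which is equivariant up to bounded error at every point can be replaced by an
equivariant one of the same degree -/
theorem poly_fix_degree {ρ : G → Q → Q} (hρ : IsAct ρ) (hρa : ∀ g, IsAff (ρ g)) {ρ' : G → Q' → Q'}
    (hρ' : IsAct ρ') (hρa' : ∀ g, IsAff (ρ' g)) {ψ₀ : Q → Q'} {d : ℕ} (hψ₀ : ψ₀ ∈ polyMaps Q Q' d)
    (hbd : ∀ q, ∃ C, ∀ g, ‖ρ' g (ψ₀ (ρ g⁻¹ q))‖ ≤ C) :
    ∃ ψ : Q → Q', ψ ∈ polyMaps Q Q' d ∧ ∀ g q, ψ (ρ g q) = ρ' g (ψ q) := by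
  have hfin := polyMaps_finite (Q := Q) (Q' := Q') d
  choose L c hL using hρa'
  have hmemL : ∀ g, ∀ f ∈ polyMaps Q Q' d, (fun q => L g (f (ρ g⁻¹ q))) ∈ polyMaps Q Q' d := by
    intro g f hf ℓ
    exact pow_comp (hρa g⁻¹) d (hf (ℓ.comp (L g)))
  have hconst : ∀ v : Q', (fun _ => v) ∈ polyMaps Q Q' d := by
    intro v ℓ
    have h1 : (fun _ : Q => ℓ v) ∈ (affS Q) ^ 0 := by
      rw [pow_zero, Submodule.mem_one]
      exact ⟨ℓ v, rfl⟩
    exact pow_le_pow_right' one_le_affS (Nat.zero_le d) h1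
  have hmem : ∀ g, ∀ f ∈ polyMaps Q Q' d, (fun q => ρ' g (f (ρ g⁻¹ q))) ∈ polyMaps Q Q' d := by
    intro g f hf
    have h1 : (fun q => ρ' g (f (ρ g⁻¹ q))) = (fun q => L g (f (ρ g⁻¹ q))) + fun _ => c g := by
      funext q; rw [hL]; rfl
    rw [h1]
    exact Submodule.add_mem _ (hmemL g f hf) (hconst _)
  let β : G → polyMaps Q Q' d → polyMaps Q Q' d :=
    fun g f => ⟨fun q => ρ' g (f.1 (ρ g⁻¹ q)), hmem g f.1 f.2⟩
  let M : G → polyMaps Q Q' d →ₗ[ℝ] polyMaps Q Q' d := fun g =>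
    { toFun := fun f => ⟨fun q => L g (f.1 (ρ g⁻¹ q)), hmemL g f.1 f.2⟩
      map_add' := by
        intro f g; apply Subtype.ext; funext q; simp
      map_smul' := by
        intro r f; apply Subtype.ext; funext q; simp }
  have hβ : IsAct β := by
    constructor
    · intro f
      apply Subtype.ext; funext q
      show ρ' 1 (f.1 (ρ 1⁻¹ q)) = f.1 q
      rw [hρ'.one, inv_one, hρ.one]
    · intro g h f
      apply Subtype.ext; funext q
      show ρ' (g * h) (f.1 (ρ (g * h)⁻¹ q)) = ρ' g (ρ' h (f.1 (ρ h⁻¹ (ρ g⁻¹ q))))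
      rw [hρ'.mul, mul_inv_rev, hρ.mul]
  have hM : ∀ g x u, β g (x + u) = β g x + M g u := by
    intro g x u
    apply Subtype.ext; funext q
    show ρ' g (x.1 (ρ g⁻¹ q) + u.1 (ρ g⁻¹ q)) = ρ' g (x.1 (ρ g⁻¹ q)) + L g (u.1 (ρ g⁻¹ q))
    rw [hL, hL, map_add]; abel
  let ev : Q → (Q' →ₗ[ℝ] ℝ) → (polyMaps Q Q' d →ₗ[ℝ] ℝ) := fun q ℓ =>
    { toFun := fun f => ℓ (f.1 q)
      map_add' := by intro f g; simp
      map_smul' := by intro r f; simp }
  obtain ⟨w, hw⟩ := fp_linear hβ hM (w₀ := ⟨ψ₀, hψ₀⟩) (bounded_all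
    (S := {m | ∃ q ℓ, m = ev q ℓ}) (by
      intro f hf
      apply Subtype.ext; funext q
      have h1 : ∀ ℓ : Q' →ₗ[ℝ] ℝ, ℓ (f.1 q) = 0 := fun ℓ => hf (ev q ℓ) ⟨q, ℓ, rfl⟩
      exact (Module.forall_dual_apply_eq_zero_iff ℝ (f.1 q)).1 h1) (by
      rintro m ⟨q, ℓ, rfl⟩
      obtain ⟨C, hC⟩ := hbd q
      refine ⟨‖LinearMap.toContinuousLinearMap ℓ‖ * C, fun g => ?_⟩
      show |ℓ (ρ' g (ψ₀ (ρ g⁻¹ q)))| ≤ _
      have h1 := (LinearMap.toContinuousLinearMap ℓ).le_opNorm (ρ' g (ψ₀ (ρ g⁻¹ q)))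
      exact h1.trans (mul_le_mul_of_nonneg_left (hC g) (norm_nonneg _))))
  refine ⟨w.1, w.2, fun g q => ?_⟩
  have h1 := congrArg (fun f : polyMaps Q Q' d => f.1 (ρ g q)) (hw g)
  have h2 : ρ' g (w.1 (ρ g⁻¹ (ρ g q))) = w.1 (ρ g q) := h1
  rw [hρ.inv_left] at h2
  exact h2.symm

theorem poly_fix {ρ : G → Q → Q} (hρ : IsAct ρ) (hρa : ∀ g, IsAff (ρ g)) {ρ' : G → Q' → Q'}
    (hρ' : IsAct ρ') (hρa' : ∀ g, IsAff (ρ' g)) {ψ₀ : Q → Q'} (hψ₀ : IsPoly ψ₀)
    (hbd : ∀ q, ∃ C, ∀ g, ‖ρ' g (ψ₀ (ρ g⁻¹ q))‖ ≤ C) :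
    ∃ ψ : Q → Q', IsPoly ψ ∧ ∀ g q, ψ (ρ g q) = ρ' g (ψ q) := by
  obtain ⟨d, hd⟩ := mem_polyMaps hψ₀
  obtain ⟨ψ, hψ, h⟩ := poly_fix_degree hρ hρa hρ' hρa' hd hbd
  exact ⟨ψ, polyMaps_poly hψ, h⟩

/-- degree one -/
theorem isAff_of_mem {f : Q → Q'} (hf : f ∈ polyMaps Q Q' 1) : IsAff f := by
  classical
  let b := Module.finBasis ℝ Q'
  have h1 : ∀ i, IsAff (fun x => b.coord i (f x)) := by
    intro i
    have := hf (b.coord i)
    rw [pow_one] at this
    exact this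
  choose L c h using h1
  refine ⟨∑ i, (L i).smulRight (b i), ∑ i, c i • b i, fun x => ?_⟩
  rw [← b.sum_repr (f x)]
  rw [LinearMap.sum_apply, ← Finset.sum_add_distrib]
  refine Finset.sum_congr rfl fun i _ => ?_
  have h2 : b.repr (f x) i = L i x + c i := h i x
  rw [h2, add_smul]; rfl

theorem mem_of_isAff {f : Q → Q'} (hf : IsAff f) : f ∈ polyMaps Q Q' 1 := by
  intro ℓ
  rw [pow_one]
  exact (isAff_linear ℓ).comp hf

theorem aff_fix {ρ : G → Q → Q} (hρ : IsAct ρ) (hρa : ∀ g, IsAff (ρ g)) {ρ' : G → Q' → Q'}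
    (hρ' : IsAct ρ') (hρa' : ∀ g, IsAff (ρ' g)) {ψ₀ : Q → Q'} (hψ₀ : IsAff ψ₀)
    (hbd : ∀ q, ∃ C, ∀ g, ‖ρ' g (ψ₀ (ρ g⁻¹ q))‖ ≤ C) :
    ∃ ψ : Q → Q', IsAff ψ ∧ ∀ g q, ψ (ρ g q) = ρ' g (ψ q) := by
  obtain ⟨ψ, hψ, h⟩ := poly_fix_degree hρ hρa hρ' hρa' (mem_of_isAff hψ₀) hbd
  exact ⟨ψ, isAff_of_mem hψ, h⟩

end fix

end Pool.Agent.Run7.h816
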