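import Pool.Agent.Run7.h816.Cover
import Pool.Agent.H66R2.RZ_Par

/-! Smooth primitives with parameters. -/

set_option autoImplicit false

open Set Filter Topology Metric
open scoped ContDiff

namespace Pool.Agent.Run7.h816

section prim

variable {F : Type} [NormedAddCommGroup F] [NormedSpace ℝ F] [FiniteDimensional ℝ F]

/-- the primitive along the second coordinate -/
noncomputable def prim (w : F × ℝ → ℝ) (x : F × ℝ) : ℝ := ∫ r in (0 : ℝ)..x.2, w (x.1, r)

theorem prim_eq (w : F × ℝ → ℝ) (x : F × ℝ) :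
    prim w x = ∫ t in (0 : ℝ)..1, w (x.1, t * x.2) * x.2 := by
  unfold prim
  have h := intervalIntegral.mul_integral_comp_mul_right (f := fun r => w (x.1, r)) (a := 0) (b := 1)
    (c := x.2)
  rw [intervalIntegral.integral_mul_const, mul_comm]
  rw [h]; simp

theorem contDiff_prim {w : F × ℝ → ℝ} (hw : ContDiff ℝ ∞ w) : ContDiff ℝ ∞ (prim w) := by
  have h1 : prim w = fun x : F × ℝ => ∫ t in (0 : ℝ)..1, w (x.1, t * x.2) * x.2 := by
    funext x; exact prim_eq w x
  rw [h1]
  refine Pool.Agent.H66R2.RZPar.contDiff_int 0 1 (F × ℝ) ℝ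
    (fun p : (F × ℝ) × ℝ => w (p.1.1, p.2 * p.1.2) * p.1.2) ?_
  refine ContDiff.mul (hw.comp ?_) (by fun_prop)
  exact ContDiff.prodMk (by fun_prop) (by fun_prop)

theorem hasDerivAt_prim {w : F × ℝ → ℝ} (hw : Continuous w) (q : F) (s : ℝ) :
    HasDerivAt (fun s => prim w (q, s)) (w (q, s)) s := by
  have hc : Continuous (fun r => w (q, r)) := by fun_prop
  exact intervalIntegral.integral_hasDerivAt_right (hc.intervalIntegrable _ _)
    (hc.stronglyMeasurableAtFilter _ _) hc.continuousAt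

theorem prim_sub {w : F × ℝ → ℝ} (hw : Continuous w) (q : F) (s t : ℝ) :
    prim w (q, t) - prim w (q, s) = ∫ r in s..t, w (q, r) := by
  have hc : Continuous (fun r => w (q, r)) := by fun_prop
  show (∫ r in (0 : ℝ)..t, w (q, r)) - (∫ r in (0 : ℝ)..s, w (q, r)) = _
  rw [intervalIntegral.integral_interval_sub_left (hc.intervalIntegrable _ _)
    (hc.intervalIntegrable _ _)]

/-- derivative of a map of `F × ℝ` which is of triangular form -/
theorem bijective_fderiv_of_triangular {F' : Type} [NormedAddCommGroup F'] [NormedSpace ℝ F']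
    {f : F × ℝ → F' × ℝ} (hf : ContDiff ℝ ∞ f) {ψ : F → F'} (hψ : ContDiff ℝ ∞ ψ)
    (h1 : ∀ x, (f x).1 = ψ x.1) (hψd : ∀ q, Function.Bijective (fderiv ℝ ψ q))
    {D : F × ℝ → ℝ} (hD : ∀ q s, HasDerivAt (fun s => (f (q, s)).2) (D (q, s)) s)
    (hD0 : ∀ x, D x ≠ 0) (x : F × ℝ) : Function.Bijective (fderiv ℝ f x) := by
  have hfd : HasFDerivAt f (fderiv ℝ f x) x := ((hf.differentiable (by simp)) x).hasFDerivAt
  -- first component
  have e1 : ∀ v : F × ℝ, (fderiv ℝ f x v).1 = fderiv ℝ ψ x.1 v.1 := by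
    intro v
    have ha : HasFDerivAt (fun y => (f y).1) ((ContinuousLinearMap.fst ℝ F' ℝ).comp (fderiv ℝ f x)) x :=
      (ContinuousLinearMap.fst ℝ F' ℝ).hasFDerivAt.comp x hfd
    have hb : HasFDerivAt (fun y : F × ℝ => ψ y.1)
        ((fderiv ℝ ψ x.1).comp (ContinuousLinearMap.fst ℝ F ℝ)) x :=
      (((hψ.differentiable (by simp)) x.1).hasFDerivAt).comp x
        (ContinuousLinearMap.fst ℝ F ℝ).hasFDerivAt
    have hc : (fun y => (f y).1) = fun y : F × ℝ => ψ y.1 := by funext y; exact h1 y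
    rw [hc] at ha
    have := ha.unique hb
    exact congrArg (fun L : F × ℝ →L[ℝ] F' => L v) this
  have e2 : ∀ t : ℝ, fderiv ℝ f x (0, t) = (0, t * D x) := by
    intro t
    have hz1 : (fderiv ℝ f x (0, t)).1 = 0 := by rw [e1]; simp
    have hz2 : (fderiv ℝ f x (0, t)).2 = t * D x := by
      have ha : HasFDerivAt (fun y => (f y).2) ((ContinuousLinearMap.snd ℝ F' ℝ).comp (fderiv ℝ f x)) x :=
        (ContinuousLinearMap.snd ℝ F' ℝ).hasFDerivAt.comp x hfd
      have hb : HasDerivAt (fun s : ℝ => ((x.1, s) : F × ℝ)) (0, 1) x.2 :=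
        (hasDerivAt_const _ _).prodMk (hasDerivAt_id _)
      have hc := ha.comp_hasDerivAt x.2 hb
      have hd := hc.unique (hD x.1 x.2)
      have he : (fderiv ℝ f x (0, 1)).2 = D x := hd
      have hl : ((0, t) : F × ℝ) = t • ((0, 1) : F × ℝ) := by simp
      rw [hl, map_smul, Prod.smul_snd, he, smul_eq_mul]
    exact Prod.ext hz1 hz2
  constructor
  · rw [injective_iff_map_eq_zero]
    intro v hv
    have h2 : fderiv ℝ ψ x.1 v.1 = 0 := by rw [← e1, hv]; rfl
    have h3 : v.1 = 0 := by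
      have := (hψd x.1).1
      rw [injective_iff_map_eq_zero] at this
      exact this _ h2
    have h4 : v = (0, v.2) := by rw [← h3]
    rw [h4, e2] at hv
    have h5 : v.2 * D x = 0 := congrArg Prod.snd hv
    have h6 : v.2 = 0 := (mul_eq_zero.1 h5).resolve_right (hD0 x)
    rw [h4, h6]; rfl
  · intro u
    obtain ⟨v1, hv1⟩ := (hψd x.1).2 u.1
    set z := fderiv ℝ f x (v1, 0) with hz
    refine ⟨(v1, (u.2 - z.2) / D x), ?_⟩
    have h2 : ((v1, (u.2 - z.2) / D x) : F × ℝ) = (v1, 0) + (0, (u.2 - z.2) / D x) := by simp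
    rw [h2, map_add, e2, ← hz]
    apply Prod.ext
    · rw [Prod.fst_add, hz, e1, hv1]; simp
    · rw [Prod.snd_add, div_mul_cancel₀ _ (hD0 x)]; simp

end prim

end Pool.Agent.Run7.h816
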