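import Pool.Agent.Run7.h816.Avg

/-! Straightening: a smooth cocompact properly discontinuous action on `F × ℝ` which preserves the
lines `{q} × ℝ` can be conjugated, by a diffeomorphism preserving every line, into an action which
moves the lines isometrically. -/

set_option autoImplicit false

open Set Filter Topology Metric
open scoped ContDiff

namespace Pool.Agent.Run7.h816

section straight

variable {G F : Type} [Group G] [NormedAddCommGroup F] [NormedSpace ℝ F] [FiniteDimensional ℝ F]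

/-- a continuous strictly monotone unbounded function is onto -/
theorem surj_of_steps {f : ℝ → ℝ} (hf : Continuous f) {δ : ℝ} (hδ : 0 < δ)
    (hup : ∀ s, ∃ t, f s + δ ≤ f t) (hdn : ∀ s, ∃ t, f t ≤ f s - δ) : Function.Surjective f := by
  have h1 : ∀ n : ℕ, ∃ t, f 0 + n * δ ≤ f t := by
    intro n
    induction n with
    | zero => exact ⟨0, by simp⟩
    | succ n ih =>
      obtain ⟨t, ht⟩ := ih
      obtain ⟨u, hu⟩ := hup t
      exact ⟨u, by push_cast; nlinarith⟩
  have h2 : ∀ n : ℕ, ∃ t, f t ≤ f 0 - n * δ := by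
    intro n
    induction n with
    | zero => exact ⟨0, by simp⟩
    | succ n ih =>
      obtain ⟨t, ht⟩ := ih
      obtain ⟨u, hu⟩ := hdn t
      exact ⟨u, by push_cast; nlinarith⟩
  intro y
  obtain ⟨n, hn⟩ := exists_nat_gt (|y - f 0| / δ)
  have hn' : |y - f 0| < n * δ := by rwa [div_lt_iff₀ hδ] at hn
  obtain ⟨t, ht⟩ := h1 n
  obtain ⟨u, hu⟩ := h2 n
  have h3 := abs_lt.1 hn'
  have := intermediate_value_univ u t hf
  exact this ⟨by linarith, by linarith⟩

theorem straighten {a : G → F × ℝ → F × ℝ} (hact : IsAct a)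
    (hs : ∀ g, ContDiff ℝ ∞ (a g)) (hPD : PD a) (hCC : CC a) {b : G → F → F}
    (hb : ∀ g x, (a g x).1 = b g x.1) :
    ∃ (Θ Θi : F × ℝ → F × ℝ) (ε : G → ℝ) (β : G → F → ℝ), ContDiff ℝ ∞ Θ ∧ ContDiff ℝ ∞ Θi ∧
      (∀ x, Θi (Θ x) = x) ∧ (∀ x, Θ (Θi x) = x) ∧ (∀ x, (Θ x).1 = x.1) ∧
      (∀ x, Function.Bijective (fderiv ℝ Θ x)) ∧
      (∀ g, ε g = 1 ∨ ε g = -1) ∧ ∀ g q s, Θ (a g (Θi (q, s))) = (b g q, ε g * s + β g q) := by
  classical
  -- derivative along the lines
  set D : G → F × ℝ → ℝ := fun g x => (fderiv ℝ (a g) x (0, 1)).2 with hD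
  have hDs : ∀ g, ContDiff ℝ ∞ (D g) := by
    intro g
    have h1 : ContDiff ℝ ∞ (fderiv ℝ (a g)) := (hs g).fderiv_right (m := ∞) (by simp)
    exact contDiff_snd.comp (h1.clm_apply contDiff_const)
  have hDd : ∀ g q s, HasDerivAt (fun s => (a g (q, s)).2) (D g (q, s)) s := by
    intro g q s
    have ha : HasFDerivAt (a g) (fderiv ℝ (a g) (q, s)) (q, s) :=
      (((hs g).differentiable (by simp)) _).hasFDerivAt
    have hb' : HasDerivAt (fun s : ℝ => ((q, s) : F × ℝ)) (0, 1) s :=
      (hasDerivAt_const _ _).prodMk (hasDerivAt_id _)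
    have hc := ha.comp_hasDerivAt s hb'
    exact (ContinuousLinearMap.snd ℝ F ℝ).hasFDerivAt.comp_hasDerivAt s hc
  have hDmul : ∀ g h x, D (g * h) x = D g (a h x) * D h x := by
    intro g h x
    obtain ⟨q, s⟩ := x
    have h1 := hDd (g * h) q s
    have h2 : (fun s => (a (g * h) (q, s)).2) =
        (fun t => (a g (b h q, t)).2) ∘ fun s => (a h (q, s)).2 := by
      funext s
      simp only [Function.comp]
      rw [hact.mul]
      congr 2
      ext
      · rw [hb]
      · rfl
    have h3 := (hDd g (b h q) (a h (q, s)).2).comp s (hDd h q s)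
    rw [← h2] at h3
    have h4 := h1.unique h3
    rw [h4]
    congr 2
    ext
    · rw [hb]
    · rfl
  have hDone : ∀ x, D 1 x = 1 := by
    intro x
    obtain ⟨q, s⟩ := x
    have h1 := hDd 1 q s
    have h2 : (fun s => (a 1 (q, s)).2) = fun s => s := by
      funext s; rw [hact.one]
    rw [h2] at h1
    exact h1.unique (hasDerivAt_id s)
  have hDne : ∀ g x, D g x ≠ 0 := by
    intro g x h0
    have h1 := hDmul g⁻¹ g x
    rw [inv_mul_cancel, hDone, h0, mul_zero] at h1
    exact one_ne_zero h1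
  have hDsign : ∀ g, ∃ e : ℝ, (e = 1 ∨ e = -1) ∧ ∀ x, D g x = e * |D g x| := by
    intro g
    rcases sign_const (convex_univ (𝕜 := ℝ) (E := F × ℝ)).isPreconnected
      (hDs g).continuous.continuousOn (fun p _ => hDne g p) with h | h
    · exact ⟨1, Or.inl rfl, fun x => by rw [abs_of_pos (h x (mem_univ _)), one_mul]⟩
    · exact ⟨-1, Or.inr rfl, fun x => by rw [abs_of_neg (h x (mem_univ _))]; ring⟩
  choose ε hε hεD using hDsign
  -- invariant density
  obtain ⟨K, hK, hKc⟩ := id hCC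
  obtain ⟨χ, hχs, hχ, hχ0, hχ1⟩ := exists_bump K hK
  set w : F × ℝ → ℝ := fun x => ∑ᶠ g, χ (a g x) • |D g x| with hw
  have hws : ContDiff ℝ ∞ w := by
    refine contDiff_sum hs hPD hχs hχ (fun g x => |D g x|) fun g => ?_
    rw [contDiff_iff_contDiffAt]
    intro x
    exact (contDiffAt_abs (hDne g x)).comp x (hDs g).contDiffAt
  have hwpos : ∀ x, 0 < w x := by
    intro x
    obtain ⟨S, hS⟩ := locfin hPD hχ x
    have h1 : w x = ∑ g ∈ S, χ (a g x) • |D g x| :=
      sum_eq (fun g x => |D g x|) (hS x (mem_closedBall_self zero_le_one))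
    rw [h1]
    obtain ⟨g, hg⟩ := hKc x
    have hg' : 0 < χ (a g x) := hχ1 _ hg
    apply Finset.sum_pos'
    · intro i _; exact mul_nonneg (hχ0 _) (abs_nonneg _)
    · exact ⟨g, hS x (mem_closedBall_self zero_le_one) g hg'.ne',
        mul_pos hg' (abs_pos.2 (hDne g x))⟩
  have hwinv : ∀ h x, w (a h x) * |D h x| = w x := by
    intro h x
    simp only [hw]
    rw [mul_comm, ← smul_eq_mul, smul_finsum]
    rw [← finsum_comp_equiv (Equiv.mulRight h) (f := fun g => χ (a g x) • |D g x|)]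
    congr 1
    funext g
    simp only [Equiv.coe_mulRight, smul_eq_mul]
    rw [hact.mul, hDmul, abs_mul]
    ring
  -- the new coordinate
  set ς : F × ℝ → ℝ := prim w with hς
  have hςs : ContDiff ℝ ∞ ς := contDiff_prim hws
  have hςd : ∀ q s, HasDerivAt (fun s => ς (q, s)) (w (q, s)) s := fun q s =>
    hasDerivAt_prim hws.continuous q s
  have hς0 : ∀ q, ς (q, 0) = 0 := by
    intro q; simp [hς, prim]
  -- transformation rule
  have hrule : ∀ h q s, ς (a h (q, s)) = ε h * ς (q, s) + ς (a h (q, 0)) := by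
    intro h q s
    have h1 : ∀ s, HasDerivAt (fun s => ς (a h (q, s)) - ε h * ς (q, s)) 0 s := by
      intro s
      have h2 : HasDerivAt (fun s => ς (a h (q, s))) (w (a h (q, s)) * D h (q, s)) s := by
        have h3 := (hςd (b h q) (a h (q, s)).2).comp s (hDd h q s)
        have h4 : (fun s => ς (a h (q, s))) = (fun t => ς (b h q, t)) ∘ fun s => (a h (q, s)).2 := by
          funext s
          simp only [Function.comp]
          congr 1
          ext
          · rw [hb]
          · rfl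
        rw [h4]
        have h5 : a h (q, s) = (b h q, (a h (q, s)).2) := by
          ext
          · rw [hb]
          · rfl
        have h6 : w (a h (q, s)) = w (b h q, (a h (q, s)).2) := by rw [← h5]
        rw [h6]
        exact h3
      have h5 := h2.fun_sub ((hςd q s).const_mul (ε h))
      have h7 : w (a h (q, s)) * D h (q, s) - ε h * w (q, s) = 0 := by
        rw [← hwinv h (q, s)]
        have h6 := hεD h (q, s)
        nth_rewrite 1 [h6]
        ring
      rw [h7] at h5
      exact h5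
    have h2 := is_const_of_deriv_eq_zero (f := fun s => ς (a h (q, s)) - ε h * ς (q, s))
      (fun s => (h1 s).differentiableAt) (fun s => (h1 s).deriv) s 0
    rw [hς0, mul_zero, sub_zero] at h2
    linarith
  -- completeness
  obtain ⟨δ, hδ, hδ1, hδ2⟩ : ∃ δ > 0, (∀ k ∈ K, δ ≤ ς (k.1, k.2 + 1) - ς k) ∧
      (∀ k ∈ K, δ ≤ ς k - ς (k.1, k.2 - 1)) := by
    have hmono : ∀ q, StrictMono (fun s => ς (q, s)) := by
      intro q
      exact strictMono_of_hasDerivAt_pos (fun s => hςd q s) fun s => hwpos _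
    rcases K.eq_empty_or_nonempty with rfl | hne
    · exact ⟨1, one_pos, by simp, by simp⟩
    have hςc := hςs.continuous
    obtain ⟨k1, hk1, hk1m⟩ := hK.exists_isMinOn hne
      (f := fun k : F × ℝ => ς (k.1, k.2 + 1) - ς k) (by fun_prop)
    obtain ⟨k2, hk2, hk2m⟩ := hK.exists_isMinOn hne
      (f := fun k : F × ℝ => ς k - ς (k.1, k.2 - 1)) (by fun_prop)
    have p1 : 0 < ς (k1.1, k1.2 + 1) - ς k1 :=
      sub_pos.2 (hmono k1.1 (by linarith : k1.2 < k1.2 + 1))
    have p2 : 0 < ς k2 - ς (k2.1, k2.2 - 1) :=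
      sub_pos.2 (hmono k2.1 (by linarith : k2.2 - 1 < k2.2))
    refine ⟨min (ς (k1.1, k1.2 + 1) - ς k1) (ς k2 - ς (k2.1, k2.2 - 1)), lt_min p1 p2, ?_, ?_⟩
    · intro k hk; exact (min_le_left _ _).trans (hk1m hk)
    · intro k hk; exact (min_le_right _ _).trans (hk2m hk)
  have hsteps : ∀ q s, (∃ t, ς (q, s) + δ ≤ ς (q, t)) ∧ ∃ t, ς (q, t) ≤ ς (q, s) - δ := by
    intro q s
    obtain ⟨g, hg⟩ := hKc (q, s)
    set k := a g (q, s) with hk
    have hk1 : k.1 = b g q := by rw [hk, hb]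
    have hbb : ∀ r, (a g⁻¹ (k.1, r)).1 = q := by
      intro r
      rw [hb, hk1]
      have := congrArg Prod.fst (hact.inv_left g (q, s))
      rw [hb, hb] at this; exact this
    have hx : ∀ r, (q, (a g⁻¹ (k.1, r)).2) = a g⁻¹ (k.1, r) := by
      intro r; ext
      · exact (hbb r).symm
      · rfl
    have hd : ∀ r, ς (q, (a g⁻¹ (k.1, r)).2) - ς (q, s) = ε g⁻¹ * (ς (k.1, r) - ς k) := by
      intro r
      rw [hx]
      have h1 := hrule g⁻¹ k.1 r
      have h2 := hrule g⁻¹ k.1 k.2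
      have h3 : a g⁻¹ (k.1, k.2) = (q, s) := by
        rw [Prod.mk.eta, hk, hact.inv_left]
      rw [h3, Prod.mk.eta] at h2
      rw [h1, h2]; ring
    have d1 := hδ1 k hg
    have d2 := hδ2 k hg
    rcases hε g⁻¹ with he | he
    · refine ⟨⟨(a g⁻¹ (k.1, k.2 + 1)).2, ?_⟩, ⟨(a g⁻¹ (k.1, k.2 - 1)).2, ?_⟩⟩
      · have := hd (k.2 + 1); rw [he] at this; linarith
      · have := hd (k.2 - 1); rw [he] at this; linarith
    · refine ⟨⟨(a g⁻¹ (k.1, k.2 - 1)).2, ?_⟩, ⟨(a g⁻¹ (k.1, k.2 + 1)).2, ?_⟩⟩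
      · have := hd (k.2 - 1); rw [he] at this; linarith
      · have := hd (k.2 + 1); rw [he] at this; linarith
  have hsurj : ∀ q, Function.Surjective (fun s => ς (q, s)) := by
    intro q
    have hςc := hςs.continuous
    exact surj_of_steps (by fun_prop) hδ (fun s => (hsteps q s).1) fun s => (hsteps q s).2
  -- the straightening diffeomorphism
  set Θ : F × ℝ → F × ℝ := fun x => (x.1, ς x) with hΘ
  have hΘs : ContDiff ℝ ∞ Θ := contDiff_fst.prodMk hςs
  have hΘd : ∀ x, Function.Bijective (fderiv ℝ Θ x) := by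
    intro x
    refine bijective_fderiv_of_triangular hΘs (ψ := fun q => q) contDiff_id (fun x => rfl) ?_
      (D := w) (fun q s => hςd q s) (fun x => (hwpos x).ne') x
    intro q
    rw [fderiv_fun_id]
    exact Function.bijective_id
  have hΘb : Function.Bijective Θ := by
    constructor
    · intro x y hxy
      have h0 : (Θ x).1 = (Θ y).1 := congrArg Prod.fst hxy
      have h0' : (Θ x).2 = (Θ y).2 := congrArg Prod.snd hxy
      have h1 : x.1 = y.1 := h0
      have h2 : ς x = ς y := h0'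
      have hmono : StrictMono (fun s => ς (x.1, s)) :=
        strictMono_of_hasDerivAt_pos (fun s => hςd x.1 s) fun s => hwpos _
      have h3 : ς (x.1, x.2) = ς (x.1, y.2) := by
        rw [Prod.mk.eta, h2, h1]
      exact Prod.ext h1 (hmono.injective h3)
    · intro y
      obtain ⟨s, hs'⟩ := hsurj y.1 y.2
      exact ⟨(y.1, s), Prod.ext rfl hs'⟩
  obtain ⟨Θi, hΘis, hΘl, hΘr⟩ := exists_smooth_inverse hΘs hΘd hΘb
  refine ⟨Θ, Θi, ε, fun g q => ς (a g (q, 0)), hΘs, hΘis, hΘl, hΘr, fun x => rfl, hΘd, hε, ?_⟩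
  intro g q s
  have h1 : Θ (Θi (q, s)) = (q, s) := hΘr _
  have h2' : (Θ (Θi (q, s))).1 = q := congrArg Prod.fst h1
  have h3' : (Θ (Θi (q, s))).2 = s := congrArg Prod.snd h1
  have h2 : (Θi (q, s)).1 = q := h2'
  have h3 : ς (Θi (q, s)) = s := h3'
  have h4 : Θi (q, s) = (q, (Θi (q, s)).2) := Prod.ext h2 rfl
  have h5 : ς (a g (Θi (q, s))) = ε g * s + ς (a g (q, 0)) := by
    have h6 := hrule g q (Θi (q, s)).2
    rw [← h4, h3] at h6
    exact h6
  have h7 : (a g (Θi (q, s))).1 = b g q := by rw [hb, h2]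
  exact Prod.ext h7 h5

end straight

end Pool.Agent.Run7.h816
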