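import Pool.Agent.Run7.h816.Lattice

/-! Rigidity over a common quotient by the translations. -/

set_option autoImplicit false

open Set Filter Topology Metric
open scoped ContDiff

namespace Pool.Agent.Run7.h816

section sums

variable {G X Z W : Type*} [Group G] [NormedAddCommGroup X] [NormedSpace ℝ X]
  [FiniteDimensional ℝ X] [NormedAddCommGroup Z] [NormedSpace ℝ Z] [NormedAddCommGroup W]
  [NormedSpace ℝ W]

/-- sums with weights pulled back from another space -/
theorem contDiff_sum_pull {a : G → X → X} (hs : ∀ g, ContDiff ℝ ∞ (a g)) (hPD : PD a) {χ : X → ℝ}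
    (hχs : ContDiff ℝ ∞ χ) (hχ : HasCompactSupport χ) {π : Z → X} (hπ : ContDiff ℝ ∞ π)
    (c : G → Z → W) (hc : ∀ g, ContDiff ℝ ∞ (c g)) :
    ContDiff ℝ ∞ (fun z => ∑ᶠ g, χ (a g (π z)) • c g z) := by
  rw [contDiff_iff_contDiffAt]
  intro z₀
  obtain ⟨S, hS⟩ := locfin hPD hχ (π z₀)
  have h1 : ContDiffAt ℝ ∞ (fun z => ∑ g ∈ S, χ (a g (π z)) • c g z) z₀ := by
    apply ContDiff.contDiffAt
    apply ContDiff.sum
    intro g _
    exact (hχs.comp ((hs g).comp hπ)).smul (hc g)
  refine h1.congr_of_eventuallyEq ?_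
  have h2 : ∀ᶠ z in 𝓝 z₀, π z ∈ closedBall (π z₀) 1 :=
    hπ.continuous.continuousAt.eventually (closedBall_mem_nhds (π z₀) one_pos)
  filter_upwards [h2] with z hz
  apply finsum_eq_sum_of_support_subset
  intro g hg
  rw [Function.mem_support] at hg
  apply hS _ hz
  intro h; apply hg; rw [h, zero_smul]

/-- a convex combination commutes with an affine map -/
theorem affine_finsum' {G : Type*} {W W' : Type*} [AddCommGroup W] [Module ℝ W] [AddCommGroup W']
    [Module ℝ W'] {w : G → ℝ} (hw : (Function.support w).Finite) (h1 : ∑ᶠ g, w g = 1)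
    (L : W →ᵃ[ℝ] W') (y : G → W) : L (∑ᶠ g, w g • y g) = ∑ᶠ g, w g • L (y g) := by
  have hL : ∀ x, L x = L.linear x + L 0 := by
    intro x
    have := L.map_vadd 0 x
    simpa using this
  have h1' : ∑ g ∈ hw.toFinset, w g = 1 := by
    rw [← h1]; symm
    apply finsum_eq_sum_of_support_subset
    rw [Set.Finite.coe_toFinset]
  have e1 : ∑ᶠ g, w g • y g = ∑ g ∈ hw.toFinset, w g • y g := by
    apply finsum_eq_sum_of_support_subset
    intro g hg
    rw [Function.mem_support] at hg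
    rw [Set.Finite.coe_toFinset, Function.mem_support]
    intro h; apply hg; rw [h, zero_smul]
  have e2 : ∑ᶠ g, w g • L (y g) = ∑ g ∈ hw.toFinset, w g • L (y g) := by
    apply finsum_eq_sum_of_support_subset
    intro g hg
    rw [Function.mem_support] at hg
    rw [Set.Finite.coe_toFinset, Function.mem_support]
    intro h; apply hg; rw [h, zero_smul]
  rw [e1, e2, hL, map_sum]
  have h2 : L 0 = ∑ g ∈ hw.toFinset, w g • L 0 := by rw [← Finset.sum_smul, h1', one_smul]
  conv_lhs => rw [h2]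
  rw [← Finset.sum_add_distrib]
  refine Finset.sum_congr rfl fun g _ => ?_
  rw [hL (y g), smul_add, map_smul]

end sums

section trans

variable {G E E' : Type} [Group G] [NormedAddCommGroup E] [NormedSpace ℝ E] [FiniteDimensional ℝ E]
  [NormedAddCommGroup E'] [NormedSpace ℝ E'] [FiniteDimensional ℝ E']

/-- normality -/
theorem trans_normal {A : G →* (E ≃ᵃ[ℝ] E)} {T : Subgroup G} [T.Normal] (g : G) {v : E}
    (hv : v ∈ trans A T) : (A g).linear v ∈ trans A T := by
  obtain ⟨t, ht, h1⟩ := hv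
  refine ⟨g * t * g⁻¹, Subgroup.Normal.conj_mem inferInstance t ht g, fun x => ?_⟩
  rw [map_mul, map_mul]
  show A g (A t (A g⁻¹ x)) = _
  rw [h1, affe_add]
  have : A g (A g⁻¹ x) = x := (actOf_act A).inv_right g x
  rw [this]

theorem span_normal {A : G →* (E ≃ᵃ[ℝ] E)} {T : Subgroup G} [T.Normal] (g : G) {v : E}
    (hv : v ∈ Submodule.span ℝ (trans A T)) : (A g).linear v ∈ Submodule.span ℝ (trans A T) := by
  have h1 : Submodule.span ℝ (trans A T) ≤
      (Submodule.span ℝ (trans A T)).comap ((A g).linear : E →ₗ[ℝ] E) := by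
    rw [Submodule.span_le]
    intro w hw
    exact Submodule.subset_span (trans_normal g hw)
  exact h1 hv

/-- corresponding pairs of translation vectors -/
def pairs (A : G →* (E ≃ᵃ[ℝ] E)) (A' : G →* (E' ≃ᵃ[ℝ] E')) (T : Subgroup G) :
    AddSubgroup (E × E') where
  carrier := {p | ∃ t ∈ T, (∀ x, A t x = x + p.1) ∧ ∀ x, A' t x = x + p.2}
  add_mem' := by
    rintro p q ⟨t, ht, h1, h1'⟩ ⟨s, hs, h2, h2'⟩
    refine ⟨s * t, T.mul_mem hs ht, fun x => ?_, fun x => ?_⟩
    · rw [map_mul]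
      show A s (A t x) = _
      rw [h1, h2, add_assoc]; rfl
    · rw [map_mul]
      show A' s (A' t x) = _
      rw [h1', h2', add_assoc]; rfl
  zero_mem' := ⟨1, T.one_mem, fun x => by simp, fun x => by simp⟩
  neg_mem' := by
    rintro p ⟨t, ht, h1, h1'⟩
    refine ⟨t⁻¹, T.inv_mem ht, fun x => ?_, fun x => ?_⟩
    · have h2 : A t (x + -p.1) = x := by rw [h1]; abel
      have h3 : A t⁻¹ (A t (x + -p.1)) = x + -p.1 := (actOf_act A).inv_left t _
      rw [h2] at h3; exact h3
    · have h2 : A' t (x + -p.2) = x := by rw [h1']; abel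
      have h3 : A' t⁻¹ (A' t (x + -p.2)) = x + -p.2 := (actOf_act A').inv_left t _
      rw [h2] at h3; exact h3

/-- the linear map relating the translations -/
theorem exists_B {A : G →* (E ≃ᵃ[ℝ] E)} {A' : G →* (E' ≃ᵃ[ℝ] E')} (hA : Function.Injective A)
    (hPD : PD (actOf A)) {T : Subgroup G} (hT' : ∀ t ∈ T, ∃ v, ∀ x, A' t x = x + v) :
    ∃ B : E →ₗ[ℝ] E', ∀ p ∈ pairs A A' T, B p.1 = p.2 := by
  obtain ⟨ι, _, b, hb, hb2⟩ := exists_lat_basis hPD T
  choose t ht htb using hb
  choose v' hv' using fun i => hT' (t i) (ht i)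
  obtain ⟨B, hB⟩ := LinearMap.exists_extend (b.constr ℝ v')
  have hBb : ∀ i, B (b i) = v' i := by
    intro i
    have h1 := congrArg (fun L : _ →ₗ[ℝ] E' => L (b i)) hB
    simp only [LinearMap.comp_apply, Submodule.subtype_apply, Module.Basis.constr_basis] at h1
    exact h1
  have hpi : ∀ i, (((b i : E), v' i) : E × E') ∈ pairs A A' T :=
    fun i => ⟨t i, ht i, htb i, hv' i⟩
  refine ⟨B, fun p hp => ?_⟩
  have hp1 : p.1 ∈ trans A T := by
    obtain ⟨t, ht, h1, -⟩ := hp
    exact ⟨t, ht, h1⟩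
  obtain ⟨c, hc⟩ := hb2 p.1 hp1
  have h2 : (∑ i, c i • (((b i : E), v' i) : E × E')) ∈ pairs A A' T :=
    AddSubgroup.sum_mem _ fun i _ => AddSubgroup.zsmul_mem _ (hpi i) _
  have h3 : (∑ i, c i • (((b i : E), v' i) : E × E')) = (p.1, ∑ i, c i • v' i) := by
    rw [hc]
    ext
    · simp [Prod.fst_sum]
    · simp [Prod.snd_sum]
  rw [h3] at h2
  have h4 := AddSubgroup.sub_mem _ hp h2
  obtain ⟨s, hs, h5, h6⟩ := h4
  have h7 : s = 1 := by
    apply hA
    rw [map_one]
    ext x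
    rw [h5]; simp
  have h8 : p.2 - ∑ i, c i • v' i = 0 := by
    have := h6 0
    rw [h7] at this
    simpa using this.symm
  have h9 : B p.1 = ∑ i, c i • v' i := by
    conv_lhs => rw [hc]
    rw [map_sum]
    refine Finset.sum_congr rfl fun i _ => ?_
    rw [map_zsmul, hBb]
  rw [h9]
  exact (sub_eq_zero.1 h8).symm

end trans

section quot

variable {G E Y : Type} [Group G] [NormedAddCommGroup E] [NormedSpace ℝ E] [FiniteDimensional ℝ E]
  [NormedAddCommGroup Y] [NormedSpace ℝ Y] [FiniteDimensional ℝ Y]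

theorem aff_contDiff (f : E →ᵃ[ℝ] Y) : ContDiff ℝ ∞ f := by
  have h1 : (f : E → Y) = fun x => f.linear x + f 0 := by
    funext x; exact aff_apply f x
  rw [h1]
  exact ((LinearMap.toContinuousLinearMap f.linear).contDiff).add contDiff_const

theorem aff_add (f : E →ᵃ[ℝ] Y) (x v : E) : f (x + v) = f x + f.linear v := by
  rw [aff_apply f (x + v), aff_apply f x, map_add]; abel

theorem aff_sub (f : E →ᵃ[ℝ] Y) (x y : E) : f x - f y = f.linear (x - y) := by
  rw [aff_apply f x, aff_apply f y, map_sub]; abel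

/-- affine sections -/
theorem exists_section {π : E →ᵃ[ℝ] Y} (hπ : Function.Surjective π) :
    ∃ σ : Y →ᵃ[ℝ] E, ∀ y, π (σ y) = y := by
  have h1 : Function.Surjective π.linear := (AffineMap.linear_surjective_iff π).2 hπ
  obtain ⟨L, hL⟩ := LinearMap.exists_rightInverse_of_surjective π.linear (LinearMap.range_eq_top.2 h1)
  have hL' : ∀ y, π.linear (L y) = y := fun y => congrArg (fun M : Y →ₗ[ℝ] Y => M y) hL
  refine ⟨L.toAffineMap - AffineMap.const ℝ Y (L (π 0)), fun y => ?_⟩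
  have h2 : (L.toAffineMap - AffineMap.const ℝ Y (L (π 0))) y = L y - L (π 0) := rfl
  rw [h2, aff_apply, map_sub, hL', hL']; abel

/-- the induced action on the quotient -/
theorem exists_induced {A : G →* (E ≃ᵃ[ℝ] E)} {T : Subgroup G} [T.Normal] {π : E →ᵃ[ℝ] Y}
    (hπ : Function.Surjective π) (hker : LinearMap.ker π.linear = Submodule.span ℝ (trans A T)) :
    ∃ C : G → Y → Y, ∀ g x, C g (π x) = π (A g x) := by
  obtain ⟨σ, hσ⟩ := exists_section hπ
  refine ⟨fun g y => π (A g (σ y)), fun g x => ?_⟩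
  have h1 : σ (π x) - x ∈ Submodule.span ℝ (trans A T) := by
    rw [← hker, LinearMap.mem_ker, ← aff_sub, hσ, sub_self]
  have h2 : (A g).linear (σ (π x) - x) ∈ LinearMap.ker π.linear := by
    rw [hker]; exact span_normal g h1
  have h3 : A g (σ (π x)) = A g x + (A g).linear (σ (π x) - x) := by
    rw [← affe_add]; congr 1; abel
  show π (A g (σ (π x))) = _
  rw [h3, aff_add, LinearMap.mem_ker.1 h2, add_zero]

/-- maps which only depend on the coset -/
theorem bar_mk {Z : Type*} {T : Subgroup G} {C : G → Z} (hCT : ∀ g, ∀ t ∈ T, C (g * t) = C g)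
    (g : G) : C (Quotient.out (g : G ⧸ T)) = C g := by
  obtain ⟨t, ht⟩ := QuotientGroup.mk_out_eq_mul T g
  rw [ht]; exact hCT g t t.2

variable {A : G →* (E ≃ᵃ[ℝ] E)} {T : Subgroup G} {π : E →ᵃ[ℝ] Y} {C : G → Y → Y}

theorem ind_act (hπ : Function.Surjective π) (hC : ∀ g x, C g (π x) = π (A g x)) : IsAct C where
  one := by
    intro y
    obtain ⟨x, rfl⟩ := hπ y
    rw [hC]; simp
  mul := by
    intro g h y
    obtain ⟨x, rfl⟩ := hπ y
    rw [hC, hC, hC, map_mul]; rfl

theorem ind_smooth (hπ : Function.Surjective π) (hC : ∀ g x, C g (π x) = π (A g x)) (g : G) :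
    ContDiff ℝ ∞ (C g) := by
  obtain ⟨σ, hσ⟩ := exists_section hπ
  have h1 : C g = fun y => π (A g (σ y)) := by
    funext y
    conv_lhs => rw [← hσ y]
    rw [hC]
  rw [h1]
  exact (aff_contDiff π).comp ((actOf_contDiff A g).comp (aff_contDiff σ))

theorem ind_trans (hπ : Function.Surjective π) (hker : LinearMap.ker π.linear =
    Submodule.span ℝ (trans A T)) (hT : ∀ t ∈ T, ∃ v, ∀ x, A t x = x + v)
    (hC : ∀ g x, C g (π x) = π (A g x)) (g : G) (t : G) (ht : t ∈ T) : C (g * t) = C g := by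
  funext y
  rw [(ind_act hπ hC).mul]
  congr 1
  obtain ⟨x, rfl⟩ := hπ y
  obtain ⟨v, hv⟩ := hT t ht
  have h1 : v ∈ LinearMap.ker π.linear := by
    rw [hker]; exact Submodule.subset_span ⟨t, ht, hv⟩
  rw [hC, hv, aff_add, LinearMap.mem_ker.1 h1, add_zero]

variable [T.Normal]

theorem bar_act (hπ : Function.Surjective π) (hker : LinearMap.ker π.linear =
    Submodule.span ℝ (trans A T)) (hT : ∀ t ∈ T, ∃ v, ∀ x, A t x = x + v)
    (hC : ∀ g x, C g (π x) = π (A g x)) : IsAct (fun h : G ⧸ T => C (Quotient.out h)) where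
  one := by
    intro y
    have := bar_mk (ind_trans hπ hker hT hC) (1 : G)
    rw [QuotientGroup.mk_one] at this
    show C (Quotient.out (1 : G ⧸ T)) y = y
    rw [this, (ind_act hπ hC).one]
  mul := by
    intro h k y
    have h1 := bar_mk (ind_trans hπ hker hT hC) (Quotient.out h * Quotient.out k)
    have h2 : ((Quotient.out h * Quotient.out k : G) : G ⧸ T) = h * k := by
      rw [QuotientGroup.mk_mul]
      rw [QuotientGroup.out_eq', QuotientGroup.out_eq']
    rw [h2] at h1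
    show C (Quotient.out (h * k)) y = _
    rw [h1, (ind_act hπ hC).mul]

theorem bar_CC (hπ : Function.Surjective π) (hker : LinearMap.ker π.linear =
    Submodule.span ℝ (trans A T)) (hT : ∀ t ∈ T, ∃ v, ∀ x, A t x = x + v)
    (hC : ∀ g x, C g (π x) = π (A g x)) (hCC : CC (actOf A)) :
    CC (fun h : G ⧸ T => C (Quotient.out h)) := by
  obtain ⟨K, hK, hKc⟩ := hCC
  refine ⟨π '' K, hK.image (aff_contDiff π).continuous, fun y => ?_⟩
  obtain ⟨x, rfl⟩ := hπ y
  obtain ⟨g, hg⟩ := hKc x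
  refine ⟨(g : G ⧸ T), ?_⟩
  show C (Quotient.out (g : G ⧸ T)) (π x) ∈ _
  rw [bar_mk (ind_trans hπ hker hT hC) g, hC]
  exact mem_image_of_mem _ hg

theorem bar_PD (hπ : Function.Surjective π) (hker : LinearMap.ker π.linear =
    Submodule.span ℝ (trans A T)) (hT : ∀ t ∈ T, ∃ v, ∀ x, A t x = x + v)
    (hC : ∀ g x, C g (π x) = π (A g x)) (hPD : PD (actOf A)) :
    PD (fun h : G ⧸ T => C (Quotient.out h)) := by
  intro K hK
  obtain ⟨σ, hσ⟩ := exists_section hπ
  obtain ⟨R, hR⟩ := exists_bounded_rep hPD T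
  have hR0 : 0 ≤ R := by
    obtain ⟨w, -, hw⟩ := hR 0 (Submodule.zero_mem _)
    exact (norm_nonneg _).trans hw
  set K2 : Set E := (fun p : E × E => p.1 + p.2) '' ((σ '' K) ×ˢ closedBall 0 R) with hK2
  have hK2c : IsCompact K2 :=
    ((hK.image (aff_contDiff σ).continuous).prod (isCompact_closedBall 0 R)).image
      (continuous_fst.add continuous_snd)
  have hfin := hPD K2 hK2c
  refine (hfin.image (fun g : G => (g : G ⧸ T))).subset ?_
  rintro h ⟨y, hy, hy'⟩
  obtain ⟨g, rfl⟩ := QuotientGroup.mk_surjective h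
  have hy' : C (Quotient.out (g : G ⧸ T)) y ∈ K := hy'
  rw [bar_mk (ind_trans hπ hker hT hC) g] at hy'
  have h1 : σ (C g y) - A g (σ y) ∈ Submodule.span ℝ (trans A T) := by
    rw [← hker, LinearMap.mem_ker, ← aff_sub, hσ, ← hC, hσ, sub_self]
  obtain ⟨w, ⟨t, ht, htw⟩, hw⟩ := hR _ h1
  refine ⟨t * g, ⟨σ y, ?_, ?_⟩, ?_⟩
  · exact ⟨(σ y, 0), ⟨mem_image_of_mem _ hy, mem_closedBall_self hR0⟩, add_zero _⟩
  · have h2 : actOf A (t * g) (σ y) = σ (C g y) + -(σ (C g y) - A g (σ y) - w) := by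
      rw [(actOf_act A).mul]
      show A t (A g (σ y)) = _
      rw [htw]; abel
    rw [h2]
    refine ⟨(σ (C g y), -(σ (C g y) - A g (σ y) - w)), ⟨mem_image_of_mem _ hy', ?_⟩, rfl⟩
    rw [mem_closedBall, dist_zero_right, norm_neg]
    exact hw
  · show ((t * g : G) : G ⧸ T) = g
    rw [QuotientGroup.mk_mul, (QuotientGroup.eq_one_iff t).2 ht, one_mul]

end quot

end Pool.Agent.Run7.h816
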