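import Pool.Agent.Run7.h816.Torus

/-! Rigidity over a common quotient by the translations: the main theorem. -/

set_option autoImplicit false

open Set Filter Topology Metric
open scoped ContDiff

namespace Pool.Agent.Run7.h816

section rigid

variable {G E E' Y Y' : Type} [Group G] [NormedAddCommGroup E] [NormedSpace ℝ E]
  [FiniteDimensional ℝ E] [NormedAddCommGroup E'] [NormedSpace ℝ E'] [FiniteDimensional ℝ E']
  [NormedAddCommGroup Y] [NormedSpace ℝ Y] [FiniteDimensional ℝ Y]
  [NormedAddCommGroup Y'] [NormedSpace ℝ Y'] [FiniteDimensional ℝ Y']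

theorem pair_conj {A : G →* (E ≃ᵃ[ℝ] E)} {A' : G →* (E' ≃ᵃ[ℝ] E')} {T : Subgroup G} [T.Normal]
    (g : G) {p : E × E'} (hp : p ∈ pairs A A' T) :
    ((A g).linear p.1, (A' g).linear p.2) ∈ pairs A A' T := by
  obtain ⟨t, ht, h1, h2⟩ := hp
  refine ⟨g * t * g⁻¹, Subgroup.Normal.conj_mem inferInstance t ht g, fun x => ?_, fun x => ?_⟩
  · rw [map_mul, map_mul]
    show A g (A t (A g⁻¹ x)) = _
    rw [h1, affe_add]
    have : A g (A g⁻¹ x) = x := (actOf_act A).inv_right g x
    rw [this]
  · rw [map_mul, map_mul]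
    show A' g (A' t (A' g⁻¹ x)) = _
    rw [h2, affe_add]
    have : A' g (A' g⁻¹ x) = x := (actOf_act A').inv_right g x
    rw [this]

/-- all properties of the linear map relating the translations -/
theorem exists_B_props {A : G →* (E ≃ᵃ[ℝ] E)} {A' : G →* (E' ≃ᵃ[ℝ] E')}
    (hA : Function.Injective A) (hA' : Function.Injective A')
    (hPD : PD (actOf A)) (hPD' : PD (actOf A')) {T : Subgroup G} [T.Normal]
    (hT : ∀ t ∈ T, ∃ v, ∀ x, A t x = x + v) (hT' : ∀ t ∈ T, ∃ v, ∀ x, A' t x = x + v) :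
    ∃ B : E →ₗ[ℝ] E', (∀ p ∈ pairs A A' T, B p.1 = p.2) ∧
      (∀ g, ∀ v ∈ Submodule.span ℝ (trans A T), (A' g).linear (B v) = B ((A g).linear v)) ∧
      (∀ v ∈ Submodule.span ℝ (trans A T), B v = 0 → v = 0) ∧
      (∀ v ∈ Submodule.span ℝ (trans A T), B v ∈ Submodule.span ℝ (trans A' T)) ∧
      ∀ v' ∈ Submodule.span ℝ (trans A' T), ∃ v ∈ Submodule.span ℝ (trans A T), B v = v' := by
  obtain ⟨B, hB⟩ := exists_B hA hPD hT'
  obtain ⟨B', hB'⟩ := exists_B hA' hPD' hT
  have hpair : ∀ v ∈ trans A T, ∃ v' ∈ trans A' T, (v, v') ∈ pairs A A' T := by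
    rintro v ⟨t, ht, h1⟩
    obtain ⟨v', hv'⟩ := hT' t ht
    exact ⟨v', ⟨t, ht, hv'⟩, t, ht, h1, hv'⟩
  have hpair' : ∀ v' ∈ trans A' T, ∃ v ∈ trans A T, (v, v') ∈ pairs A A' T := by
    rintro v' ⟨t, ht, h1⟩
    obtain ⟨v, hv⟩ := hT t ht
    exact ⟨v, ⟨t, ht, hv⟩, t, ht, hv, h1⟩
  have hswap : ∀ v v', (v, v') ∈ pairs A A' T → (v', v) ∈ pairs A' A T := by
    rintro v v' ⟨t, ht, h1, h2⟩
    exact ⟨t, ht, h2, h1⟩
  have hBB : ∀ v ∈ Submodule.span ℝ (trans A T), B' (B v) = v := by
    have h1 : Submodule.span ℝ (trans A T) ≤ LinearMap.ker (B'.comp B - LinearMap.id) := by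
      rw [Submodule.span_le]
      intro v hv
      obtain ⟨v', -, hvv⟩ := hpair v hv
      have e1 : B v = v' := hB _ hvv
      have e2 : B' v' = v := hB' _ (hswap _ _ hvv)
      show B' (B v) - v = 0
      rw [e1, e2, sub_self]
    intro v hv
    exact sub_eq_zero.1 (h1 hv)
  have hBB' : ∀ v ∈ Submodule.span ℝ (trans A' T), B (B' v) = v := by
    have h1 : Submodule.span ℝ (trans A' T) ≤ LinearMap.ker (B.comp B' - LinearMap.id) := by
      rw [Submodule.span_le]
      intro v' hv
      obtain ⟨v, -, hvv⟩ := hpair' v' hv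
      have e1 : B v = v' := hB _ hvv
      have e2 : B' v' = v := hB' _ (hswap _ _ hvv)
      show B (B' v') - v' = 0
      rw [e2, e1, sub_self]
    intro v hv
    exact sub_eq_zero.1 (h1 hv)
  have hmem : ∀ v ∈ Submodule.span ℝ (trans A T), B v ∈ Submodule.span ℝ (trans A' T) := by
    have h1 : Submodule.span ℝ (trans A T) ≤ (Submodule.span ℝ (trans A' T)).comap B := by
      rw [Submodule.span_le]
      intro v hv
      obtain ⟨v', hv', hvv⟩ := hpair v hv
      have e1 : B v = v' := hB _ hvv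
      show B v ∈ Submodule.span ℝ (trans A' T)
      rw [e1]
      exact Submodule.subset_span hv'
    exact fun v hv => h1 hv
  have hmem' : ∀ v ∈ Submodule.span ℝ (trans A' T), B' v ∈ Submodule.span ℝ (trans A T) := by
    have h1 : Submodule.span ℝ (trans A' T) ≤ (Submodule.span ℝ (trans A T)).comap B' := by
      rw [Submodule.span_le]
      intro v' hv'
      obtain ⟨v, hv, hvv⟩ := hpair' v' hv'
      have e1 : B' v' = v := hB' _ (hswap _ _ hvv)
      show B' v' ∈ Submodule.span ℝ (trans A T)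
      rw [e1]
      exact Submodule.subset_span hv
    exact fun v hv => h1 hv
  refine ⟨B, hB, fun g => ?_, fun v hv h0 => ?_, hmem, fun v' hv' => ⟨B' v', hmem' v' hv', hBB' v' hv'⟩⟩
  · have h1 : Submodule.span ℝ (trans A T) ≤
        LinearMap.ker (((A' g).linear : E' →ₗ[ℝ] E').comp B - B.comp ((A g).linear : E →ₗ[ℝ] E)) := by
      rw [Submodule.span_le]
      intro v hv
      obtain ⟨v', -, hvv⟩ := hpair v hv
      have e1 : B v = v' := hB _ hvv
      have e2 : B ((A g).linear v) = (A' g).linear v' := hB _ (pair_conj g hvv)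
      show (A' g).linear (B v) - B ((A g).linear v) = 0
      rw [e1, e2, sub_self]
    intro v hv
    exact sub_eq_zero.1 (h1 hv)
  · rw [← hBB v hv, h0, map_zero]

theorem torus_rigid {A : G →* (E ≃ᵃ[ℝ] E)} {A' : G →* (E' ≃ᵃ[ℝ] E')}
    (hA : Function.Injective A) (hA' : Function.Injective A')
    (hPD : PD (actOf A)) (hCC : CC (actOf A)) (hPD' : PD (actOf A')) {T : Subgroup G} [T.Normal]
    (hT : ∀ t ∈ T, ∃ v, ∀ x, A t x = x + v) (hT' : ∀ t ∈ T, ∃ v, ∀ x, A' t x = x + v)
    {π : E →ᵃ[ℝ] Y} (hπ : Function.Surjective π)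
    (hker : LinearMap.ker π.linear = Submodule.span ℝ (trans A T))
    {π' : E' →ᵃ[ℝ] Y'} (hπ' : Function.Surjective π')
    (hker' : LinearMap.ker π'.linear = Submodule.span ℝ (trans A' T))
    {C : G → Y → Y} (hC : ∀ g x, C g (π x) = π (A g x))
    {C' : G → Y' → Y'} (hC' : ∀ g x, C' g (π' x) = π' (A' g x))
    {F : Y → Y'} (hF : ContDiff ℝ ∞ F) (hFd : ∀ y, Function.Bijective (fderiv ℝ F y))
    (hFe : ∀ g y, F (C g y) = C' g (F y)) :
    ∃ (f : E → E') (fi : E' → E), ContDiff ℝ ∞ f ∧ ContDiff ℝ ∞ fi ∧ (∀ x, fi (f x) = x) ∧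
      (∀ y, f (fi y) = y) ∧ (∀ x, π' (f x) = F (π x)) ∧ ∀ g x, f (A g x) = A' g (f x) := by
  classical
  obtain ⟨B, hB1, hB2, hB3, hB4, hB5⟩ := exists_B_props hA hA' hPD hPD' hT hT'
  obtain ⟨σ, hσ⟩ := exists_section hπ
  obtain ⟨σ', hσ'⟩ := exists_section hπ'
  set V := Submodule.span ℝ (trans A T) with hV
  have hmemV : ∀ x, x - σ (π x) ∈ V := by
    intro x
    rw [← hker, LinearMap.mem_ker, ← aff_sub, hσ, sub_self]
  have hπV : ∀ x, ∀ v ∈ V, π (x + v) = π x := by
    intro x v hv
    rw [← hker, LinearMap.mem_ker] at hv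
    rw [aff_add, hv, add_zero]
  -- the section map
  set s : E → E' := fun x => σ' (F (π x)) + B (x - σ (π x)) with hs
  have hsadd : ∀ x, ∀ v ∈ V, s (x + v) = s x + B v := by
    intro x v hv
    simp only [hs]
    rw [hπV x v hv, add_assoc]
    congr 1
    rw [← map_add]
    congr 1; abel
  have hss : ContDiff ℝ ∞ s := by
    have h1 : ContDiff ℝ ∞ (fun x => B (x - σ (π x))) :=
      (LinearMap.toContinuousLinearMap B).contDiff.comp
        (contDiff_id.sub ((aff_contDiff σ).comp (aff_contDiff π)))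
    exact ((aff_contDiff σ').comp (hF.comp (aff_contDiff π))).add h1
  have hsπ : ∀ x, π' (s x) = F (π x) := by
    intro x
    simp only [hs]
    have h1 : B (x - σ (π x)) ∈ LinearMap.ker π'.linear := by
      rw [hker']; exact hB4 _ (hmemV x)
    rw [aff_add, LinearMap.mem_ker.1 h1, add_zero, hσ']
  -- the pieces
  set P : G → E → E' := fun g x => A' g⁻¹ (s (A g x)) with hP
  have hPs : ∀ g, ContDiff ℝ ∞ (P g) := fun g =>
    (actOf_contDiff A' g⁻¹).comp (hss.comp (actOf_contDiff A g))
  have hPmul : ∀ g h x, P g (A h x) = A' h (P (g * h) x) := by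
    intro g h x
    simp only [hP]
    have h1 : A (g * h) x = A g (A h x) := (actOf_act A).mul g h x
    rw [h1]
    have h2 : A' g⁻¹ (s (A g (A h x))) = A' (h * (g * h)⁻¹) (s (A g (A h x))) := by
      congr 2; group
    rw [h2, map_mul]; rfl
  have hlin : ∀ (g : G) (w : E'), (A' g⁻¹).linear ((A' g).linear w) = w := by
    intro g w
    have h1 : (A' g⁻¹) (A' g (0 + w)) = 0 + w := (actOf_act A').inv_left g _
    have h2 : (A' g⁻¹) (A' g 0) = 0 := (actOf_act A').inv_left g _
    rw [affe_add, affe_add, h2, zero_add, zero_add] at h1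
    exact h1
  have hPadd : ∀ g x, ∀ v ∈ V, P g (x + v) = P g x + B v := by
    intro g x v hv
    simp only [hP]
    have h1 : A g (x + v) = A g x + (A g).linear v := affe_add _ _ _
    rw [h1, hsadd _ _ (span_normal g hv), affe_add, ← hB2 g v hv, hlin]
  have hPT : ∀ g, ∀ t ∈ T, P (g * t) = P g := by
    intro g t ht
    funext x
    obtain ⟨v, hv⟩ := hT t ht
    obtain ⟨v', hv'⟩ := hT' t ht
    have hvv : (v, v') ∈ pairs A A' T := ⟨t, ht, hv, hv'⟩
    have hvV : v ∈ V := Submodule.subset_span ⟨t, ht, hv⟩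
    have h1 := hPmul g t x
    rw [hv, hPadd g x v hvV, hv', hB1 _ hvv] at h1
    exact (add_right_cancel h1).symm
  have hPπ : ∀ g x, π' (P g x) = F (π x) := by
    intro g x
    simp only [hP]
    rw [← hC', hsπ, ← hC, hFe]
    exact (ind_act hπ' hC').inv_left g _
  -- the weights
  have c1 := bar_act hπ hker hT hC
  have c2 : ∀ h : G ⧸ T, ContDiff ℝ ∞ (C (Quotient.out h)) := fun h => ind_smooth hπ hC _
  have c3 := bar_PD hπ hker hT hC hPD
  have c4 := bar_CC hπ hker hT hC hCC
  obtain ⟨χ, hχs, hχ, hχ0, hχ1⟩ := exists_weight c1 c2 c3 c4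
  set f : E → E' := fun x => ∑ᶠ h : G ⧸ T, χ (C (Quotient.out h) (π x)) • P (Quotient.out h) x with hf
  have hfs : ContDiff ℝ ∞ f := contDiff_sum_pull (a := fun h : G ⧸ T => C (Quotient.out h)) c2 c3
    hχs hχ (aff_contDiff π) (fun h x => P (Quotient.out h) x) fun h => hPs _
  have hfin : ∀ y, (Function.support (fun h : G ⧸ T => χ (C (Quotient.out h) y))).Finite :=
    fun y => finite_support c3 hχ y
  have hfe : ∀ g x, f (A g x) = A' g (f x) := by
    intro g x
    simp only [hf]
    rw [← hC]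
    have h1 := affine_finsum' (hfin (π x)) (hχ1 (π x)) (A' g : E' →ᵃ[ℝ] E')
      (fun h => P (Quotient.out h) x)
    have h1' : A' g (∑ᶠ h : G ⧸ T, χ (C (Quotient.out h) (π x)) • P (Quotient.out h) x)
        = ∑ᶠ h : G ⧸ T, χ (C (Quotient.out h) (π x)) • A' g (P (Quotient.out h) x) := h1
    rw [h1']
    rw [← finsum_comp_equiv (Equiv.mulRight (g : G ⧸ T))
      (f := fun h : G ⧸ T => χ (C (Quotient.out h) (π x)) • A' g (P (Quotient.out h) x))]
    congr 1
    funext h
    simp only [Equiv.coe_mulRight]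
    have h2 : ((Quotient.out h * g : G) : G ⧸ T) = h * (g : G ⧸ T) := by
      rw [QuotientGroup.mk_mul, QuotientGroup.out_eq']
    have h3 := bar_mk (ind_trans hπ hker hT hC) (Quotient.out h * g)
    have h4 := bar_mk hPT (Quotient.out h * g)
    rw [h2] at h3 h4
    rw [h3, h4, (ind_act hπ hC).mul, hPmul]
  have hfadd : ∀ x, ∀ v ∈ V, f (x + v) = f x + B v := by
    intro x v hv
    simp only [hf]
    rw [hπV x v hv]
    have h1 := affine_finsum' (hfin (π x)) (hχ1 (π x))
      (AffineMap.id ℝ E' + AffineMap.const ℝ E' (B v)) (fun h => P (Quotient.out h) x)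
    have h2 : (AffineMap.id ℝ E' + AffineMap.const ℝ E' (B v))
        (∑ᶠ h : G ⧸ T, χ (C (Quotient.out h) (π x)) • P (Quotient.out h) x)
        = (∑ᶠ h : G ⧸ T, χ (C (Quotient.out h) (π x)) • P (Quotient.out h) x) + B v := rfl
    rw [← h2, h1]
    congr 1
    funext h
    rw [hPadd _ _ _ hv]; rfl
  have hfπ : ∀ x, π' (f x) = F (π x) := by
    intro x
    simp only [hf]
    rw [affine_finsum' (hfin (π x)) (hχ1 (π x)) π' (fun h => P (Quotient.out h) x)]
    simp only [hPπ]
    rw [← finsum_smul, hχ1, one_smul]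
  -- derivatives
  have hd1 : ∀ x u, π'.linear (fderiv ℝ f x u) = fderiv ℝ F (π x) (π.linear u) := by
    intro x u
    have hfd : HasFDerivAt f (fderiv ℝ f x) x := ((hfs.differentiable (by simp)) x).hasFDerivAt
    have hpd : ∀ (x : E), HasFDerivAt (π : E → Y) (LinearMap.toContinuousLinearMap π.linear) x := by
      intro x
      have h1 : (π : E → Y) = fun x => LinearMap.toContinuousLinearMap π.linear x + π 0 := by
        funext x; exact aff_apply π x
      rw [h1]
      exact ((LinearMap.toContinuousLinearMap π.linear).hasFDerivAt).add_const _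
    have hpd' : ∀ (x : E'), HasFDerivAt (π' : E' → Y') (LinearMap.toContinuousLinearMap π'.linear) x := by
      intro x
      have h1 : (π' : E' → Y') = fun x => LinearMap.toContinuousLinearMap π'.linear x + π' 0 := by
        funext x; exact aff_apply π' x
      rw [h1]
      exact ((LinearMap.toContinuousLinearMap π'.linear).hasFDerivAt).add_const _
    have ha := (hpd' (f x)).comp x hfd
    have hFd' : HasFDerivAt F (fderiv ℝ F (π x)) (π x) :=
      ((hF.differentiable (by simp)) _).hasFDerivAt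
    have hb := hFd'.comp x (hpd x)
    have hc : (π' : E' → Y') ∘ f = F ∘ (π : E → Y) := by funext x; exact hfπ x
    rw [hc] at ha
    have := ha.unique hb
    exact congrArg (fun L : E →L[ℝ] Y' => L u) this
  have hd2 : ∀ x, ∀ v ∈ V, fderiv ℝ f x v = B v := by
    intro x v hv
    have hfd : HasFDerivAt f (fderiv ℝ f x) x := ((hfs.differentiable (by simp)) x).hasFDerivAt
    have h1 : HasDerivAt (fun t : ℝ => x + t • v) v 0 := by
      have := ((hasDerivAt_id (0 : ℝ)).smul_const v).const_add x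
      simpa using this
    have h0 : HasFDerivAt f (fderiv ℝ f x) (x + (0 : ℝ) • v) := by simpa using hfd
    have h2 := h0.comp_hasDerivAt (0 : ℝ) h1
    have h3 : HasDerivAt (fun t : ℝ => f x + t • B v) (B v) 0 := by
      have := ((hasDerivAt_id (0 : ℝ)).smul_const (B v)).const_add (f x)
      simpa using this
    have h4 : (f ∘ fun t : ℝ => x + t • v) = fun t : ℝ => f x + t • B v := by
      funext t
      simp only [Function.comp]
      rw [hfadd x _ (V.smul_mem t hv), map_smul]
    rw [h4] at h2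
    exact h2.unique h3
  have hfd : ∀ x, Function.Bijective (fderiv ℝ f x) := by
    intro x
    constructor
    · rw [injective_iff_map_eq_zero]
      intro u hu
      have h1 := hd1 x u
      rw [hu, map_zero] at h1
      have h2 : π.linear u = 0 := by
        have := (hFd (π x)).1
        rw [injective_iff_map_eq_zero] at this
        exact this _ h1.symm
      have h3 : u ∈ V := by rw [← hker]; exact LinearMap.mem_ker.2 h2
      have h4 := hd2 x u h3
      rw [hu] at h4
      exact hB3 u h3 h4.symm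
    · intro w
      obtain ⟨y, hy⟩ := (hFd (π x)).2 (π'.linear w)
      have hsur : Function.Surjective π.linear := (AffineMap.linear_surjective_iff π).2 hπ
      obtain ⟨u, rfl⟩ := hsur y
      have h1 : w - fderiv ℝ f x u ∈ Submodule.span ℝ (trans A' T) := by
        rw [← hker', LinearMap.mem_ker, map_sub, hd1, hy, sub_self]
      obtain ⟨v, hv, hvB⟩ := hB5 _ h1
      refine ⟨u + v, ?_⟩
      rw [map_add, hd2 x v hv, hvB]; abel
  have hfb : Function.Bijective f := cover_bijective (actOf_act A) (actOf_continuous A) hCC hPD'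
    (isLocalHomeomorph_of_fderiv hfs hfd) hfe
  obtain ⟨fi, hfi, hl, hr⟩ := exists_smooth_inverse hfs hfd hfb
  exact ⟨f, fi, hfs, hfi, hl, hr, hfπ, hfe⟩

end rigid

end Pool.Agent.Run7.h816
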